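import Mathlib
import Pool.Agent.H40ZL.Defs

/-!
# One reduction and one Galois element: definitions
-/

set_option autoImplicit false

namespace Pool.Agent.H40TG

open Matrix Pool.Agent.H40ZL

section

variable {n : Type*} [Fintype n] [DecidableEq n]

/-- the matrix of the action of `x` on `det ⊗ (1 ⊕ V ⊕ End V)`: `(a, v, M) ↦ (det x * a, det x * x v, x M adj(x))` -/
def psi {R : Type*} [CommRing R] (x : Matrix n n R) : Matrix (Unit ⊕ (n ⊕ n × n)) (Unit ⊕ (n ⊕ n × n)) R :=
  Matrix.fromBlocks (x.det • (1 : Matrix Unit Unit R)) 0 0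
    (Matrix.fromBlocks (x.det • x) 0 0 (Matrix.kroneckerMap (· * ·) x x.adjugateᵀ))

/-- `exp (s X)` -/
noncomputable def expM {k : Type*} [Field k] (X : Matrix n n k) : Matrix n n (PowerSeries k) :=
  Matrix.of fun i j => PowerSeries.mk fun l => ((l.factorial : k)⁻¹) * (X ^ l) i j

/-- `(a, v, M)` is a nonzero vector of `1 ⊕ V ⊕ End V` which is an eigenvector of the invertible matrix `g`, with the
eigenvalue `μ`, and of the tangent vector `X`, with the eigenvalue `β` -/
def Joint {k : Type*} [Field k] (g X : Matrix n n k) (μ β a : k) (v : n → k) (M : Matrix n n k) : Prop :=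
  (a ≠ 0 ∨ v ≠ 0 ∨ M ≠ 0) ∧ a = μ * a ∧ g *ᵥ v = μ • v ∧ g * M = μ • (M * g) ∧
    β * a = 0 ∧ X *ᵥ v = β • v ∧ X * M - M * X = β • M

/-- the eigenvalue of `X` at a joint eigenvector is determined by the eigenvalue of `g` -/
def Single {k : Type*} [Field k] (g X : Matrix n n k) : Prop :=
  ∀ μ β β' a a' : k, ∀ v v' : n → k, ∀ M M' : Matrix n n k, Joint g X μ β a v M → Joint g X μ β' a' v' M' → β = β'

/-- a group `A` of matrices acting semisimply, and a Lie algebra `L` of matrices in the linear span of `A`, stable under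
conjugation by `A` -/
structure Setup {k : Type*} [Field k] (A : Set (Matrix n n k)) (L : Submodule k (Matrix n n k)) : Prop where
  ss : SSimple A
  one : (1 : Matrix n n k) ∈ A
  mul : ∀ p ∈ A, ∀ q ∈ A, p * q ∈ A
  inv : ∀ p ∈ A, ∃ q ∈ A, p * q = 1
  lie : ∀ X ∈ L, ∀ Y ∈ L, X * Y - Y * X ∈ L
  conj : ∀ p ∈ A, ∀ q ∈ A, p * q = 1 → ∀ X ∈ L, p * X * q ∈ L
  span : L ≤ Submodule.span k A

end

end Pool.Agent.H40TG
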