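import Mathlib
import Pool.Agent.H40ZL.Defs
import Pool.Agent.H40TG.Defs

/-!
# Stub B1: a direct sum of irreducible representations is semisimple
-/

set_option autoImplicit false

namespace Pool.Agent.H40TG

open Matrix Pool.Agent.H40ZL

namespace B1

variable {k : Type*} [Field k] {s : ℕ} {n : Fin s → ℕ}

/-- the embedding of the block `j` -/
def emb (k : Type*) [Field k] {s : ℕ} (n : Fin s → ℕ) (j : Fin s) : (Fin (n j) → k) →ₗ[k] ((Σ j, Fin (n j)) → k) where
  toFun u := fun q => (Pi.single j u : ∀ i, Fin (n i) → k) q.1 q.2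
  map_add' u v := by
    funext q
    rw [Pi.single_add]
    rfl
  map_smul' c u := by
    funext q
    rw [Pi.single_smul]
    rfl

theorem emb_apply (j : Fin s) (u : Fin (n j) → k) (q : Σ j, Fin (n j)) :
    emb k n j u q = (Pi.single j u : ∀ i, Fin (n i) → k) q.1 q.2 := rfl

theorem mulVec_apply (M : ∀ j, Matrix (Fin (n j)) (Fin (n j)) k) (x : (Σ j, Fin (n j)) → k) (i : Fin s) (a : Fin (n i)) :
    (Matrix.blockDiagonal' M *ᵥ x) ⟨i, a⟩ = (M i *ᵥ fun b => x ⟨i, b⟩) a := by
  simp only [Matrix.mulVec, dotProduct]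
  rw [Fintype.sum_sigma, Finset.sum_eq_single i]
  · refine Finset.sum_congr rfl fun b _ => ?_
    rw [Matrix.blockDiagonal'_apply_eq]
  · intro j _ hj
    refine Finset.sum_eq_zero fun b _ => ?_
    rw [Matrix.blockDiagonal'_apply_ne _ _ _ (Ne.symm hj), zero_mul]
  · intro h
    exact absurd (Finset.mem_univ i) h

theorem equiv (M : ∀ j, Matrix (Fin (n j)) (Fin (n j)) k) (j : Fin s) (u : Fin (n j) → k) :
    Matrix.blockDiagonal' M *ᵥ emb k n j u = emb k n j (M j *ᵥ u) := by
  funext ⟨i, a⟩
  rw [mulVec_apply, emb_apply]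
  by_cases h : i = j
  · subst h
    simp only [emb_apply, Pi.single_eq_same]
  · simp only [emb_apply]
    rw [Pi.single_eq_of_ne h, Pi.single_eq_of_ne h]
    simp [Matrix.mulVec]

theorem sum_emb (v : (Σ j, Fin (n j)) → k) : v = ∑ j, emb k n j (fun a => v ⟨j, a⟩) := by
  funext ⟨i, a⟩
  rw [Finset.sum_apply, Finset.sum_eq_single i]
  · rw [emb_apply]
    simp only [Pi.single_eq_same]
  · intro j _ hj
    rw [emb_apply, Pi.single_eq_of_ne (Ne.symm hj)]
    rfl
  · intro h
    exact absurd (Finset.mem_univ i) h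

end B1

open B1

/-- **B1.** A direct sum of irreducible representations is semisimple. -/
theorem ssimple_blk {k Γ : Type*} [Field k] [Group Γ] {s : ℕ} {n : Fin s → ℕ}
    (ρ : ∀ j, Γ →* Matrix (Fin (n j)) (Fin (n j)) k)
    (hirr : ∀ j, ∀ U : Submodule k (Fin (n j) → k), (∀ g, ∀ u ∈ U, ρ j g *ᵥ u ∈ U) → U = ⊥ ∨ U = ⊤) :
    SSimple (Set.range fun g : Γ => Matrix.blockDiagonal' fun j => ρ j g) := by
  intro U hU
  have hsup : ∀ U₁ U₂ : Submodule k ((Σ j, Fin (n j)) → k),
      Stable (Set.range fun g : Γ => Matrix.blockDiagonal' fun j => ρ j g) U₁ →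
      Stable (Set.range fun g : Γ => Matrix.blockDiagonal' fun j => ρ j g) U₂ →
      Stable (Set.range fun g : Γ => Matrix.blockDiagonal' fun j => ρ j g) (U₁ ⊔ U₂) := by
    intro U₁ U₂ h1 h2 x hx v hv
    obtain ⟨a, ha, b, hb, rfl⟩ := Submodule.mem_sup.mp hv
    rw [Matrix.mulVec_add]
    exact Submodule.add_mem_sup (h1 x hx a ha) (h2 x hx b hb)
  have hW : ∀ j, Stable (Set.range fun g : Γ => Matrix.blockDiagonal' fun j => ρ j g) (LinearMap.range (emb k n j)) := by
    rintro j x ⟨g, rfl⟩ v ⟨u, rfl⟩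
    exact ⟨ρ j g *ᵥ u, (equiv (fun j => ρ j g) j u).symm⟩
  have key : ∀ J : Finset (Fin s), ∃ U' : Submodule k ((Σ j, Fin (n j)) → k),
      Stable (Set.range fun g : Γ => Matrix.blockDiagonal' fun j => ρ j g) U' ∧ Disjoint U U' ∧
      ∀ j ∈ J, LinearMap.range (emb k n j) ≤ U ⊔ U' := by
    intro J
    induction J using Finset.induction_on with
    | empty =>
      refine ⟨⊥, ?_, disjoint_bot_right, fun j hj => absurd hj (Finset.notMem_empty j)⟩
      intro x _ v hv
      rw [Submodule.mem_bot] at hv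
      rw [hv, Matrix.mulVec_zero]
      exact zero_mem _
    | insert j J hj ih =>
      obtain ⟨U', h1, h2, h3⟩ := ih
      have hs := hsup U U' hU h1
      rcases hirr j ((U ⊔ U').comap (emb k n j)) (by
        intro g u hu
        rw [Submodule.mem_comap] at hu ⊢
        have := hs _ ⟨g, rfl⟩ _ hu
        rwa [equiv (fun j => ρ j g) j u] at this) with h | h
      · refine ⟨U' ⊔ LinearMap.range (emb k n j), hsup _ _ h1 (hW j), ?_, ?_⟩
        · refine h2.disjoint_sup_right_of_disjoint_sup_left ?_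
          rw [Submodule.disjoint_def]
          rintro w hw ⟨u, rfl⟩
          have hu : u ∈ (U ⊔ U').comap (emb k n j) := hw
          rw [h, Submodule.mem_bot] at hu
          rw [hu, map_zero]
        · intro i hi
          rcases Finset.mem_insert.mp hi with rfl | hi
          · exact le_sup_of_le_right le_sup_right
          · refine (h3 i hi).trans ?_
            exact sup_le_sup_left le_sup_left U
      · refine ⟨U', h1, h2, ?_⟩
        intro i hi
        rcases Finset.mem_insert.mp hi with rfl | hi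
        · rintro w ⟨u, rfl⟩
          have hu : u ∈ (U ⊔ U').comap (emb k n i) := by rw [h]; exact Submodule.mem_top
          exact hu
        · exact h3 i hi
  obtain ⟨U', h1, h2, h3⟩ := key Finset.univ
  refine ⟨U', h1, h2, ?_⟩
  rw [codisjoint_iff, eq_top_iff]
  intro v _
  rw [sum_emb v]
  exact Submodule.sum_mem _ fun j hj => h3 j hj ⟨_, rfl⟩

end Pool.Agent.H40TG
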