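import Mathlib
import Pool.Agent.H40TG.Defs

set_option autoImplicit false

namespace Pool.Agent.H40TG

open Matrix Pool.Agent.H40ZL

section

variable {k : Type*} [Field k] {n : Type*} [Fintype n] [DecidableEq n]

/-- the homomorphism `P ↦ P(y exp(sX))` -/
noncomputable def expPhi (y X : Matrix n n k) : MvPolynomial (n × n) k →ₐ[k] PowerSeries k :=
  MvPolynomial.aeval (fun q : n × n => (y.map (algebraMap k (PowerSeries k)) * expM X) q.1 q.2)

theorem expPhi_X (y X : Matrix n n k) (q : n × n) :
    expPhi y X (MvPolynomial.X q) = (y.map (algebraMap k (PowerSeries k)) * expM X) q.1 q.2 :=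
  MvPolynomial.aeval_X _ _

theorem coeff_entry (y X : Matrix n n k) (i j : n) (m : ℕ) :
    PowerSeries.coeff m ((y.map (algebraMap k (PowerSeries k)) * expM X) i j) =
      ((m.factorial : k)⁻¹) * (y * X ^ m) i j := by
  rw [Matrix.mul_apply, map_sum, Matrix.mul_apply, Finset.mul_sum]
  refine Finset.sum_congr rfl fun a _ => ?_
  rw [Matrix.map_apply, expM, Matrix.of_apply]
  have h1 : algebraMap k (PowerSeries k) (y i a) = PowerSeries.C (y i a) := rfl
  rw [h1, PowerSeries.coeff_C_mul, PowerSeries.coeff_mk]
  ring

theorem coeff_zero_phi (y X : Matrix n n k) (P : MvPolynomial (n × n) k) :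
    PowerSeries.coeff 0 (expPhi y X P) = evm y P := by
  have h1 : (PowerSeries.constantCoeff (R := k)).comp ((expPhi y X : MvPolynomial (n × n) k →+* PowerSeries k)) =
      (evm y : MvPolynomial (n × n) k →+* k) := by
    refine MvPolynomial.ringHom_ext (fun r => ?_) fun q => ?_
    · simp
    · rw [RingHom.comp_apply]
      have h2 : (expPhi y X : MvPolynomial (n × n) k →+* PowerSeries k) (MvPolynomial.X q) =
          expPhi y X (MvPolynomial.X q) := rfl
      rw [h2, expPhi_X, ← PowerSeries.coeff_zero_eq_constantCoeff_apply, coeff_entry]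
      have h3 : (evm y : MvPolynomial (n × n) k →+* k) (MvPolynomial.X q) = y q.1 q.2 := by
        show evm y (MvPolynomial.X q) = _
        rw [evm, MvPolynomial.aeval_X]
      rw [h3]
      simp
  have h4 := congrArg (fun f => f P) h1
  simpa using h4

variable [CharZero k]

theorem deriv_phi (y X : Matrix n n k) (P : MvPolynomial (n × n) k) :
    PowerSeries.derivative k (expPhi y X P) = expPhi y X (genD X P) := by
  induction P using MvPolynomial.induction_on with
  | C a =>
    have h1 : expPhi y X (MvPolynomial.C a) = PowerSeries.C a := by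
      rw [← MvPolynomial.algebraMap_eq, AlgHom.commutes]
      rfl
    rw [h1, MvPolynomial.derivation_C, map_zero]
    have h2 : (PowerSeries.C a : PowerSeries k) = algebraMap k (PowerSeries k) a := rfl
    rw [h2, Derivation.map_algebraMap]
  | add p q hp hq => rw [map_add, map_add, map_add, map_add, hp, hq]
  | mul_X p q hp =>
    have hX : PowerSeries.derivative k (expPhi y X (MvPolynomial.X q)) =
        expPhi y X (genD X (MvPolynomial.X q)) := by
      rw [genD, MvPolynomial.mkDerivation_X, expPhi_X, map_sum]
      ext m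
      rw [PowerSeries.coeff_derivative, coeff_entry, map_sum]
      have h2 : ∀ l : n, PowerSeries.coeff m (expPhi y X (MvPolynomial.X (q.1, l) * MvPolynomial.C (X l q.2))) =
          ((m.factorial : k)⁻¹) * ((y * X ^ m) q.1 l * X l q.2) := by
        intro l
        have h1 : expPhi y X (MvPolynomial.C (X l q.2)) = PowerSeries.C (X l q.2) := by
          rw [← MvPolynomial.algebraMap_eq, AlgHom.commutes]
          rfl
        rw [map_mul, h1, expPhi_X, PowerSeries.coeff_mul_C, coeff_entry]
        ring
      rw [Finset.sum_congr rfl fun l _ => h2 l, ← Finset.mul_sum, ← Matrix.mul_apply, Matrix.mul_assoc, ← pow_succ,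
        Nat.factorial_succ]
      have h3 : ((m : k) + 1) ≠ 0 := by exact_mod_cast Nat.succ_ne_zero m
      push_cast
      rw [mul_inv]
      field_simp
    rw [map_mul, Derivation.leibniz, Derivation.leibniz, hp, hX, map_add, smul_eq_mul, smul_eq_mul, smul_eq_mul,
      smul_eq_mul, map_mul, map_mul]

end

/-- **E1.** -/
theorem exp_zero {k : Type*} [Field k] [CharZero k] {n : Type*} [Fintype n] [DecidableEq n] (S : Set (Matrix n n k))
    (X : Matrix n n k) (hX : IsTangent S X) (P : MvPolynomial (n × n) k) (hP : ∀ x ∈ S, evm x P = 0)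
    (y : Matrix n n k) (hy : y ∈ S) :
    MvPolynomial.aeval (fun q : n × n => (y.map (algebraMap k (PowerSeries k)) * expM X) q.1 q.2) P = 0 := by
  show expPhi y X P = 0
  have key : ∀ l : ℕ, ∀ P : MvPolynomial (n × n) k, (∀ x ∈ S, evm x P = 0) →
      PowerSeries.coeff l (expPhi y X P) = 0 := by
    intro l
    induction l with
    | zero =>
      intro P hP
      rw [coeff_zero_phi]
      exact hP y hy
    | succ l ih =>
      intro P hP
      have h1 := ih (genD X P) (hX P hP)
      rw [← deriv_phi, PowerSeries.coeff_derivative] at h1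
      have h3 : ((l : k) + 1) ≠ 0 := by exact_mod_cast Nat.succ_ne_zero l
      exact (mul_eq_zero.1 h1).resolve_right h3
  ext l
  rw [key l P hP, map_zero]

end Pool.Agent.H40TG
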