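import Mathlib
import Pool.Agent.H40TG.Defs

set_option autoImplicit false

namespace Pool.Agent.H40TG

open Matrix Pool.Agent.H40ZL

/-- all traces of powers zero imply nilpotent -/
theorem nilp_of_trace {k : Type*} [Field k] [CharZero k] {n : Type*} [Fintype n] [DecidableEq n] (C : Matrix n n k)
    (h : ∀ j : ℕ, Matrix.trace (C ^ (j + 1)) = 0) : IsNilpotent C := by
  have hint : IsIntegral k C := Algebra.IsIntegral.isIntegral C
  have h0 : minpoly k C ≠ 0 := minpoly.ne_zero hint
  have hp : ∀ p : Polynomial k, Matrix.trace (C * Polynomial.aeval C p) = 0 := by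
    intro p
    induction p using Polynomial.induction_on' with
    | add p q hp hq => rw [map_add, mul_add, Matrix.trace_add, hp, hq, add_zero]
    | monomial j a =>
      rw [Polynomial.aeval_monomial, Algebra.algebraMap_eq_smul_one, smul_mul_assoc, one_mul, mul_smul_comm,
        ← pow_succ', Matrix.trace_smul, h j, smul_zero]
  obtain ⟨q, hq, hnd⟩ := Polynomial.exists_eq_pow_rootMultiplicity_mul_and_not_dvd (minpoly k C) h0 0
  set r := Polynomial.rootMultiplicity 0 (minpoly k C) with hr
  rw [map_zero, sub_zero] at hq hnd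
  have hcop : IsCoprime ((Polynomial.X : Polynomial k) ^ (r + 1)) q :=
    ((Polynomial.irreducible_X.coprime_iff_not_dvd).2 hnd).pow_left
  obtain ⟨u, v, huv⟩ := hcop
  have hz : C ^ r * Polynomial.aeval C q = 0 := by
    have h1 := minpoly.aeval k C
    rw [hq, map_mul, map_pow, Polynomial.aeval_X] at h1
    exact h1
  set e : Matrix n n k := Polynomial.aeval C (u * Polynomial.X ^ (r + 1)) with he
  set f : Matrix n n k := Polynomial.aeval C (v * q) with hf
  have hef : e + f = 1 := by
    rw [he, hf, ← map_add, huv, map_one]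
  have hef0 : e * f = 0 := by
    rw [he, hf, ← map_mul, show u * Polynomial.X ^ (r + 1) * (v * q) = (u * v * Polynomial.X) * (Polynomial.X ^ r * q) by ring,
      map_mul, map_mul _ (Polynomial.X ^ r) q, map_pow, Polynomial.aeval_X, hz, mul_zero]
  have hee : e * e = e := by
    have h1 : e * (e + f) = e := by rw [hef, mul_one]
    rwa [mul_add, hef0, add_zero] at h1
  have hte : Matrix.trace e = 0 := by
    have h1 : e = C * Polynomial.aeval C (u * Polynomial.X ^ r) := by
      rw [he, show u * Polynomial.X ^ (r + 1) = Polynomial.X * (u * Polynomial.X ^ r) by ring, map_mul,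
        Polynomial.aeval_X]
    rw [h1]
    exact hp _
  have he0 : e = 0 := by
    have h1 : IsIdempotentElem (Matrix.toLin' e) := by
      show Matrix.toLin' e * Matrix.toLin' e = Matrix.toLin' e
      rw [Module.End.mul_eq_comp, ← Matrix.toLin'_mul, hee]
    have h2 : LinearMap.trace k (n → k) (Matrix.toLin' e) = 0 := by
      rw [Matrix.trace_toLin'_eq, hte]
    have h3 := LinearMap.IsIdempotentElem.eq_zero_of_trace_eq_zero h1 h2
    exact Matrix.toLin'.injective (by rw [h3, map_zero])
  refine ⟨r, ?_⟩
  have h1 : f = 1 := by rw [← hef, he0, zero_add]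
  calc C ^ r = C ^ r * f := by rw [h1, mul_one]
    _ = C ^ r * Polynomial.aeval C q * Polynomial.aeval C v := by
      rw [hf, mul_comm v q, map_mul, mul_assoc]
    _ = 0 := by rw [hz, zero_mul]

/-- **J0.** -/
theorem comm_nilp {k : Type*} [Field k] [CharZero k] {n : Type*} [Fintype n] [DecidableEq n] (X Z : Matrix n n k)
    (h : X * (X * Z - Z * X) = (X * Z - Z * X) * X) : IsNilpotent (X * Z - Z * X) := by
  apply nilp_of_trace
  intro j
  set C := X * Z - Z * X with hC
  have hc : Commute X (C ^ j) := Commute.pow_right h j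
  rw [pow_succ]
  nth_rewrite 2 [hC]
  rw [mul_sub, Matrix.trace_sub, ← mul_assoc, ← hc.eq, mul_assoc, Matrix.trace_mul_comm, mul_assoc, sub_self]

end Pool.Agent.H40TG
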