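import Mathlib
import Pool.Agent.H40TG.Defs
import Pool.Agent.H40TG.J0

/-!
# Project TG, stub J1 (helper73): products of a nilpotent element
-/

set_option autoImplicit false

namespace Pool.Agent.H40TG

open Matrix Pool.Agent.H40ZL

namespace J1

theorem pow_comm {R : Type*} [Ring R] {X Z C : R} (hC : X * Z = Z * X + C) (h : X * C = C * X) (i : ℕ) :
    X ^ (i + 1) * Z = Z * X ^ (i + 1) + (i + 1) • (C * X ^ i) := by
  induction i with
  | zero => simp [hC]
  | succ i ih =>
    have e1 : X * (Z * X ^ (i + 1)) = Z * X ^ (i + 1 + 1) + C * X ^ (i + 1) := by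
      rw [← mul_assoc, hC, add_mul, mul_assoc, ← pow_succ']
    have e2 : X * (C * X ^ i) = C * X ^ (i + 1) := by
      rw [← mul_assoc, h, mul_assoc, ← pow_succ']
    calc X ^ (i + 1 + 1) * Z = X * (X ^ (i + 1) * Z) := by rw [pow_succ' X (i + 1), mul_assoc]
      _ = X * (Z * X ^ (i + 1)) + (i + 1) • (X * (C * X ^ i)) := by rw [ih, mul_add, mul_smul_comm]
      _ = Z * X ^ (i + 1 + 1) + (i + 1 + 1) • (C * X ^ (i + 1)) := by
          rw [e1, e2, succ_nsmul (C * X ^ (i + 1)) (i + 1)]
          abel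

theorem step {R : Type*} [Ring R] {X Z C M : R} (hC : X * Z = Z * X + C) (h : X * C = C * X) (i : ℕ)
    (hM : X ^ (i + 1) * M = 0) (j : ℕ) :
    X ^ (i + 1) * ((X * Z) ^ j * M) = 0 ∧
      X ^ i * ((X * Z) ^ j * M) = ((i + 1) ^ j) • (C ^ j * (X ^ i * M)) := by
  induction j with
  | zero => simp [hM]
  | succ j ih =>
    obtain ⟨h1, h2⟩ := ih
    set N := (X * Z) ^ j * M with hN
    have e0 : (X * Z) ^ (j + 1) * M = X * Z * N := by rw [pow_succ', mul_assoc]
    have e1 : ∀ l : ℕ, X ^ l * (X * Z * N) = X ^ (l + 1) * Z * N := by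
      intro l
      rw [pow_succ]
      simp only [mul_assoc]
    have e2 : ∀ l : ℕ, X ^ (l + 1) * Z * N = Z * (X ^ (l + 1) * N) + (l + 1) • (C * (X ^ l * N)) := by
      intro l
      rw [pow_comm hC h l, add_mul, smul_mul_assoc]
      simp only [mul_assoc]
    constructor
    · rw [e0, e1, e2, h1, mul_zero, smul_zero, add_zero, pow_succ' X (i + 1), mul_assoc, h1, mul_zero, mul_zero]
    · rw [e0, e1, e2, h1, mul_zero, zero_add, h2, mul_smul_comm, smul_smul, ← mul_assoc C, ← pow_succ']
      congr 1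
      rw [pow_succ']

theorem nilp {R : Type*} [Ring R] {X Z C : R} (hC : X * Z = Z * X + C) (h : X * C = C * X) {m r : ℕ} (hm : X ^ m = 0)
    (hr : C ^ r = 0) : (X * Z) ^ (r * m) = 0 := by
  have key : ∀ s l : ℕ, s + l = m → X ^ l * (X * Z) ^ (r * s) = 0 := by
    intro s
    induction s with
    | zero =>
      intro l hl
      rw [zero_add] at hl
      rw [hl, hm, zero_mul]
    | succ s ih =>
      intro l hl
      have h1 := ih (l + 1) (by omega)
      have h2 := (step hC h l h1 r).2
      rw [hr, zero_mul, smul_zero, ← pow_add] at h2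
      rw [← h2]
      congr 2
      ring
  have := key m 0 (by omega)
  rwa [pow_zero, one_mul] at this

end J1

/-- **J1.** If `X` is nilpotent and commutes with `C = [X, Z]` then `X Z` is nilpotent. -/
theorem mul_nilp {k : Type*} [Field k] [CharZero k] {n : Type*} [Fintype n] [DecidableEq n] (X Z : Matrix n n k)
    (hX : IsNilpotent X) (h : X * (X * Z - Z * X) = (X * Z - Z * X) * X) : IsNilpotent (X * Z) := by
  obtain ⟨m, hm⟩ := hX
  obtain ⟨r, hr⟩ := comm_nilp X Z h
  exact ⟨r * m, J1.nilp (by abel) h hm hr⟩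

end Pool.Agent.H40TG
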