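import Mathlib
import Pool.Agent.H40TG.Defs
import Pool.Agent.H40TG.J0
import Pool.Agent.H40TG.J1

/-!
# J2: the first step of the Jacobson-Morozov theorem
-/

set_option autoImplicit false

namespace Pool.Agent.H40TG

open Matrix Pool.Agent.H40ZL Module

attribute [local instance 100] LieRing.ofAssociativeRing

/-- Cartan's criterion for matrices -/
theorem J2_cartan {k : Type*} [Field k] [CharZero k] {n : Type*} [Fintype n] [DecidableEq n]
    (R : Submodule k (Matrix n n k)) (hR : ∀ X ∈ R, ∀ Y ∈ R, X * Y - Y * X ∈ R)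
    (htr : ∀ X ∈ R, ∀ Y ∈ R, Matrix.trace (X * Y) = 0) (X : Matrix n n k) (hX : X ∈ R) (Y : Matrix n n k)
    (hY : Y ∈ R) : IsNilpotent (X * Y - Y * X) := by
  let e : Matrix n n k ≃ₐ[k] Module.End k (n → k) := Matrix.toLinAlgEquiv'
  let S : LieSubalgebra k (Module.End k (n → k)) :=
    { carrier := {Z | e.symm Z ∈ R}
      add_mem' := by
        intro a b ha hb
        show e.symm (a + b) ∈ R
        rw [map_add]
        exact R.add_mem ha hb
      zero_mem' := by
        show e.symm 0 ∈ R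
        rw [map_zero]
        exact R.zero_mem
      smul_mem' := by
        intro c a ha
        show e.symm (c • a) ∈ R
        rw [map_smul]
        exact R.smul_mem c ha
      lie_mem' := by
        intro a b ha hb
        show e.symm (a * b - b * a) ∈ R
        rw [map_sub, map_mul, map_mul]
        exact hR _ ha _ hb }
  have htf : LieModule.traceForm k S (n → k) = 0 := by
    ext ⟨x, hx⟩ ⟨y, hy⟩
    rw [LieModule.traceForm_apply_apply]
    have h1 := htr _ hx _ hy
    have h2 : LinearMap.trace k (n → k) (e (e.symm x * e.symm y)) = Matrix.trace (e.symm x * e.symm y) :=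
      Matrix.trace_toLin'_eq _
    rw [h1, map_mul, AlgEquiv.apply_symm_apply, AlgEquiv.apply_symm_apply] at h2
    exact h2
  have hnd : LieModule.IsNilpotent (LieAlgebra.derivedSeries k S 1) (n → k) :=
    LieModule.isNilpotent_derivedSeries_of_traceForm_eq_zero htf
  have hX' : e X ∈ S := by
    show e.symm (e X) ∈ R
    rw [AlgEquiv.symm_apply_apply]
    exact hX
  have hY' : e Y ∈ S := by
    show e.symm (e Y) ∈ R
    rw [AlgEquiv.symm_apply_apply]
    exact hY
  have hm : ⁅(⟨e X, hX'⟩ : S), (⟨e Y, hY'⟩ : S)⁆ ∈ LieAlgebra.derivedSeries k S 1 := by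
    rw [LieAlgebra.derivedSeries_def, LieAlgebra.derivedSeriesOfIdeal_succ, LieAlgebra.derivedSeriesOfIdeal_zero]
    exact LieSubmodule.lie_mem_lie (LieSubmodule.mem_top _) (LieSubmodule.mem_top _)
  rw [LieModule.isNilpotent_iff_forall' (R := k)] at hnd
  have h3 : IsNilpotent (e X * e Y - e Y * e X) := hnd ⟨_, hm⟩
  have h4 := h3.map (e.symm : Module.End k (n → k) →ₐ[k] Matrix n n k)
  have h5 : (e.symm : Module.End k (n → k) →ₐ[k] Matrix n n k) (e X * e Y - e Y * e X) = X * Y - Y * X := by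
    change e.symm (e X * e Y - e Y * e X) = _
    rw [← map_mul, ← map_mul, ← map_sub, AlgEquiv.symm_apply_apply]
  rwa [h5] at h4

/-- duality for a symmetric bilinear form on a finite-dimensional space -/
theorem J2_dual {k W : Type*} [Field k] [AddCommGroup W] [Module k W] [FiniteDimensional k W]
    (B : W →ₗ[k] Module.Dual k W) (hB : ∀ x y, B x y = B y x) (φ : Module.Dual k W)
    (hφ : ∀ x, B x = 0 → φ x = 0) : ∃ z, B z = φ := by
  have h1 : φ ∈ (LinearMap.ker B).dualAnnihilator := by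
    rw [Submodule.mem_dualAnnihilator]
    intro x hx
    exact hφ x hx
  rw [← LinearMap.range_dualMap_eq_dualAnnihilator_ker] at h1
  obtain ⟨ψ, hψ⟩ := h1
  obtain ⟨z, hz⟩ := (Module.evalEquiv k W).surjective ψ
  refine ⟨z, ?_⟩
  rw [← hψ, ← hz]
  ext x
  simp [hB x z]

theorem exists_ad {k : Type*} [Field k] [CharZero k] {n : Type*} [Fintype n] [DecidableEq n]
    (L : Submodule k (Matrix n n k)) (hL : ∀ X ∈ L, ∀ Y ∈ L, X * Y - Y * X ∈ L)
    (hC : ∀ ν ∈ L, IsNilpotent ν → (∀ X ∈ L, Matrix.trace (ν * X) = 0) → ν = 0) (X : Matrix n n k) (hX : X ∈ L)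
    (hn : IsNilpotent X) : ∃ Y ∈ L, X * (X * Y - Y * X) - (X * Y - Y * X) * X = -(2 : k) • X := by
  -- the invariance of the trace form
  have hinv : ∀ A B C : Matrix n n k, Matrix.trace ((A * B - B * A) * C) = Matrix.trace (A * (B * C - C * B)) := by
    intro A B C
    rw [sub_mul, mul_sub, Matrix.trace_sub, Matrix.trace_sub, mul_assoc A B C, mul_assoc B A C,
      Matrix.trace_mul_comm B (A * C), mul_assoc A C B]
  -- the radical
  let R : Submodule k (Matrix n n k) :=
    { carrier := {M | M ∈ L ∧ ∀ N ∈ L, Matrix.trace (M * N) = 0}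
      add_mem' := by
        rintro a b ⟨ha, ha'⟩ ⟨hb, hb'⟩
        exact ⟨L.add_mem ha hb, fun N hN => by rw [add_mul, Matrix.trace_add, ha' N hN, hb' N hN, add_zero]⟩
      zero_mem' := ⟨L.zero_mem, fun N _ => by rw [zero_mul, Matrix.trace_zero]⟩
      smul_mem' := by
        rintro c a ⟨ha, ha'⟩
        exact ⟨L.smul_mem c ha, fun N hN => by rw [smul_mul_assoc, Matrix.trace_smul, ha' N hN, smul_zero]⟩ }
  have hRL : ∀ M ∈ R, ∀ N ∈ L, M * N - N * M ∈ R := by
    rintro M ⟨hM, hM'⟩ N hN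
    refine ⟨hL M hM N hN, fun P hP => ?_⟩
    rw [hinv]
    exact hM' _ (hL N hN P hP)
  have hR1 : ∀ M ∈ R, M ∈ L := fun M hM => hM.1
  have hRz : ∀ M ∈ R, IsNilpotent M → M = 0 := fun M hM hn => hC M hM.1 hn hM.2
  -- the radical is abelian
  have hab : ∀ M ∈ R, ∀ N ∈ R, M * N - N * M = 0 := by
    intro M hM N hN
    refine hRz _ (hRL M hM N hN.1) ?_
    exact J2_cartan R (fun A hA B hB => hRL A hA B hB.1) (fun A hA B hB => hA.2 B hB.1) M hM N hN
  -- the radical is central
  have hcen : ∀ M ∈ R, ∀ N ∈ L, M * N - N * M = 0 := by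
    intro M hM N hN
    refine hRz _ (hRL M hM N hN) (comm_nilp M N ?_)
    exact sub_eq_zero.1 (hab M hM _ (hRL M hM N hN))
  -- `ad X` squared
  have hf : ∀ Y ∈ L, X * (X * Y - Y * X) - (X * Y - Y * X) * X ∈ L := fun Y hY => hL X hX _ (hL X hX Y hY)
  let f : L →ₗ[k] L :=
    { toFun := fun Y => ⟨X * (X * Y.1 - Y.1 * X) - (X * Y.1 - Y.1 * X) * X, hf Y.1 Y.2⟩
      map_add' := by
        intro a b
        apply Subtype.ext
        simp only [Submodule.coe_add]
        noncomm_ring
      map_smul' := by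
        intro c a
        apply Subtype.ext
        simp only [Submodule.coe_smul, RingHom.id_apply, Matrix.mul_smul, Matrix.smul_mul, ← smul_sub] }
  let B : L →ₗ[k] Module.Dual k L :=
    LinearMap.mk₂ k (fun a b : L => Matrix.trace (a.1 * b.1))
      (fun a b c => by simp only [Submodule.coe_add, add_mul, Matrix.trace_add])
      (fun c a b => by simp only [Submodule.coe_smul, smul_mul_assoc, Matrix.trace_smul])
      (fun a b c => by simp only [Submodule.coe_add, mul_add, Matrix.trace_add])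
      (fun c a b => by simp only [Submodule.coe_smul, mul_smul_comm, Matrix.trace_smul])
  have hBapp : ∀ a b : L, B a b = Matrix.trace (a.1 * b.1) := fun a b => rfl
  have hBs : ∀ a b, B a b = B b a := fun a b => by rw [hBapp, hBapp, Matrix.trace_mul_comm]
  have hBk : ∀ a : L, B a = 0 ↔ a.1 ∈ R := by
    intro a
    constructor
    · intro h
      exact ⟨a.2, fun N hN => by rw [← hBapp a ⟨N, hN⟩, h]; rfl⟩
    · intro h
      ext b
      rw [hBapp]
      exact h.2 _ b.2
  have hadj : ∀ a b : L, B (f a) b = B a (f b) := by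
    intro a b
    rw [hBapp, hBapp]
    change Matrix.trace ((X * (X * a.1 - a.1 * X) - (X * a.1 - a.1 * X) * X) * b.1) =
      Matrix.trace (a.1 * (X * (X * b.1 - b.1 * X) - (X * b.1 - b.1 * X) * X))
    have e1 : X * (X * a.1 - a.1 * X) - (X * a.1 - a.1 * X) * X =
        (a.1 * X - X * a.1) * X - X * (a.1 * X - X * a.1) := by noncomm_ring
    rw [e1, hinv, hinv]
  -- the duality
  have hXm : (⟨X, hX⟩ : L) ∈ LinearMap.range f ⊔ LinearMap.ker B := by
    by_contra hcon
    obtain ⟨φ, h1, h2⟩ := Submodule.exists_le_ker_of_notMem hcon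
    have hφk : ∀ a, B a = 0 → φ a = 0 := fun a ha =>
      h2 (Submodule.mem_sup_right (LinearMap.mem_ker.2 ha))
    obtain ⟨z, hz⟩ := J2_dual B hBs φ hφk
    have h3 : f z = 0 := by
      have h4 : (f z).1 ∈ R := by
        rw [← hBk]
        ext a
        rw [← hBs a (f z), ← hadj, hBs, hz]
        exact h2 (Submodule.mem_sup_left ⟨a, rfl⟩)
      have h5 : (f z).1 * X - X * (f z).1 = 0 := hcen _ h4 X hX
      have h6 : IsNilpotent (f z).1 := by
        change IsNilpotent (X * (X * z.1 - z.1 * X) - (X * z.1 - z.1 * X) * X)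
        refine comm_nilp X (X * z.1 - z.1 * X) ?_
        exact (sub_eq_zero.1 h5).symm
      exact Subtype.ext (hRz _ h4 h6)
    have h7 : X * (X * z.1 - z.1 * X) = (X * z.1 - z.1 * X) * X :=
      sub_eq_zero.1 (congrArg Subtype.val h3)
    have h8 := mul_nilp X z.1 hn h7
    have h9 : Matrix.trace (X * z.1) = 0 := (Matrix.isNilpotent_trace_of_isNilpotent h8).eq_zero
    apply h1
    rw [← hz, hBapp, Matrix.trace_mul_comm]
    exact h9
  obtain ⟨_, ⟨Y, rfl⟩, z, hz, hYz⟩ := Submodule.mem_sup.1 hXm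
  have hzR : z.1 ∈ R := (hBk z).1 (LinearMap.mem_ker.1 hz)
  have hYz' : (f Y).1 + z.1 = X := congrArg Subtype.val hYz
  have hzX : z.1 * X = X * z.1 := sub_eq_zero.1 (hcen _ hzR X hX)
  have hfe : (f Y).1 = X - z.1 := eq_sub_of_add_eq hYz'
  have hfX : X * (f Y).1 = (f Y).1 * X := by
    rw [hfe, mul_sub, sub_mul, hzX]
  have hfn : IsNilpotent (f Y).1 := comm_nilp X (X * Y.1 - Y.1 * X) hfX
  have hzn : IsNilpotent z.1 := by
    have h1 : z.1 = X - (f Y).1 := by rw [hfe]; abel
    rw [h1]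
    exact (show Commute X (f Y).1 from hfX).isNilpotent_sub hn hfn
  have hz0 : z.1 = 0 := hRz _ hzR hzn
  have hfin : X * (X * Y.1 - Y.1 * X) - (X * Y.1 - Y.1 * X) * X = X := by
    have : (f Y).1 = X := by rw [hfe, hz0, sub_zero]
    exact this
  refine ⟨-(2 : k) • Y.1, L.smul_mem _ Y.2, ?_⟩
  rw [Matrix.mul_smul, Matrix.smul_mul, ← smul_sub, Matrix.mul_smul, Matrix.smul_mul, ← smul_sub, hfin]

end Pool.Agent.H40TG
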