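import Mathlib

/-!
# Project TG, part J3 (helper67): Morozov's lemma
-/

set_option autoImplicit false

namespace Pool.Agent.H40TG

open Matrix

theorem J3.pow_h {A : Type*} [Ring A] (x h : A) (hx : h * x - x * h = 2 * x) (i : ℕ) :
    h * x ^ i = x ^ i * h + 2 * (i : A) * x ^ i := by
  induction i with
  | zero => simp
  | succ i ih =>
    have hx' : h * x = x * h + 2 * x := by rw [← hx]; abel
    have hc : (i : A) * x = x * (i : A) := (Nat.cast_commute i x).eq
    calc h * x ^ (i + 1) = (h * x ^ i) * x := by rw [pow_succ, mul_assoc]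
      _ = x ^ i * (h * x) + 2 * (i : A) * x ^ i * x := by rw [ih]; noncomm_ring
      _ = x ^ (i + 1) * h + 2 * ((i + 1 : ℕ) : A) * x ^ (i + 1) := by
        rw [hx', Nat.cast_succ, pow_succ]
        noncomm_ring

theorem J3.pow_y {A : Type*} [Ring A] (x y h : A) (hxy : x * y - y * x = h)
    (hx : h * x - x * h = 2 * x) (i : ℕ) :
    y * x ^ (i + 1) = x ^ (i + 1) * y - ((i : A) + 1) * (h * x ^ i) +
      ((i : A) + 1) * (i : A) * x ^ i := by
  have hyx : y * x = x * y - h := by rw [← hxy]; abel
  induction i with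
  | zero => simp [hyx]
  | succ i ih =>
    have hp := J3.pow_h x h hx (i + 1)
    have hp' : x ^ (i + 1) * h = h * x ^ (i + 1) - 2 * ((i : A) + 1) * x ^ (i + 1) := by
      rw [hp]
      push_cast
      abel
    calc y * x ^ (i + 1 + 1) = (y * x ^ (i + 1)) * x := by rw [pow_succ, mul_assoc]
      _ = x ^ (i + 1) * (y * x) - ((i : A) + 1) * (h * (x ^ i * x)) +
          ((i : A) + 1) * (i : A) * (x ^ i * x) := by
        rw [ih]
        noncomm_ring
      _ = x ^ (i + 1) * (x * y) - x ^ (i + 1) * h - ((i : A) + 1) * (h * x ^ (i + 1)) +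
          ((i : A) + 1) * (i : A) * x ^ (i + 1) := by
        rw [hyx, ← pow_succ]
        noncomm_ring
      _ = x ^ (i + 1 + 1) * y - (((i + 1 : ℕ) : A) + 1) * (h * x ^ (i + 1)) +
          (((i + 1 : ℕ) : A) + 1) * ((i + 1 : ℕ) : A) * x ^ (i + 1) := by
        rw [hp', pow_succ x (i + 1)]
        push_cast
        noncomm_ring

/-- **J3.** (Morozov) -/
theorem morozov {k : Type*} [Field k] [CharZero k] {n : Type*} [Fintype n] [DecidableEq n] (X Y H Z : Matrix n n k)
    (hX : IsNilpotent X) (h1 : X * Y - Y * X = H) (h2 : H * X - X * H = (2 : k) • X) (h3 : X * Z = Z * X)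
    (h4 : H * Z - Z * H = -(2 : k) • Z) : Z = 0 := by
  set x : Module.End k (Matrix n n k) := LinearMap.mulLeft k X - LinearMap.mulRight k X with hx
  set y : Module.End k (Matrix n n k) := LinearMap.mulLeft k Y - LinearMap.mulRight k Y with hy
  set h : Module.End k (Matrix n n k) := LinearMap.mulLeft k H - LinearMap.mulRight k H with hh
  have ex : ∀ M, x M = X * M - M * X := fun M => by simp [hx]
  have ey : ∀ M, y M = Y * M - M * Y := fun M => by simp [hy]
  have eh : ∀ M, h M = H * M - M * H := fun M => by simp [hh]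
  have hxn : IsNilpotent x := by
    have c1 : Commute (LinearMap.mulLeft k X) (LinearMap.mulRight k X) := by
      ext M
      simp [mul_assoc]
    refine c1.isNilpotent_sub ?_ ?_
    · exact (LinearMap.isNilpotent_mulLeft_iff k X).2 hX
    · exact (LinearMap.isNilpotent_mulRight_iff k X).2 hX
  have hxy : x * y - y * x = h := by
    refine LinearMap.ext fun M => ?_
    rw [LinearMap.sub_apply, Module.End.mul_apply, Module.End.mul_apply, ex, ey, ey, ex, eh, ← h1]
    noncomm_ring
  have hhx : h * x - x * h = 2 * x := by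
    refine LinearMap.ext fun M => ?_
    have e2 : (2 * x) M = (2 : k) • x M := by
      rw [two_mul, LinearMap.add_apply, two_smul]
    rw [e2, LinearMap.sub_apply, Module.End.mul_apply, Module.End.mul_apply, ex, ex, eh, eh]
    have e3 : (2 : k) • (X * M - M * X) = (H * X - X * H) * M - M * (H * X - X * H) := by
      rw [h2, smul_sub, smul_mul_assoc, mul_smul_comm]
    rw [e3]
    noncomm_ring
  have hxZ : x Z = 0 := by rw [ex, h3, sub_self]
  have hhZ : h Z = -(2 : k) • Z := by rw [eh, h4]
  have key : ∀ i : ℕ, ∃ N, (x ^ i) N = Z := by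
    intro i
    induction i with
    | zero => exact ⟨Z, by simp⟩
    | succ i ih =>
      obtain ⟨N, hN⟩ := ih
      have e1 : (x ^ (i + 1)) N = 0 := by
        rw [pow_succ', Module.End.mul_apply, hN, hxZ]
      have e2 := congrArg (fun F : Module.End k (Matrix n n k) => F N) (J3.pow_y x y h hxy hhx i)
      simp only [Module.End.mul_apply, LinearMap.sub_apply, LinearMap.add_apply, e1, hN, hhZ,
        map_zero] at e2
      have hc : ∀ (j : ℕ) (M : Matrix n n k), ((j : Module.End k (Matrix n n k))) M = (j : k) • M := by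
        intro j M
        rw [Module.End.natCast_apply, Nat.cast_smul_eq_nsmul]
      simp only [hc, Module.End.one_apply] at e2
      have e3 : (x ^ (i + 1)) (y N) = -(((i : k) + 1) * ((i : k) + 2)) • Z := by
        have e4 : (x ^ (i + 1)) (y N) = (((i : k) • (-(2 : k) • Z)) + (-(2 : k) • Z)) -
            ((i : k) • ((i : k) • Z) + (i : k) • Z) := by
          have := e2
          rw [eq_comm, sub_add, sub_eq_zero] at this
          exact this
        rw [e4]
        module
      have hne : (((i : k) + 1) * ((i : k) + 2)) ≠ 0 := by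
        have h5 : ((i : k) + 1) ≠ 0 := by exact_mod_cast Nat.succ_ne_zero i
        have h6 : ((i : k) + 2) ≠ 0 := by exact_mod_cast Nat.succ_ne_zero (i + 1)
        exact mul_ne_zero h5 h6
      refine ⟨-(((i : k) + 1) * ((i : k) + 2))⁻¹ • y N, ?_⟩
      rw [map_smul, e3, smul_smul, neg_mul_neg, inv_mul_cancel₀ hne, one_smul]
  obtain ⟨K, hK⟩ := hxn
  obtain ⟨N, hN⟩ := key K
  rw [← hN, hK, LinearMap.zero_apply]

end Pool.Agent.H40TG
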