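import Pool.Agent.H40TG.J4a
import Pool.Agent.H40TG.J2
import Pool.Agent.H40TG.J3

/-!
# Project TG, stub J4: graded Jacobson-Morozov
-/

set_option autoImplicit false

namespace Pool.Agent.H40TG

open Matrix Pool.Agent.H40ZL

/-- **J4.** Jacobson-Morozov, graded. -/
theorem triple {k : Type*} [Field k] [IsAlgClosed k] [CharZero k] {n : Type*} [Fintype n] [DecidableEq n]
    (A : Set (Matrix n n k)) (L : Submodule k (Matrix n n k)) (h : Setup A L) (g : Matrix n n k) (hg : g ∈ A)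
    (hgs : Module.End.IsSemisimple (Matrix.toLin' g)) (X : Matrix n n k) (hX : X ∈ L) (hn : IsNilpotent X)
    (c : k) (hc : c ≠ 0) (hgX : g * X = c • (X * g)) :
    ∃ H ∈ L, ∃ Y ∈ L, g * H = H * g ∧ g * Y = c⁻¹ • (Y * g) ∧ X * Y - Y * X = H ∧ H * X - X * H = (2 : k) • X ∧
      H * Y - Y * H = -(2 : k) • Y :=
  triple_of (fun L hL hC X hX hn => exists_ad L hL hC X hX hn)
    (fun X Y H Z hX h1 h2 h3 h4 => morozov X Y H Z hX h1 h2 h3 h4) A L h g hg hgs X hX hn c hc hgX

end Pool.Agent.H40TG
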