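import Mathlib
import Pool.Agent.H40TG.Defs

/-!
# Stub M1: an element of `L` which detects the vectors killed by `L`
-/

set_option autoImplicit false

namespace Pool.Agent.H40TG

open Matrix Pool.Agent.H40ZL

section

variable {k : Type*} [Field k] {n : Type*} [Fintype n] [DecidableEq n]

/-- `M ↦ g M q` -/
noncomputable def m1c (g q : Matrix n n k) : Module.End k (Matrix n n k) :=
  LinearMap.mulLeft k g * LinearMap.mulRight k q

theorem m1c_apply (g q M : Matrix n n k) : m1c g q M = g * (M * q) := rfl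

theorem m1_ss_inv {V : Type*} [AddCommGroup V] [Module k V] [FiniteDimensional k V] {f f' : Module.End k V}
    (h : f * f' = 1) (hf : f.IsSemisimple) : f'.IsSemisimple := by
  have h' : f' * f = 1 := mul_eq_one_comm.1 h
  have key : ∀ a b : Module.End k V, a * b = 1 → b * a = 1 → ∀ p : Submodule k V, p ∈ a.invtSubmodule →
      p ∈ b.invtSubmodule := by
    intro a b hab hba p hp
    rw [Module.End.mem_invtSubmodule] at hp ⊢
    have hinj : Function.Injective a := by
      intro x y hxy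
      have h1 : b (a x) = b (a y) := by rw [hxy]
      rwa [← Module.End.mul_apply, ← Module.End.mul_apply, hba] at h1
    have hle : p.map a ≤ p := Submodule.map_le_iff_le_comap.2 hp
    have heq : p.map a = p := by
      apply Submodule.eq_of_le_of_finrank_eq hle
      exact (Submodule.equivMapOfInjective a hinj p).finrank_eq.symm
    intro x hx
    rw [← heq] at hx
    obtain ⟨y, hy, rfl⟩ := hx
    rw [Submodule.mem_comap, ← Module.End.mul_apply, hba]
    exact hy
  rw [Module.End.isSemisimple_iff] at hf ⊢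
  intro p hp
  obtain ⟨q, hq, hpq⟩ := hf p (key f' f h' h p hp)
  exact ⟨q, key f f' h h' q hq, hpq⟩

theorem m1_ss_left (g : Matrix n n k) (hgs : Module.End.IsSemisimple (Matrix.toLin' g)) :
    Module.End.IsSemisimple (LinearMap.mulLeft k g) := by
  have hsq : Squarefree (minpoly k g) := by
    rw [← Matrix.minpoly_toLin']
    exact hgs.minpoly_squarefree
  refine Module.End.isSemisimple_of_squarefree_aeval_eq_zero hsq ?_
  have h1 : Polynomial.aeval (Algebra.lmul k (Matrix n n k) g) (minpoly k g) =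
      Algebra.lmul k (Matrix n n k) (Polynomial.aeval g (minpoly k g)) :=
    Polynomial.aeval_algHom_apply _ _ _
  rw [minpoly.aeval, map_zero] at h1
  exact h1

theorem m1_ss_right (g : Matrix n n k) (hgs : Module.End.IsSemisimple (Matrix.toLin' g)) :
    Module.End.IsSemisimple (LinearMap.mulRight k g) := by
  have hsq : Squarefree (minpoly k g) := by
    rw [← Matrix.minpoly_toLin']
    exact hgs.minpoly_squarefree
  refine Module.End.isSemisimple_of_squarefree_aeval_eq_zero hsq ?_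
  have h1 : ∀ p : Polynomial k, ∀ M : Matrix n n k,
      Polynomial.aeval (LinearMap.mulRight k g) p M = M * Polynomial.aeval g p := by
    intro p M
    rw [Polynomial.aeval_eq_sum_range, Polynomial.aeval_eq_sum_range, LinearMap.sum_apply, Finset.mul_sum]
    refine Finset.sum_congr rfl fun i _ => ?_
    rw [LinearMap.smul_apply, LinearMap.pow_mulRight, LinearMap.mulRight_apply, mul_smul_comm]
  ext M : 1
  rw [h1, minpoly.aeval, mul_zero]
  rfl

theorem m1c_ss [PerfectField k] {g q : Matrix n n k} (hgq : g * q = 1)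
    (hgs : Module.End.IsSemisimple (Matrix.toLin' g)) : Module.End.IsSemisimple (m1c g q) := by
  have hR : Module.End.IsSemisimple (LinearMap.mulRight k q) := by
    refine m1_ss_inv (f := LinearMap.mulRight k g) ?_ (m1_ss_right g hgs)
    ext M : 1
    rw [Module.End.mul_apply, LinearMap.mulRight_apply, LinearMap.mulRight_apply, mul_assoc,
      mul_eq_one_comm.1 hgq, mul_one]
    rfl
  refine Module.End.IsSemisimple.mul_of_commute ?_ (m1_ss_left g hgs) hR
  ext M : 1
  rw [Module.End.mul_apply, Module.End.mul_apply, LinearMap.mulRight_apply, LinearMap.mulRight_apply,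
    LinearMap.mulLeft_apply, LinearMap.mulLeft_apply, mul_assoc]

theorem m1c_mem {g q : Matrix n n k} (hgq : g * q = 1) (c : k) (M : Matrix n n k) :
    M ∈ (m1c g q).eigenspace c ↔ g * M = c • (M * g) := by
  have hqg : q * g = 1 := mul_eq_one_comm.1 hgq
  rw [Module.End.mem_eigenspace_iff, m1c_apply]
  constructor
  · intro h
    have h1 : g * (M * q) * g = c • M * g := by rw [h]
    rw [mul_assoc, mul_assoc, hqg, mul_one, smul_mul_assoc] at h1
    exact h1
  · intro h
    rw [← mul_assoc, h, smul_mul_assoc, mul_assoc, hgq, mul_one]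

theorem m1_decomp [IsAlgClosed k] {g q : Matrix n n k} (hgq : g * q = 1)
    (hgs : Module.End.IsSemisimple (Matrix.toLin' g)) (L : Submodule k (Matrix n n k))
    (hL : ∀ X ∈ L, g * X * q ∈ L) (K : Submodule k (Matrix n n k))
    (hK : ∀ c : k, ∀ M ∈ L, g * M = c • (M * g) → M ∈ K) : L ≤ K := by
  have h1 : L = ⨆ c, L ⊓ (m1c g q).genEigenspace c 1 := by
    refine Submodule.eq_iSup_inf_genEigenspace 1 ?_ ?_
    · intro X hX
      rw [m1c_apply, ← mul_assoc]
      exact hL X hX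
    · exact (m1c_ss hgq hgs).iSup_eigenspace_eq_top
  rw [h1]
  refine iSup_le fun c M hM => ?_
  exact hK c M hM.1 ((m1c_mem hgq c M).1 hM.2)

/-- the powers of an eigenvector of the conjugation -/
theorem m1_pow {g X : Matrix n n k} {c : k} (h : g * X = c • (X * g)) (i : ℕ) :
    g * X ^ i = c ^ i • (X ^ i * g) := by
  induction i with
  | zero => simp
  | succ i ih =>
    rw [pow_succ, ← mul_assoc, ih, smul_mul_assoc, mul_assoc, h, mul_smul_comm, smul_smul, pow_succ, ← mul_assoc]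

theorem m1_nilp {g q X : Matrix n n k} (hgq : g * q = 1) {c : k} (h : g * X = c • (X * g))
    (hroot : ∀ d : ℕ, 0 < d → c ^ d ≠ 1) (hc : c ≠ 0) : IsNilpotent X := by
  by_contra hn
  have h0 : ∀ i : ℕ, X ^ i ≠ 0 := fun i hi => hn ⟨i, hi⟩
  have hinj : Function.Injective fun i : ℕ => c ^ i := by
    intro i j hij
    simp only at hij
    wlog hle : i ≤ j generalizing i j
    · exact (this hij.symm (le_of_not_ge hle)).symm
    obtain ⟨d, rfl⟩ := Nat.exists_eq_add_of_le hle
    rcases Nat.eq_zero_or_pos d with rfl | hd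
    · rfl
    · exfalso
      rw [pow_add] at hij
      have : c ^ d = 1 := by
        have h2 : c ^ i ≠ 0 := pow_ne_zero i hc
        have h3 : c ^ i * c ^ d = c ^ i * 1 := by rw [mul_one]; exact hij.symm
        exact mul_left_cancel₀ h2 h3
      exact hroot d hd this
  have hinf : {μ | (m1c g q).HasEigenvalue μ}.Infinite := by
    refine Set.infinite_of_injective_forall_mem hinj fun i => ?_
    exact Module.End.hasEigenvalue_of_hasEigenvector
      (x := X ^ i) ⟨(m1c_mem hgq _ _).2 (m1_pow h i), h0 i⟩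
  exact hinf (Module.End.finite_hasEigenvalue _)

/-- **M1**, from T2, J4 and S1 for the given data. -/
theorem main_vec_of [IsAlgClosed k] [CharZero k]
    (A : Set (Matrix n n k)) (L : Submodule k (Matrix n n k)) (h : Setup A L) (g : Matrix n n k) (hg : g ∈ A)
    (hgs : Module.End.IsSemisimple (Matrix.toLin' g)) (hS : ∀ X ∈ L, Single g X)
    (hroot : ∀ (c : k) (d : ℕ) (M : Matrix n n k), 0 < d → c ^ d = 1 → M ≠ 0 → g * M = c • (M * g) → c = 1)
    (torus : ∀ T ∈ L, g * T = T * g → ∀ (μ : k) (v : n → k), g *ᵥ v = μ • v → ∃ β : k, T *ᵥ v = β • v)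
    (triple : ∀ X ∈ L, IsNilpotent X → ∀ c : k, c ≠ 0 → g * X = c • (X * g) →
      ∃ H ∈ L, ∃ Y ∈ L, g * H = H * g ∧ g * Y = c⁻¹ • (Y * g) ∧ X * Y - Y * X = H ∧
        H * X - X * H = (2 : k) • X ∧ H * Y - Y * H = -(2 : k) • Y)
    (sl2 : ∀ X Y H : Matrix n n k, X * Y - Y * X = H → H * X - X * H = (2 : k) • X →
      H * Y - Y * H = -(2 : k) • Y → ∀ w : n → k, (X *ᵥ w = 0 → H *ᵥ w = 0 → Y *ᵥ w = 0) ∧
        (Y *ᵥ w = 0 → H *ᵥ w = (2 : k) • w → w = 0)) :
    ∃ X ∈ L, ∀ w : n → k, g *ᵥ w = w → g *ᵥ (X *ᵥ w) = X *ᵥ w → ∀ Z ∈ L, Z *ᵥ w = 0 := by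
  classical
  obtain ⟨q, hq, hgq⟩ := h.inv g hg
  have hqg : q * g = 1 := mul_eq_one_comm.1 hgq
  have hkill : ∀ T ∈ L, g * T = T * g → ∀ w : n → k, g *ᵥ w = w → T *ᵥ w = 0 := by
    intro T hT hc w hw
    by_cases hw0 : w = 0
    · rw [hw0, mulVec_zero]
    obtain ⟨β, hβ⟩ := torus T hT hc 1 w (by rw [one_smul]; exact hw)
    have h1 : Joint g T 1 β 0 w 0 :=
      ⟨Or.inr (Or.inl hw0), by simp, by rw [one_smul]; exact hw, by simp, by simp, hβ, by simp⟩
    have h2 : Joint g T 1 0 1 0 0 :=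
      ⟨Or.inl one_ne_zero, by simp, by simp, by simp, by simp, by simp, by simp⟩
    have h3 := hS T hT 1 β 0 0 1 w 0 0 0 h1 h2
    rw [hβ, h3, zero_smul]
  have hcne : ∀ (c : k) (M : Matrix n n k), M ≠ 0 → g * M = c • (M * g) → c ≠ 0 := by
    rintro c M hM hgM rfl
    apply hM
    rw [zero_smul] at hgM
    calc M = q * (g * M) := by rw [← mul_assoc, hqg, one_mul]
      _ = 0 := by rw [hgM, mul_zero]
  have hfin : {c : k | c ≠ 1 ∧ ∃ Z ∈ L, Z ≠ 0 ∧ g * Z = c • (Z * g)}.Finite := by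
    refine (Module.End.finite_hasEigenvalue (m1c g q)).subset ?_
    rintro c ⟨-, Z, -, hZ0, hZ⟩
    exact Module.End.hasEigenvalue_of_hasEigenvector (x := Z) ⟨(m1c_mem hgq _ _).2 hZ, hZ0⟩
  have hch : ∀ c : k, ∃ Z ∈ L, g * Z = c • (Z * g) ∧
      ((∃ Z ∈ L, Z ≠ 0 ∧ g * Z = c • (Z * g)) → Z ≠ 0) := by
    intro c
    by_cases hc : ∃ Z ∈ L, Z ≠ 0 ∧ g * Z = c • (Z * g)
    · obtain ⟨Z, hZ, hZ0, hZg⟩ := hc
      exact ⟨Z, hZ, hZg, fun _ => hZ0⟩
    · exact ⟨0, L.zero_mem, by simp, fun h => absurd h hc⟩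
  choose x hxL hxg hx0 using hch
  refine ⟨∑ c ∈ hfin.toFinset, x c, Submodule.sum_mem _ fun c _ => hxL c, fun w hw hXw => ?_⟩
  have hind := (iSupIndep_iff_finsetSum_eq_zero_imp_eq_zero _).1
    (Module.End.eigenspaces_iSupIndep (Matrix.toLin' g))
  have hxw : ∀ c ∈ hfin.toFinset, x c *ᵥ w = 0 := by
    intro c hc
    have h1 : ∀ c, g *ᵥ (x c *ᵥ w) = c • (x c *ᵥ w) := by
      intro c
      rw [mulVec_mulVec, hxg, smul_mulVec, ← mulVec_mulVec, hw]
    have h2 := hind hfin.toFinset (fun c => (c - 1) • (x c *ᵥ w)) (fun c _ => by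
      rw [Module.End.mem_eigenspace_iff, Matrix.toLin'_apply, mulVec_smul, h1, smul_comm]) (by
      have h3 : ∑ c ∈ hfin.toFinset, (c - 1) • (x c *ᵥ w) =
          g *ᵥ ((∑ c ∈ hfin.toFinset, x c) *ᵥ w) - (∑ c ∈ hfin.toFinset, x c) *ᵥ w := by
        rw [sum_mulVec, mulVec_sum, ← Finset.sum_sub_distrib]
        refine Finset.sum_congr rfl fun c _ => ?_
        rw [h1, sub_smul, one_smul]
      rw [h3, hXw, sub_self]) c hc
    have hc1 : c - 1 ≠ 0 := sub_ne_zero.2 ((hfin.mem_toFinset.1 hc).1)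
    exact (smul_eq_zero.1 h2).resolve_left hc1
  let K : Submodule k (Matrix n n k) :=
    { carrier := {Z | Z *ᵥ w = 0}
      add_mem' := fun {a b} (ha : a *ᵥ w = 0) (hb : b *ᵥ w = 0) => by
        change (a + b) *ᵥ w = 0
        rw [add_mulVec, ha, hb, add_zero]
      zero_mem' := zero_mulVec w
      smul_mem' := fun c a (ha : a *ᵥ w = 0) => by
        change (c • a) *ᵥ w = 0
        rw [smul_mulVec, ha, smul_zero] }
  have hLK : L ≤ K := by
    refine m1_decomp hgq hgs L (fun X hX => h.conj g hg q hq hgq X hX) K fun c Z hZ hZg => ?_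
    change Z *ᵥ w = 0
    by_cases hc1 : c = 1
    · subst hc1
      rw [one_smul] at hZg
      exact hkill Z hZ hZg w hw
    by_cases hZ0 : Z = 0
    · rw [hZ0, zero_mulVec]
    have hcΛ : c ∈ hfin.toFinset := hfin.mem_toFinset.2 ⟨hc1, Z, hZ, hZ0, hZg⟩
    have hxc0 : x c ≠ 0 := hx0 c ⟨Z, hZ, hZ0, hZg⟩
    have hc0 : c ≠ 0 := hcne c Z hZ0 hZg
    have hnil : IsNilpotent (x c) :=
      m1_nilp hgq (hxg c) (fun d hd hcd => hc1 (hroot c d (x c) hd hcd hxc0 (hxg c))) hc0
    obtain ⟨H, hH, Y, hY, hgH, hgY, e1, e2, e3⟩ := triple (x c) (hxL c) hnil c hc0 (hxg c)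
    have hHw : H *ᵥ w = 0 := hkill H hH hgH w hw
    have hYw : Y *ᵥ w = 0 := (sl2 _ _ _ e1 e2 e3 w).1 (hxw c hcΛ) hHw
    by_contra hu
    have hgu : g *ᵥ (Z *ᵥ w) = c • (Z *ᵥ w) := by
      rw [mulVec_mulVec, hZg, smul_mulVec, ← mulVec_mulVec, hw]
    obtain ⟨β, hβ⟩ := torus H hH hgH c _ hgu
    obtain ⟨φ, hφ0, hφ⟩ : ∃ φ : n → k, φ ≠ 0 ∧ φ ᵥ* (g - 1) = 0 := by
      have hw0 : w ≠ 0 := by
        rintro rfl
        exact hu (mulVec_zero _)
      have hdet : (g - 1).det = 0 :=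
        Matrix.exists_mulVec_eq_zero_iff.1 ⟨w, hw0, by rw [sub_mulVec, hw, one_mulVec, sub_self]⟩
      exact Matrix.exists_vecMul_eq_zero_iff.2 hdet
    have hφg : φ ᵥ* g = φ := by
      rw [vecMul_sub, vecMul_one, sub_eq_zero] at hφ
      exact hφ
    have hφH : φ ᵥ* H = 0 := by
      let N : Submodule k (n → k) :=
        { carrier := {v | φ ⬝ᵥ (H *ᵥ v) = 0}
          add_mem' := fun {a b} (ha : φ ⬝ᵥ (H *ᵥ a) = 0) (hb : φ ⬝ᵥ (H *ᵥ b) = 0) => by
            change φ ⬝ᵥ (H *ᵥ (a + b)) = 0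
            rw [mulVec_add, dotProduct_add, ha, hb, add_zero]
          zero_mem' := by
            change φ ⬝ᵥ (H *ᵥ 0) = 0
            rw [mulVec_zero, dotProduct_zero]
          smul_mem' := fun c a (ha : φ ⬝ᵥ (H *ᵥ a) = 0) => by
            change φ ⬝ᵥ (H *ᵥ (c • a)) = 0
            rw [mulVec_smul, dotProduct_smul, ha, smul_zero] }
      have hN : (⊤ : Submodule k (n → k)) ≤ N := by
        rw [← hgs.iSup_eigenspace_eq_top]
        refine iSup_le fun μ v hv => ?_
        rw [Module.End.mem_eigenspace_iff, Matrix.toLin'_apply] at hv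
        change φ ⬝ᵥ (H *ᵥ v) = 0
        by_cases hμ : μ = 1
        · rw [hkill H hH hgH v (by rw [hv, hμ, one_smul]), dotProduct_zero]
        · obtain ⟨β', hβ'⟩ := torus H hH hgH μ v hv
          have h4 : φ ⬝ᵥ v = μ * (φ ⬝ᵥ v) := by
            calc φ ⬝ᵥ v = (φ ᵥ* g) ⬝ᵥ v := by rw [hφg]
              _ = φ ⬝ᵥ (g *ᵥ v) := (dotProduct_mulVec _ _ _).symm
              _ = μ * (φ ⬝ᵥ v) := by rw [hv, dotProduct_smul, smul_eq_mul]
          have h5 : (μ - 1) * (φ ⬝ᵥ v) = 0 := by linear_combination -h4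
          have h6 : φ ⬝ᵥ v = 0 := (mul_eq_zero.1 h5).resolve_left (sub_ne_zero.2 hμ)
          rw [hβ', dotProduct_smul, h6, smul_zero]
      funext i
      have h7 : Pi.single i (1 : k) ∈ N := hN trivial
      have h8 : φ ⬝ᵥ (H *ᵥ Pi.single i (1 : k)) = 0 := h7
      rw [dotProduct_mulVec, dotProduct_single_one] at h8
      exact h8
    have hM0 : vecMulVec (Z *ᵥ w) φ ≠ 0 := by
      intro h0
      obtain ⟨i, hi⟩ := Function.ne_iff.1 hu
      obtain ⟨j, hj⟩ := Function.ne_iff.1 hφ0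
      have := congrFun (congrFun h0 i) j
      rw [vecMulVec_apply] at this
      exact mul_ne_zero hi hj this
    have hj1 : Joint g H c β 0 0 (vecMulVec (Z *ᵥ w) φ) := by
      refine ⟨Or.inr (Or.inr hM0), by simp, by simp, ?_, by simp, by simp, ?_⟩
      · rw [mul_vecMulVec, vecMulVec_mul, hgu, hφg, smul_vecMulVec]
      · rw [mul_vecMulVec, vecMulVec_mul, hφH, hβ, smul_vecMulVec, vecMulVec_zero, sub_zero]
    have hj2 : Joint g H c 2 0 0 (x c) :=
      ⟨Or.inr (Or.inr hxc0), by simp, by simp, hxg c, by simp, by simp, e2⟩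
    have hβ2 : β = 2 := hS H hH c β 2 0 0 0 0 _ _ hj1 hj2
    refine hu ((sl2 _ _ _ e1 e2 e3 (Z *ᵥ w)).2 ?_ (by rw [hβ, hβ2]))
    have h9 : (Y * Z - Z * Y) *ᵥ w = 0 := by
      refine hkill _ (h.lie Y hY Z hZ) ?_ w hw
      have a1 : g * (Y * Z) = Y * Z * g := by
        rw [← mul_assoc, hgY, smul_mul_assoc, mul_assoc, hZg, mul_smul_comm, smul_smul, inv_mul_cancel₀ hc0,
          one_smul, mul_assoc]
      have a2 : g * (Z * Y) = Z * Y * g := by
        rw [← mul_assoc, hZg, smul_mul_assoc, mul_assoc, hgY, mul_smul_comm, smul_smul, mul_inv_cancel₀ hc0,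
          one_smul, mul_assoc]
      rw [mul_sub, sub_mul, a1, a2]
    rw [sub_mulVec, ← mulVec_mulVec, ← mulVec_mulVec, hYw, mulVec_zero, sub_zero] at h9
    exact h9
  intro Z hZ
  exact hLK hZ

end

end Pool.Agent.H40TG
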