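import Pool.Agent.H40TG.N1a
import Pool.Agent.H40TG.E1

/-!
# Project TG, stub N1 (helper63): elements with the maximal number of distinct eigenvalues
-/

set_option autoImplicit false

namespace Pool.Agent.H40TG

open Matrix Pool.Agent.H40ZL

namespace N1

variable {k : Type*} [Field k] {n : Type*} [Fintype n] [DecidableEq n]

lemma nilp_pow (A : Matrix n n k) (h : IsNilpotent A) : A ^ Fintype.card n = 0 := by
  have h1 := (Matrix.isNilpotent_charpoly_sub_pow_of_isNilpotent h).eq_zero
  have h2 := Matrix.aeval_self_charpoly A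
  rw [sub_eq_zero.mp h1] at h2
  simpa using h2

/-- the matrix `g exp (s X)` -/
noncomputable def xs (g X : Matrix n n k) : Matrix n n (PowerSeries k) := g.map (algebraMap k (PowerSeries k)) * expM X

lemma xs_const (g X : Matrix n n k) : (xs g X).map (PowerSeries.constantCoeff (R := k)) = g := by
  have h1 : (xs g X).map (PowerSeries.constantCoeff (R := k)) =
      (g.map (algebraMap k (PowerSeries k))).map (PowerSeries.constantCoeff (R := k)) *
        (expM X).map (PowerSeries.constantCoeff (R := k)) := by
    unfold xs
    exact map_mul (PowerSeries.constantCoeff (R := k)).mapMatrix _ _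
  rw [h1, expM_const, mul_one]
  ext i j
  simp

/-- the joint eigenvectors are eigenvectors of `psi (x (s))` -/
lemma eigen [CharZero k] {g X : Matrix n n k} {μ β a : k} {v : n → k} {M : Matrix n n k} (h : Joint g X μ β a v M) :
    psi (xs g X) *ᵥ vec3 (PowerSeries.C a) (fun i => PowerSeries.C (v i)) (M.map (PowerSeries.C (R := k))) =
      ((xs g X).det * (PowerSeries.C μ * ex β)) •
        vec3 (PowerSeries.C a) (fun i => PowerSeries.C (v i)) (M.map (PowerSeries.C (R := k))) := by
  obtain ⟨_, ha, hv, hM, hβa, hXv, hXM⟩ := h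
  have hgC : g.map (algebraMap k (PowerSeries k)) = g.map (PowerSeries.C (R := k)) := rfl
  rw [psi_mulVec]
  -- first component
  have c1 : (xs g X).det * PowerSeries.C a = (xs g X).det * (PowerSeries.C μ * ex β) * PowerSeries.C a := by
    rcases eq_or_ne a 0 with h0 | h0
    · rw [h0, map_zero, mul_zero, mul_zero]
    · have h1 : β = 0 := (mul_eq_zero.mp hβa).resolve_right h0
      have h2 : μ = 1 := by
        have h3 : (μ - 1) * a = 0 := by linear_combination -ha
        have := (mul_eq_zero.mp h3).resolve_right h0
        linear_combination this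
      rw [h1, h2, ex_zero, map_one, mul_one, mul_one]
  -- second component
  have c2 : xs g X *ᵥ (fun i => PowerSeries.C (v i)) =
      (PowerSeries.C μ * ex β) • (fun i => PowerSeries.C (v i)) := by
    unfold xs
    rw [← Matrix.mulVec_mulVec, expM_mulVec X v β hXv, Matrix.mulVec_smul, hgC]
    have h1 : g.map (PowerSeries.C (R := k)) *ᵥ (fun i => PowerSeries.C (v i)) =
        PowerSeries.C μ • (fun i => PowerSeries.C (v i)) := by
      ext1 i
      have h2 := congrFun hv i
      simp only [Matrix.mulVec, dotProduct, Pi.smul_apply, smul_eq_mul] at h2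
      simp only [Matrix.mulVec, dotProduct, Pi.smul_apply, smul_eq_mul, Matrix.map_apply]
      rw [← map_mul, ← h2, map_sum]
      exact Finset.sum_congr rfl fun j _ => by rw [map_mul]
    rw [h1, smul_smul, mul_comm]
  -- third component
  have c3 : xs g X * M.map (PowerSeries.C (R := k)) * (xs g X).adjugate =
      ((xs g X).det * (PowerSeries.C μ * ex β)) • M.map (PowerSeries.C (R := k)) := by
    have h1 : xs g X * M.map (PowerSeries.C (R := k)) =
        (PowerSeries.C μ * ex β) • (M.map (PowerSeries.C (R := k)) * xs g X) := by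
      have h2 : g.map (PowerSeries.C (R := k)) * M.map (PowerSeries.C (R := k)) =
          PowerSeries.C μ • (M.map (PowerSeries.C (R := k)) * g.map (PowerSeries.C (R := k))) := by
        have h3 := congrArg (fun N : Matrix n n k => N.map (PowerSeries.C (R := k))) hM
        have h4 : (g * M).map (PowerSeries.C (R := k)) =
            g.map (PowerSeries.C (R := k)) * M.map (PowerSeries.C (R := k)) :=
          map_mul (PowerSeries.C (R := k)).mapMatrix g M
        have h5 : (M * g).map (PowerSeries.C (R := k)) =
            M.map (PowerSeries.C (R := k)) * g.map (PowerSeries.C (R := k)) :=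
          map_mul (PowerSeries.C (R := k)).mapMatrix M g
        have h6 : (μ • (M * g)).map (PowerSeries.C (R := k)) =
            PowerSeries.C μ • (M * g).map (PowerSeries.C (R := k)) := by
          ext1 i j
          rw [Matrix.map_apply, Matrix.smul_apply, Matrix.smul_apply, Matrix.map_apply, smul_eq_mul, smul_eq_mul,
            map_mul]
        rw [← h4, h3, h6, h5]
      unfold xs
      rw [hgC, mul_assoc, expM_mul X M β hXM, Matrix.mul_smul, ← mul_assoc, h2, Matrix.smul_mul, smul_smul,
        mul_assoc, mul_comm (ex β)]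
    rw [h1, Matrix.smul_mul, mul_assoc, Matrix.mul_adjugate, Matrix.mul_smul, mul_one, smul_smul]
    rw [mul_comm ((xs g X).det)]
  rw [c2, c3]
  unfold vec3
  ext1 i
  rcases i with i | i | i
  · simpa using c1
  · simp [mul_assoc]
  · simp

/-- the key identity: the Hankel polynomial at its matrix is nilpotent over the power series -/
lemma hank_zero [CharZero k] [IsAlgClosed k] (S : Set (Matrix n n k)) (g : Matrix n n k)
    (hmax : ∀ x ∈ S, nd k (psi x) ≤ nd k (psi g)) (X : Matrix n n k)
    (hE : ∀ P : MvPolynomial (n × n) k, (∀ x ∈ S, evm x P = 0) →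
      MvPolynomial.aeval (fun q : n × n => (g.map (algebraMap k (PowerSeries k)) * expM X) q.1 q.2) P = 0) :
    (Polynomial.aeval (psi (xs g X)) (hank (nd k (psi g)) (psi (xs g X)))) ^
      Fintype.card (Unit ⊕ (n ⊕ n × n)) = 0 := by
  set m := nd k (psi g) with hm
  set N := Fintype.card (Unit ⊕ (n ⊕ n × n)) with hN
  set G : Matrix n n (MvPolynomial (n × n) k) := Matrix.of fun i j => MvPolynomial.X (i, j) with hG
  -- transport along a ring homomorphism
  have htr : ∀ {T : Type _} [CommRing T] (f : MvPolynomial (n × n) k →+* T),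
      ((Polynomial.aeval (psi G) (hank m (psi G))) ^ N).map f =
        (Polynomial.aeval (psi (G.map f)) (hank m (psi (G.map f)))) ^ N := by
    intro T _ f
    have h1 : ((Polynomial.aeval (psi G) (hank m (psi G))) ^ N).map f =
        ((Polynomial.aeval (psi G) (hank m (psi G))).map f) ^ N :=
      map_pow f.mapMatrix _ N
    rw [h1, map_aeval, hank_map, map_psi]
  have h0 : ∀ i j, ∀ x ∈ S, evm x (((Polynomial.aeval (psi G) (hank m (psi G))) ^ N) i j) = 0 := by
    intro i j x hx
    have h1 := htr (evm x : MvPolynomial (n × n) k →ₐ[k] k).toRingHom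
    have h2 : G.map (evm x : MvPolynomial (n × n) k →ₐ[k] k).toRingHom = x := by
      ext i j
      rw [Matrix.map_apply, hG, Matrix.of_apply]
      show evm x (MvPolynomial.X (i, j)) = x i j
      rw [evm, MvPolynomial.aeval_X]
    rw [h2] at h1
    have h3 := nilp_pow _ (hank_nilp (G := k) (psi x) m (hmax x hx))
    rw [← hN] at h3
    rw [h3] at h1
    have h4 := congrFun (congrFun h1 i) j
    rw [Matrix.map_apply] at h4
    exact h4
  have h1 : ((Polynomial.aeval (psi G) (hank m (psi G))) ^ N).map
      (MvPolynomial.aeval (fun q : n × n => (g.map (algebraMap k (PowerSeries k)) * expM X) q.1 q.2) :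
        MvPolynomial (n × n) k →ₐ[k] PowerSeries k).toRingHom = 0 := by
    ext1 i j
    rw [Matrix.map_apply]
    exact hE _ (h0 i j)
  rw [htr] at h1
  have h2 : G.map (MvPolynomial.aeval (fun q : n × n => (g.map (algebraMap k (PowerSeries k)) * expM X) q.1 q.2) :
        MvPolynomial (n × n) k →ₐ[k] PowerSeries k).toRingHom = xs g X := by
    ext1 i j
    rw [Matrix.map_apply, hG, Matrix.of_apply]
    show MvPolynomial.aeval (fun q : n × n => (g.map (algebraMap k (PowerSeries k)) * expM X) q.1 q.2)
      (MvPolynomial.X (i, j)) = xs g X i j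
    rw [MvPolynomial.aeval_X]
    rfl
  rw [h2] at h1
  exact h1

theorem main [CharZero k] [IsAlgClosed k] (S : Set (Matrix n n k)) (g : Matrix n n k) (hu : IsUnit g)
    (hmax : ∀ x ∈ S, nd k (psi x) ≤ nd k (psi g)) (X : Matrix n n k)
    (hE : ∀ P : MvPolynomial (n × n) k, (∀ x ∈ S, evm x P = 0) →
      MvPolynomial.aeval (fun q : n × n => (g.map (algebraMap k (PowerSeries k)) * expM X) q.1 q.2) P = 0) :
    Single g X := by
  intro μ β β' a a' v v' M M' hJ hJ'
  have hdet : g.det ≠ 0 := by
    intro h
    have := (Matrix.isUnit_iff_isUnit_det g).mp hu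
    rw [h] at this
    exact not_isUnit_zero this
  have hcd : PowerSeries.constantCoeff (xs g X).det = g.det := by
    rw [RingHom.map_det, RingHom.mapMatrix_apply, xs_const]
  have hD : (xs g X).det ≠ 0 := by
    intro h
    rw [h, map_zero] at hcd
    exact hdet hcd.symm
  set m := nd k (psi g) with hm
  set h : Polynomial (PowerSeries k) := hank m (psi (xs g X)) with hh
  have hz := hank_zero S g hmax X hE
  rw [← hm, ← hh] at hz
  -- the roots
  have hroot : ∀ (β a : k) (v : n → k) (M : Matrix n n k), Joint g X μ β a v M →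
      h.eval ((xs g X).det * (PowerSeries.C μ * ex β)) = 0 := by
    intro β a v M hJ
    have h1 := eigen hJ
    have h2 := aeval_mulVec _ _ _ h1 h
    have h3 := pow_mulVec _ _ _ h2 (Fintype.card (Unit ⊕ (n ⊕ n × n)))
    rw [hz, Matrix.zero_mulVec] at h3
    -- the vector is not zero
    obtain ⟨i, hi⟩ : ∃ i, vec3 (PowerSeries.C a) (fun i => PowerSeries.C (v i)) (M.map (PowerSeries.C (R := k))) i ≠
        0 := by
      rcases hJ.1 with h0 | h0 | h0
      · refine ⟨Sum.inl (), ?_⟩
        show PowerSeries.C a ≠ 0
        intro h4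
        exact h0 (by simpa using h4)
      · obtain ⟨i, hi⟩ := Function.ne_iff.mp h0
        refine ⟨Sum.inr (Sum.inl i), ?_⟩
        show PowerSeries.C (v i) ≠ 0
        intro h4
        exact hi (by simpa using h4)
      · have : ∃ i j, M i j ≠ 0 := by
          by_contra hcon
          push Not at hcon
          exact h0 (by ext i j; exact hcon i j)
        obtain ⟨i, j, hij⟩ := this
        refine ⟨Sum.inr (Sum.inr (i, j)), ?_⟩
        show PowerSeries.C (M i j) ≠ 0
        intro h4
        exact hij (by simpa using h4)
    have h4 := congrFun h3 i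
    rw [Pi.smul_apply, smul_eq_mul, Pi.zero_apply] at h4
    have h5 := (mul_eq_zero.mp h4.symm).resolve_right hi
    exact eq_zero_of_pow_eq_zero h5
  have e1 := hroot β a v M hJ
  have e2 := hroot β' a' v' M' hJ'
  -- the polynomial at the constant term
  have hh0 : h.map (PowerSeries.constantCoeff (R := k)) = hank m (psi g) := by
    rw [hh, hank_map, map_psi, xs_const]
  have hsep : (hank m (psi g)).Separable := hank_sep (G := k) (psi g) m rfl
  have hzc : ∀ b : k, PowerSeries.constantCoeff ((xs g X).det * (PowerSeries.C μ * ex b)) = g.det * μ := by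
    intro b
    rw [map_mul, map_mul, hcd, ex_const, PowerSeries.constantCoeff_C, mul_one]
  have hr0 : (hank m (psi g)).eval (g.det * μ) = 0 := by
    rw [← hh0, ← hzc β, Polynomial.eval_map_apply, e1, map_zero]
  have hd0 : (Polynomial.derivative (hank m (psi g))).eval (g.det * μ) ≠ 0 := by
    have := hsep.aeval_derivative_ne_zero (x := g.det * μ) (by simpa using hr0)
    simpa using this
  set z := (xs g X).det * (PowerSeries.C μ * ex β) with hzdef
  set z' := (xs g X).det * (PowerSeries.C μ * ex β') with hz'def
  have hzz : z' - z = 0 := by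
    obtain ⟨c, hc⟩ := Polynomial.binomExpansion h z (z' - z)
    rw [add_sub_cancel, e2, e1, zero_add] at hc
    have h1 : (z' - z) * (h.derivative.eval z + c * (z' - z)) = 0 := by
      rw [hc]
      ring
    rcases mul_eq_zero.mp h1 with h2 | h2
    · exact h2
    · exfalso
      have h3 := congrArg (PowerSeries.constantCoeff (R := k)) h2
      rw [map_add, map_mul, map_sub, map_zero, hzc, hzc, sub_self, mul_zero, add_zero] at h3
      refine hd0 ?_
      rw [← hh0, Polynomial.derivative_map, ← hzc β, Polynomial.eval_map_apply]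
      exact h3
  have hμ : μ ≠ 0 := by
    rintro rfl
    obtain ⟨h0, ha, hv, hM, _⟩ := hJ
    have hgl : ∀ w : n → k, g *ᵥ w = 0 → w = 0 := fun w hw =>
      Matrix.eq_zero_of_mulVec_eq_zero hdet hw
    rcases h0 with h0 | h0 | h0
    · exact h0 (by rw [ha, zero_mul])
    · exact h0 (hgl v (by rw [hv, zero_smul]))
    · apply h0
      have h1 : g * M = 0 := by rw [hM, zero_smul]
      exact (hu.mul_right_eq_zero).mp h1
  have h1 : (xs g X).det * (PowerSeries.C μ * ex β') = (xs g X).det * (PowerSeries.C μ * ex β) := sub_eq_zero.mp hzz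
  have h2 := mul_left_cancel₀ hD h1
  have h3 : (PowerSeries.C μ : PowerSeries k) ≠ 0 := by
    intro h4
    exact hμ (by simpa using h4)
  exact (ex_inj (mul_left_cancel₀ h3 h2)).symm

end N1

/-- **N1.** -/
theorem single_of_max {k : Type*} [Field k] [IsAlgClosed k] [CharZero k] {n : Type*} [Fintype n] [DecidableEq n]
    (S : Set (Matrix n n k)) (g : Matrix n n k) (hg : g ∈ S) (hu : IsUnit g)
    (hmax : ∀ x ∈ S, nd k (psi x) ≤ nd k (psi g)) (X : Matrix n n k) (hX : IsTangent S X) : Single g X :=
  N1.main S g hu hmax X fun P hP => exp_zero S X hX P hP g hg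

end Pool.Agent.H40TG
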