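import Mathlib
import Pool.Agent.H40ZL.Defs
import Pool.Agent.H40TG.Defs

/-!
# N2: the power map is injective on the eigenvalues
-/

set_option autoImplicit false

namespace Pool.Agent.H40TG

open Matrix Pool.Agent.H40ZL

section

variable {n : Type*} [Fintype n] [DecidableEq n]

theorem N2_psi_mul {R : Type*} [CommRing R] (x y : Matrix n n R) : psi (x * y) = psi x * psi y := by
  unfold psi
  rw [Matrix.fromBlocks_multiply, Matrix.fromBlocks_multiply]
  simp only [Matrix.mul_zero, Matrix.zero_mul, add_zero, zero_add]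
  rw [Matrix.det_mul, Matrix.adjugate_mul_distrib, Matrix.transpose_mul]
  congr 1
  · simp [smul_smul, mul_comm]
  · congr 1
    · rw [Matrix.smul_mul, Matrix.mul_smul, smul_smul]
    · exact Matrix.mul_kronecker_mul x y x.adjugateᵀ y.adjugateᵀ

theorem N2_psi_one {R : Type*} [CommRing R] : psi (1 : Matrix n n R) = 1 := by
  unfold psi
  rw [Matrix.det_one, Matrix.adjugate_one, Matrix.transpose_one, one_smul, one_smul]
  rw [show Matrix.kroneckerMap (· * ·) (1 : Matrix n n R) (1 : Matrix n n R) = 1 from Matrix.one_kronecker_one,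
    Matrix.fromBlocks_one, Matrix.fromBlocks_one]

theorem N2_psi_pow {R : Type*} [CommRing R] (x : Matrix n n R) (N : ℕ) : psi (x ^ N) = psi x ^ N := by
  induction N with
  | zero => rw [pow_zero, pow_zero, N2_psi_one]
  | succ N ih => rw [pow_succ, pow_succ, N2_psi_mul, ih]

/-- the vector `(a, v, M)` -/
def N2_vec {R : Type*} (a : R) (v : n → R) (M : Matrix n n R) : Unit ⊕ (n ⊕ n × n) → R :=
  Sum.elim (fun _ => a) (Sum.elim v fun q => M q.1 q.2)

theorem N2_psi_vec {R : Type*} [CommRing R] (x : Matrix n n R) (a : R) (v : n → R) (M : Matrix n n R) :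
    psi x *ᵥ N2_vec a v M = N2_vec (x.det * a) (x.det • (x *ᵥ v)) (x * M * x.adjugate) := by
  unfold psi N2_vec
  rw [Matrix.fromBlocks_mulVec, Sum.elim_comp_inl, Sum.elim_comp_inr, Matrix.zero_mulVec, Matrix.zero_mulVec,
    add_zero, zero_add, Matrix.fromBlocks_mulVec, Sum.elim_comp_inl, Sum.elim_comp_inr, Matrix.zero_mulVec,
    Matrix.zero_mulVec, add_zero, zero_add, Matrix.smul_mulVec, Matrix.smul_mulVec, Matrix.one_mulVec]
  congr 1
  congr 1
  ext ⟨i, j⟩
  simp only [Matrix.mulVec, dotProduct, Matrix.kroneckerMap_apply, Matrix.transpose_apply, Matrix.mul_apply,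
    Fintype.sum_prod_type, Finset.sum_mul]
  rw [Finset.sum_comm]
  refine Finset.sum_congr rfl fun l _ => Finset.sum_congr rfl fun m _ => ?_
  ring

theorem N2_mem {k : Type*} [Field k] {m : Type*} [Fintype m] [DecidableEq m] [DecidableEq k] (A : Matrix m m k) (v : m → k) (hv : v ≠ 0)
    (μ : k) (h : A *ᵥ v = μ • v) : μ ∈ (A.charpoly.map (algebraMap k k)).roots.toFinset := by
  rw [Algebra.algebraMap_self, Polynomial.map_id, Multiset.mem_toFinset, Polynomial.mem_roots A.charpoly_monic.ne_zero,
    ← Matrix.mem_spectrum_iff_isRoot_charpoly, spectrum.mem_iff, Matrix.isUnit_iff_isUnit_det]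
  intro hu
  have h1 : (algebraMap k (Matrix m m k) μ - A) *ᵥ v = 0 := by
    rw [Matrix.sub_mulVec, Algebra.algebraMap_eq_smul_one, Matrix.smul_mulVec, Matrix.one_mulVec, h, sub_self]
  exact hv (Matrix.eq_zero_of_mulVec_eq_zero hu.ne_zero h1)

theorem N2_img {k : Type*} [Field k] [IsAlgClosed k] {m : Type*} [Fintype m] [DecidableEq m] [DecidableEq k]
    (A : Matrix m m k) (N : ℕ) (hN : 0 < N) :
    ((A ^ N).charpoly.map (algebraMap k k)).roots.toFinset =
      ((A.charpoly.map (algebraMap k k)).roots.toFinset).image (fun x => x ^ N) := by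
  have h1 : ∀ (B : Matrix m m k) (μ : k), μ ∈ (B.charpoly.map (algebraMap k k)).roots.toFinset ↔
      μ ∈ spectrum k B := by
    intro B μ
    rw [Algebra.algebraMap_self, Polynomial.map_id, Multiset.mem_toFinset,
      Polynomial.mem_roots B.charpoly_monic.ne_zero, ← Matrix.mem_spectrum_iff_isRoot_charpoly]
  ext μ
  rw [h1, spectrum.map_pow_of_pos A hN, Finset.mem_image]
  constructor
  · rintro ⟨x, hx, rfl⟩
    exact ⟨x, (h1 A x).2 hx, rfl⟩
  · rintro ⟨x, hx, rfl⟩
    exact ⟨x, (h1 A x).1 hx, rfl⟩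

/-- **N2.** -/
theorem pow_inj {k : Type*} [Field k] [IsAlgClosed k] [CharZero k] {n : Type*} [Fintype n] [DecidableEq n]
    (g : Matrix n n k) (hu : IsUnit g) (N : ℕ) (hN : 0 < N) (h : nd k (psi g) ≤ nd k (psi (g ^ N))) :
    (∀ (c : k) (M : Matrix n n k), M ≠ 0 → g * M = c • (M * g) → c ^ N = 1 → c = 1) ∧
    (∀ (c : k) (v : n → k), v ≠ 0 → g *ᵥ v = c • v → c ^ N = 1 → c = 1) := by
  classical
  have hd : g.det ≠ 0 := ((Matrix.isUnit_iff_isUnit_det g).1 hu).ne_zero
  have hinj : Set.InjOn (fun x : k => x ^ N) (((psi g).charpoly.map (algebraMap k k)).roots.toFinset : Set k) := by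
    refine Finset.injOn_of_card_image_eq (le_antisymm Finset.card_image_le ?_)
    rw [← N2_img (psi g) N hN, ← N2_psi_pow]
    unfold nd at h
    convert h
  have key : ∀ (c : k) (w : Unit ⊕ (n ⊕ n × n) → k), w ≠ 0 → psi g *ᵥ w = (c * g.det) • w → c ^ N = 1 → c = 1 := by
    intro c w hw hgw hc
    have h1 := N2_mem (psi g) w hw (c * g.det) hgw
    have h2 : g.det ∈ ((psi g).charpoly.map (algebraMap k k)).roots.toFinset := by
      refine N2_mem (psi g) (N2_vec 1 0 0) ?_ g.det ?_
      · intro h0
        have := congrFun h0 (Sum.inl ())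
        exact one_ne_zero this
      · rw [N2_psi_vec]
        ext q
        rcases q with u | q | q
        · simp [N2_vec]
        · simp [N2_vec]
        · simp [N2_vec]
    have h3 : c * g.det = g.det := hinj (by exact_mod_cast h1) (by exact_mod_cast h2) (by
      simp only [mul_pow, hc, one_mul])
    exact mul_right_cancel₀ hd (by rw [h3, one_mul])
  refine ⟨fun c M hM hgM hc => ?_, fun c v hv hgv hc => ?_⟩
  · refine key c (N2_vec 0 0 M) ?_ ?_ hc
    · intro h0
      refine hM ?_
      ext i j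
      exact congrFun h0 (Sum.inr (Sum.inr (i, j)))
    · rw [N2_psi_vec, hgM]
      have e : (c • (M * g)) * g.adjugate = (c * g.det) • M := by
        rw [Matrix.smul_mul, Matrix.mul_assoc, Matrix.mul_adjugate, Matrix.mul_smul, Matrix.mul_one, smul_smul]
      rw [e]
      ext q
      rcases q with u | q | q
      · simp [N2_vec]
      · simp [N2_vec]
      · simp [N2_vec]
  · refine key c (N2_vec 0 v 0) ?_ ?_ hc
    · intro h0
      refine hv ?_
      ext i
      exact congrFun h0 (Sum.inr (Sum.inl i))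
    · rw [N2_psi_vec, hgv]
      ext q
      rcases q with u | q | q
      · simp [N2_vec]
      · simp [N2_vec]
        ring
      · simp [N2_vec]

end

end Pool.Agent.H40TG
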