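import Mathlib
import Pool.Agent.H40TG.E1

set_option autoImplicit false

namespace Pool.Agent.H40TG

open Matrix Pool.Agent.H40ZL

theorem R1_rows {k : Type*} [Field k] {m n : Type*} [Fintype m] [Fintype n] (A : Matrix m n k) (s : ℕ)
    (h : s ≤ A.rank) : ∃ α : Fin s → m, LinearIndependent k (fun i => A (α i)) := by
  obtain ⟨f, hf1, -, hf3⟩ := Submodule.exists_fun_fin_finrank_span_eq k (Set.range A.row)
  choose a ha using hf1
  have hs : s ≤ Module.finrank k (Submodule.span k (Set.range A.row)) := by
    rw [← rank_eq_finrank_span_row]; exact h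
  refine ⟨fun i => a (Fin.castLE hs i), ?_⟩
  have h1 := hf3.comp (Fin.castLE hs) (Fin.castLE_injective hs)
  have h2 : (fun i => A (a (Fin.castLE hs i))) = f ∘ Fin.castLE hs := by
    funext i
    exact ha (Fin.castLE hs i)
  rw [h2]
  exact h1

theorem R1_minor {k : Type*} [Field k] {m n : Type*} [Fintype m] [Fintype n] (A : Matrix m n k) (s : ℕ)
    (h : s ≤ A.rank) : ∃ (α : Fin s → m) (β : Fin s → n), (A.submatrix α β).det ≠ 0 := by
  obtain ⟨α, hα⟩ := R1_rows A s h
  have h1 : LinearIndependent k (A.submatrix α id).row := hα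
  have h2 : (A.submatrix α id).rank = s := by
    rw [h1.rank_matrix, Fintype.card_fin]
  have h3 : s ≤ (A.submatrix α id)ᵀ.rank := by rw [rank_transpose, h2]
  obtain ⟨β, hβ⟩ := R1_rows (A.submatrix α id)ᵀ s h3
  refine ⟨α, β, ?_⟩
  have h4 : LinearIndependent k ((A.submatrix α β)ᵀ).row := hβ
  have h5 := (Matrix.linearIndependent_rows_iff_isUnit).mp h4
  rw [Matrix.isUnit_iff_isUnit_det, det_transpose] at h5
  exact h5.ne_zero

/-- **R1.** Ranks and tangent vectors. -/
theorem rank_tangent {k : Type*} [Field k] [CharZero k] {n : Type*} [Fintype n] [DecidableEq n]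
    (S : Set (Matrix n n k)) (h1 : (1 : Matrix n n k) ∈ S) (X : Matrix n n k) (hX : IsTangent S X)
    (u e : Matrix n n k) (hue : u * e = 0) (r : ℕ) (h : ∀ x ∈ S, (u * x * e).rank ≤ r) : (u * X * e).rank ≤ r := by
  by_contra hcon
  obtain ⟨α, β, hdet⟩ := R1_minor (u * X * e) (r + 1) (by omega)
  have hval : ∀ {R : Type _} [CommRing R] [Algebra k R] (y : Matrix n n R),
      MvPolynomial.aeval (fun q : n × n => y q.1 q.2)
        ((u.map (MvPolynomial.C (σ := n × n)) * mvPolynomialX n n k * e.map MvPolynomial.C).submatrix α β).det =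
      ((u.map (algebraMap k R) * y * e.map (algebraMap k R)).submatrix α β).det := by
    intro R _ _ y
    rw [AlgHom.map_det]
    congr 1
    have e1 : ∀ w : Matrix n n k, (w.map (MvPolynomial.C (σ := n × n))).map
        (MvPolynomial.aeval (R := k) (fun q : n × n => y q.1 q.2)) = w.map (algebraMap k R) := by
      intro w
      ext i j
      simp
    have e2 : (mvPolynomialX n n k).map (MvPolynomial.aeval (R := k) (fun q : n × n => y q.1 q.2)) = y := by
      ext i j
      simp
    rw [AlgHom.mapMatrix_apply, ← submatrix_map, Matrix.map_mul, Matrix.map_mul, e1, e1, e2]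
  have h0 := exp_zero S X hX
    ((u.map (MvPolynomial.C (σ := n × n)) * mvPolynomialX n n k * e.map MvPolynomial.C).submatrix α β).det
    (fun x hx => by
      rw [evm, hval x]
      by_contra hne
      have h2 := rank_of_det_ne_zero hne
      rw [Fintype.card_fin] at h2
      have h3 := rank_submatrix_le (u * x * e) α β
      have h4 := h x hx
      have h5 : u.map (algebraMap k k) * x * e.map (algebraMap k k) = u * x * e := by
        simp [Algebra.algebraMap_self]
      rw [h5] at h2
      omega) 1 h1
  rw [hval] at h0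
  set W : Matrix n n (PowerSeries k) := Matrix.of fun i j =>
    PowerSeries.mk fun l => (((l + 1).factorial : k)⁻¹) * (X ^ (l + 1)) i j with hW
  have hexp : (1 : Matrix n n k).map (algebraMap k (PowerSeries k)) * expM X = 1 + (PowerSeries.X : PowerSeries k) • W := by
    rw [Matrix.map_one _ (map_zero _) (map_one _), one_mul]
    ext i j l
    rw [Matrix.add_apply, Matrix.smul_apply, smul_eq_mul]
    rcases l with _ | l
    · rw [map_add, PowerSeries.coeff_zero_X_mul]
      by_cases hij : i = j
      · subst hij
        simp [expM]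
      · simp [expM, hij]
    · rw [map_add, PowerSeries.coeff_succ_X_mul]
      by_cases hij : i = j
      · subst hij
        simp [expM, hW, PowerSeries.coeff_one]
      · simp [expM, hW, hij]
  have hprod : u.map (algebraMap k (PowerSeries k)) * (1 + (PowerSeries.X : PowerSeries k) • W) * e.map (algebraMap k (PowerSeries k)) =
      (PowerSeries.X : PowerSeries k) • (u.map (algebraMap k (PowerSeries k)) * W * e.map (algebraMap k (PowerSeries k))) := by
    rw [mul_add, mul_one, add_mul, ← Matrix.map_mul, hue, Matrix.map_zero _ (map_zero _), zero_add, Matrix.mul_smul,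
      Matrix.smul_mul]
  rw [hexp, hprod] at h0
  change ((PowerSeries.X : PowerSeries k) •
    (u.map (algebraMap k (PowerSeries k)) * W * e.map (algebraMap k (PowerSeries k))).submatrix α β).det = 0 at h0
  rw [Matrix.det_smul, Fintype.card_fin] at h0
  have h6 : ((u.map (algebraMap k (PowerSeries k)) * W * e.map (algebraMap k (PowerSeries k))).submatrix α β).det = 0 :=
    (mul_eq_zero.mp h0).resolve_left (pow_ne_zero _ PowerSeries.X_ne_zero)
  have h7 := congrArg (PowerSeries.constantCoeff (R := k)) h6
  rw [RingHom.map_det, map_zero] at h7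
  apply hdet
  rw [← h7]
  congr 1
  rw [RingHom.mapMatrix_apply, ← submatrix_map, Matrix.map_mul, Matrix.map_mul]
  have e1 : ∀ w : Matrix n n k, (w.map (algebraMap k (PowerSeries k))).map (PowerSeries.constantCoeff (R := k)) = w := by
    intro w
    ext i j
    simp
  have e2 : W.map (PowerSeries.constantCoeff (R := k)) = X := by
    ext i j
    simp [hW, ← PowerSeries.coeff_zero_eq_constantCoeff_apply]
  rw [e1, e1, e2]

end Pool.Agent.H40TG
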