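import Mathlib
import Pool.Agent.H40TG.J3

/-!
# Project TG, part S1 (helper67): vectors of weight 0 and 2 for sl2
-/

set_option autoImplicit false

namespace Pool.Agent.H40TG

open Matrix

theorem S1.aux {k : Type*} [Field k] [CharZero k] {n : Type*} [Fintype n] [DecidableEq n] (X Y H : Matrix n n k)
    (h1 : X * Y - Y * X = H) (h2 : H * X - X * H = (2 : k) • X) (w : n → k) (hy : Y *ᵥ w = 0)
    (hh : H *ᵥ w = (2 : k) • w) : w = 0 := by
  have h2' : H * X - X * H = 2 * X := by rw [h2, two_smul, two_mul]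
  -- `H X^i w = (2 + 2 i) X^i w`
  have e1 : ∀ i : ℕ, H *ᵥ (X ^ i *ᵥ w) = ((2 : k) + 2 * i) • (X ^ i *ᵥ w) := by
    intro i
    rw [Matrix.mulVec_mulVec, J3.pow_h X H h2' i, Matrix.add_mulVec, ← Matrix.mulVec_mulVec, hh,
      Matrix.mulVec_smul, add_smul]
    congr 1
    have e : (2 * (i : Matrix n n k) * X ^ i) = (2 * (i : k)) • X ^ i := by
      have e0 : (2 * (i : Matrix n n k)) = (2 * (i : k)) • (1 : Matrix n n k) := by
        have e01 : (2 * (i : Matrix n n k)) = ((2 * i : ℕ) : Matrix n n k) := by push_cast; rfl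
        have e02 : (2 * (i : k)) = ((2 * i : ℕ) : k) := by push_cast; rfl
        rw [e01, e02, Nat.cast_smul_eq_nsmul, nsmul_one]
      rw [e0, smul_mul_assoc, one_mul]
    rw [e, Matrix.smul_mulVec]
  -- `X^i w = 0` for some `i`
  have e2 : ∃ i : ℕ, X ^ i *ᵥ w = 0 := by
    by_contra hcon
    push Not at hcon
    have hev : ∀ i : ℕ, Module.End.HasEigenvalue (Matrix.toLin' H) ((2 : k) + 2 * i) := by
      intro i
      refine Module.End.hasEigenvalue_of_hasEigenvector (x := X ^ i *ᵥ w) ?_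
      refine ⟨?_, hcon i⟩
      rw [Module.End.mem_eigenspace_iff, Matrix.toLin'_apply]
      exact e1 i
    have hfin : Set.Finite {μ : k | Module.End.HasEigenvalue (Matrix.toLin' H) μ} :=
      Module.End.finite_hasEigenvalue _
    have hinj : Function.Injective fun i : ℕ => (2 : k) + 2 * i := by
      intro i j hij
      have h3 : (2 : k) * i = 2 * j := add_left_cancel hij
      have h4 : (i : k) = j := mul_left_cancel₀ two_ne_zero h3
      exact_mod_cast h4
    exact Set.infinite_range_of_injective hinj (hfin.subset (by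
      rintro _ ⟨i, rfl⟩
      exact hev i))
  -- descent
  have e3 : ∀ i : ℕ, X ^ (i + 1) *ᵥ w = 0 → X ^ i *ᵥ w = 0 := by
    intro i hi
    have e4 := congrArg (fun F : Matrix n n k => F *ᵥ w) (J3.pow_y X Y H h1 h2' i)
    rw [Matrix.add_mulVec, Matrix.sub_mulVec, ← Matrix.mulVec_mulVec, hi, Matrix.mulVec_zero,
      ← Matrix.mulVec_mulVec, hy, Matrix.mulVec_zero] at e4
    have e5 : (((i : Matrix n n k) + 1) * (H * X ^ i)) *ᵥ w =
        (((i : k) + 1) * (2 + 2 * i)) • (X ^ i *ᵥ w) := by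
      have e50 : ((i : Matrix n n k) + 1) = ((i : k) + 1) • (1 : Matrix n n k) := by
        rw [add_smul, one_smul, Nat.cast_smul_eq_nsmul, nsmul_one]
      rw [e50, smul_mul_assoc, one_mul, Matrix.smul_mulVec, ← Matrix.mulVec_mulVec, e1, smul_smul]
    have e6 : (((i : Matrix n n k) + 1) * (i : Matrix n n k) * X ^ i) *ᵥ w =
        (((i : k) + 1) * i) • (X ^ i *ᵥ w) := by
      have e60 : ((i : Matrix n n k) + 1) * (i : Matrix n n k) =
          (((i : k) + 1) * i) • (1 : Matrix n n k) := by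
        have e61 : ((i : Matrix n n k) + 1) * (i : Matrix n n k) = (((i + 1) * i : ℕ) : Matrix n n k) := by
          push_cast; rfl
        have e62 : (((i : k) + 1) * i) = (((i + 1) * i : ℕ) : k) := by push_cast; rfl
        rw [e61, e62, Nat.cast_smul_eq_nsmul, nsmul_one]
      rw [e60, smul_mul_assoc, one_mul, Matrix.smul_mulVec]
    rw [e5, e6, zero_sub, ← neg_smul, ← add_smul] at e4
    have hne : (-(((i : k) + 1) * (2 + 2 * i)) + ((i : k) + 1) * i) ≠ 0 := by
      have h5 : ((i : k) + 1) ≠ 0 := by exact_mod_cast Nat.succ_ne_zero i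
      have h6 : ((i : k) + 2) ≠ 0 := by exact_mod_cast Nat.succ_ne_zero (i + 1)
      have e7 : (-(((i : k) + 1) * (2 + 2 * i)) + ((i : k) + 1) * i) =
          -(((i : k) + 1) * ((i : k) + 2)) := by ring
      rw [e7]
      exact neg_ne_zero.2 (mul_ne_zero h5 h6)
    exact (smul_eq_zero.1 e4.symm).resolve_left hne
  obtain ⟨i, hi⟩ := e2
  have e8 : ∀ j : ℕ, X ^ j *ᵥ w = 0 → w = 0 := by
    intro j
    induction j with
    | zero => intro h; simpa using h
    | succ j ih => intro h; exact ih (e3 j h)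
  exact e8 i hi

/-- **S1.** -/
theorem sl2 {k : Type*} [Field k] [CharZero k] {n : Type*} [Fintype n] [DecidableEq n] (X Y H : Matrix n n k)
    (h1 : X * Y - Y * X = H) (h2 : H * X - X * H = (2 : k) • X) (h3 : H * Y - Y * H = -(2 : k) • Y) (w : n → k) :
    (X *ᵥ w = 0 → H *ᵥ w = 0 → Y *ᵥ w = 0) ∧ (Y *ᵥ w = 0 → H *ᵥ w = (2 : k) • w → w = 0) := by
  refine ⟨fun hx hh => ?_, fun hy hh => S1.aux X Y H h1 h2 w hy hh⟩
  refine S1.aux Y X (-H) (by rw [← h1]; abel) ?_ (Y *ᵥ w) ?_ ?_
  · have : -H * Y - Y * -H = -(H * Y - Y * H) := by noncomm_ring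
    rw [this, h3, neg_smul, neg_neg]
  · have e : X * Y = Y * X + H := by rw [← h1]; abel
    rw [Matrix.mulVec_mulVec, e, Matrix.add_mulVec, ← Matrix.mulVec_mulVec, hx, Matrix.mulVec_zero,
      hh, add_zero]
  · have e : H * Y = Y * H + -(2 : k) • Y := by rw [← h3]; abel
    rw [Matrix.neg_mulVec, Matrix.mulVec_mulVec, e, Matrix.add_mulVec, ← Matrix.mulVec_mulVec, hh,
      Matrix.mulVec_zero, zero_add, Matrix.smul_mulVec, neg_smul, neg_neg]

end Pool.Agent.H40TG
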