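import Mathlib
import Pool.Agent.H40TG.Defs
import Pool.Agent.H40ZL.C

/-!
# Stub T1: the nilpotent elements of the centralizer of `g` in `L` are zero
-/

set_option autoImplicit false

namespace Pool.Agent.H40TG

open Module LieAlgebra LieModule

attribute [local instance 100] LieRing.ofAssociativeRing

set_option maxHeartbeats 400000

section One

variable {K W : Type*} [Field K] [AddCommGroup W] [Module K W]

/-- all eigenvalues of `Z` are equal -/
def T1_one (Z : Module.End K W) : Prop :=
  ∀ β β' : K, ∀ v v' : W, v ≠ 0 → v' ≠ 0 → Z v = β • v → Z v' = β' • v' → β = β'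

theorem T1_step (Z : Module.End K W) (μ β : K) (v : W) (hv : v ≠ 0) (hv' : Z v = β • v) (h : T1_one Z) (k : ℕ) :
    ∀ w : W, w ≠ 0 → ((Z - μ • (1 : Module.End K W)) ^ k) w = 0 → μ = β := by
  induction k with
  | zero =>
    intro w hw hk
    exact absurd hk hw
  | succ k ih =>
    intro w hw hk
    rw [pow_succ, Module.End.mul_apply] at hk
    by_cases h0 : (Z - μ • (1 : Module.End K W)) w = 0
    · refine h μ β w v hw hv ?_ hv'
      rw [LinearMap.sub_apply, LinearMap.smul_apply, Module.End.one_apply, sub_eq_zero] at h0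
      exact h0
    · exact ih _ h0 hk

theorem T1_nilp [IsAlgClosed K] [FiniteDimensional K W] [Nontrivial W] (Z : Module.End K W) (h : T1_one Z) :
    ∃ β : K, IsNilpotent (Z - β • (1 : Module.End K W)) := by
  obtain ⟨β, hβ⟩ := Module.End.exists_eigenvalue Z
  obtain ⟨v, hv⟩ := hβ.exists_hasEigenvector
  refine ⟨β, ?_⟩
  have htop : Z.maxGenEigenspace β = ⊤ := by
    rw [eq_top_iff, ← Module.End.iSup_maxGenEigenspace_eq_top Z]
    refine iSup_le fun μ => ?_
    by_cases hμ : μ = β
    · rw [hμ]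
    · have h0 : Z.maxGenEigenspace μ = ⊥ := by
        by_contra hne
        obtain ⟨w, hw, hw0⟩ := Submodule.exists_mem_ne_zero_of_ne_bot hne
        obtain ⟨k, hk⟩ := (Module.End.mem_maxGenEigenspace _ _ _).1 hw
        exact hμ (T1_step Z μ β v hv.2 hv.apply_eq_smul h k w hw0 hk)
      rw [h0]
      exact bot_le
  rw [Module.End.maxGenEigenspace_eq_genEigenspace_finrank, Module.End.genEigenspace_nat] at htop
  exact ⟨_, LinearMap.ker_eq_top.1 htop⟩

theorem T1_brk {R A : Type*} [CommRing R] [Ring A] [Algebra R A] (X Y : A) (c d : R) :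
    X * Y - Y * X = (X + c • (1 : A)) * (Y + d • (1 : A)) - (Y + d • (1 : A)) * (X + c • (1 : A)) := by
  simp only [add_mul, mul_add, smul_mul_assoc, mul_smul_comm, one_mul, mul_one, smul_add, smul_smul, mul_comm d c]
  abel

theorem T1_core [IsAlgClosed K] [CharZero K] [FiniteDimensional K W] (P : Submodule K (Module.End K W))
    (hL : ∀ X ∈ P, ∀ Y ∈ P, X * Y - Y * X ∈ P) (h1 : ∀ X ∈ P, T1_one X) (ν : Module.End K W) (hν : ν ∈ P)
    (hn : IsNilpotent ν) (T : Module.End K W) (hT : T ∈ P) : LinearMap.trace K W (ν * T) = 0 := by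
  rcases subsingleton_or_nontrivial W with hs | hs
  · have h2 : ν * T = 0 := Subsingleton.elim _ _
    rw [h2, map_zero]
  have hdim : (finrank K W : K) ≠ 0 := by
    have : finrank K W ≠ 0 := finrank_pos.ne'
    exact_mod_cast this
  have htr0 : ∀ Y : Module.End K W, IsNilpotent Y → LinearMap.trace K W Y = 0 := fun Y hY =>
    isNilpotent_iff_eq_zero.1 (LinearMap.isNilpotent_trace_of_isNilpotent hY)
  have htr1 : LinearMap.trace K W (1 : Module.End K W) = finrank K W := LinearMap.trace_one K W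
  have key : ∀ Z ∈ P, ∀ c : K, LinearMap.trace K W (Z - c • (1 : Module.End K W)) = 0 →
      IsNilpotent (Z - c • (1 : Module.End K W)) := by
    intro Z hZ c hc
    obtain ⟨β, hβ⟩ := T1_nilp Z (h1 Z hZ)
    have h2 := htr0 _ hβ
    rw [map_sub, map_smul, htr1, smul_eq_mul] at h2 hc
    have h3 : (β - c) * (finrank K W : K) = 0 := by linear_combination hc - h2
    rcases mul_eq_zero.1 h3 with h4 | h4
    · rw [← sub_eq_zero.1 h4]
      exact hβ
    · exact absurd h4 hdim
  let N : LieSubalgebra K (Module.End K W) :=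
    { carrier := {Y | IsNilpotent Y ∧ ∃ c : K, Y + c • (1 : Module.End K W) ∈ P}
      add_mem' := by
        rintro X Y ⟨hX, c, hc⟩ ⟨hY, d, hd⟩
        have e1 : X + Y = (X + c • (1 : Module.End K W) + (Y + d • (1 : Module.End K W))) -
            (c + d) • (1 : Module.End K W) := by
          rw [add_smul]; abel
        refine ⟨?_, c + d, ?_⟩
        · rw [e1]
          refine key _ (P.add_mem hc hd) _ ?_
          rw [← e1, map_add, htr0 X hX, htr0 Y hY, add_zero]
        · have e2 : X + Y + (c + d) • (1 : Module.End K W) =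
              X + c • (1 : Module.End K W) + (Y + d • (1 : Module.End K W)) := by
            rw [add_smul]; abel
          rw [e2]
          exact P.add_mem hc hd
      zero_mem' := ⟨IsNilpotent.zero, 0, by rw [zero_smul, add_zero]; exact P.zero_mem⟩
      smul_mem' := by
        rintro a X ⟨hX, c, hc⟩
        refine ⟨hX.smul a, a * c, ?_⟩
        have e2 : a • X + (a * c) • (1 : Module.End K W) = a • (X + c • (1 : Module.End K W)) := by
          rw [smul_add, mul_smul]
        rw [e2]
        exact P.smul_mem a hc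
      lie_mem' := by
        rintro X Y ⟨hX, c, hc⟩ ⟨hY, d, hd⟩
        have e1 : X * Y - Y * X = (X + c • (1 : Module.End K W)) * (Y + d • (1 : Module.End K W)) -
            (Y + d • (1 : Module.End K W)) * (X + c • (1 : Module.End K W)) := T1_brk X Y c d
        have h2 : X * Y - Y * X ∈ P := by
          rw [e1]
          exact hL _ hc _ hd
        refine ⟨?_, 0, ?_⟩
        · rw [LieRing.of_associative_ring_bracket]
          have h3 := key _ h2 0 (by
            rw [zero_smul, sub_zero, map_sub, LinearMap.trace_mul_comm, sub_self])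
          rwa [zero_smul, sub_zero] at h3
        · rw [LieRing.of_associative_ring_bracket, zero_smul, add_zero]
          exact h2 }
  have hNn : LieModule.IsNilpotent N W := by
    rw [LieModule.isNilpotent_iff_forall' (R := K)]
    rintro ⟨x, hx⟩
    exact hx.1
  have htf : traceForm K N W = 0 := traceForm_eq_zero_of_isNilpotent K N W
  obtain ⟨β, hβ⟩ := T1_nilp T (h1 T hT)
  have hνN : ν ∈ N := ⟨hn, 0, by rw [zero_smul, add_zero]; exact hν⟩
  have hTN : T - β • (1 : Module.End K W) ∈ N := ⟨hβ, β, by rw [sub_add_cancel]; exact hT⟩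
  have h2 : LinearMap.trace K W (ν * (T - β • (1 : Module.End K W))) = 0 := by
    have h3 := LinearMap.congr_fun (LinearMap.congr_fun htf ⟨ν, hνN⟩) ⟨_, hTN⟩
    rw [traceForm_apply_apply] at h3
    exact h3
  have e3 : ν * T = ν * (T - β • (1 : Module.End K W)) + β • ν := by
    rw [mul_sub, mul_smul_comm, mul_one, sub_add_cancel]
  rw [e3, map_add, h2, map_smul, htr0 ν hn, smul_zero, add_zero]

end One

section Two

variable {K V : Type*} [Field K] [AddCommGroup V] [Module K V]

theorem T1_invt [FiniteDimensional K V] (a b : Module.End K V) (hab : a * b = 1) (p : Submodule K V)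
    (hp : p ∈ Module.End.invtSubmodule b) : p ∈ Module.End.invtSubmodule a := by
  rw [Module.End.mem_invtSubmodule] at hp ⊢
  have hinj : Function.Injective b := by
    intro x y hxy
    have h1 : (a * b) x = (a * b) y := by
      rw [Module.End.mul_apply, Module.End.mul_apply, hxy]
    rw [hab] at h1
    exact h1
  have hmap : p.map b = p := by
    refine Submodule.eq_of_le_of_finrank_eq ?_ ?_
    · rw [Submodule.map_le_iff_le_comap]
      exact hp
    · exact (Submodule.equivMapOfInjective b hinj p).finrank_eq.symm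
  intro x hx
  rw [← hmap] at hx
  obtain ⟨y, hy, rfl⟩ := hx
  rw [Submodule.mem_comap]
  have h2 : (a * b) y = y := by rw [hab]; rfl
  rw [← Module.End.mul_apply, h2]
  exact hy

theorem T1_inv [FiniteDimensional K V] (g q : Module.End K V) (hgq : g * q = 1) (hg : g.IsSemisimple) :
    q.IsSemisimple := by
  have hqg : q * g = 1 := mul_eq_one_comm.1 hgq
  rw [Module.End.isSemisimple_iff] at hg ⊢
  intro p hp
  obtain ⟨r, hr, hc⟩ := hg p (T1_invt g q hgq p hp)
  exact ⟨r, T1_invt q g hqg r hr, hc⟩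

theorem T1_conj [PerfectField K] [FiniteDimensional K V] (g q : Module.End K V) (hg : g.IsSemisimple)
    (hq : q.IsSemisimple) :
    Module.End.IsSemisimple ((LinearMap.mulLeft K g * LinearMap.mulRight K q : Module.End K (Module.End K V))) := by
  have hl : Module.End.IsSemisimple (LinearMap.mulLeft K g) := by
    apply Module.End.isSemisimple_of_squarefree_aeval_eq_zero hg.minpoly_squarefree
    have : Polynomial.aeval (Algebra.lmul K (Module.End K V) g) (minpoly K g) = 0 := by
      rw [Polynomial.aeval_algHom_apply, minpoly.aeval, map_zero]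
    simpa using! this
  have hr : Module.End.IsSemisimple (LinearMap.mulRight K q) := by
    apply Module.End.isSemisimple_of_squarefree_aeval_eq_zero hq.minpoly_squarefree
    have hrw : LinearMap.mulRight K q =
        (Algebra.lsmul (A := (Module.End K V)ᵐᵒᵖ) K K (Module.End K V)) (.op q) := by
      ext; simp [Algebra.lsmul]
    rw [hrw, Polynomial.aeval_algHom_apply, Polynomial.aeval_op_apply, minpoly.aeval,
      MulOpposite.op_zero, map_zero]
  exact hl.mul_of_commute (LinearMap.commute_mulLeft_right g q) hr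

/-- the trace of an operator commuting with `g` is zero if its restrictions to the eigenspaces have trace zero -/
theorem T1_sum [IsAlgClosed K] [FiniteDimensional K V] (g : Module.End K V) (hg : g.IsSemisimple) (f : Module.End K V)
    (hf : ∀ μ : K, Set.MapsTo f (g.eigenspace μ) (g.eigenspace μ))
    (h : ∀ μ : K, LinearMap.trace K (g.eigenspace μ) (f.restrict (hf μ)) = 0) : LinearMap.trace K V f = 0 := by
  classical
  have hds : DirectSum.IsInternal fun μ : K => g.eigenspace μ :=
    DirectSum.isInternal_submodule_of_iSupIndep_of_iSup_eq_top g.eigenspaces_iSupIndep hg.iSup_eigenspace_eq_top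
  have hfin : {μ : K | g.eigenspace μ ≠ ⊥}.Finite := WellFoundedGT.finite_ne_bot_of_iSupIndep g.eigenspaces_iSupIndep
  rw [LinearMap.trace_eq_sum_trace_restrict' hds hfin hf]
  exact Finset.sum_eq_zero fun μ _ => h μ

theorem T1_eig (g X : Module.End K V) (h : g * X = X * g) (μ : K) :
    Set.MapsTo X (g.eigenspace μ) (g.eigenspace μ) := by
  intro v hv
  have hv' : g v = μ • v := Module.End.mem_eigenspace_iff.1 hv
  refine Module.End.mem_eigenspace_iff.2 ?_
  rw [← Module.End.mul_apply, h, Module.End.mul_apply, hv', map_smul]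

theorem T1_comm [IsAlgClosed K] [CharZero K] [FiniteDimensional K V] (L : Submodule K (Module.End K V))
    (hL : ∀ X ∈ L, ∀ Y ∈ L, X * Y - Y * X ∈ L) (g : Module.End K V) (hg : g.IsSemisimple)
    (hS : ∀ X ∈ L, ∀ μ β β' : K, ∀ v v' : V, v ≠ 0 → v' ≠ 0 → g v = μ • v → g v' = μ • v' → X v = β • v →
      X v' = β' • v' → β = β')
    (ν : Module.End K V) (hν : ν ∈ L) (hc : g * ν = ν * g) (hn : IsNilpotent ν) (X : Module.End K V) (hX : X ∈ L)
    (hcX : g * X = X * g) : LinearMap.trace K V (ν * X) = 0 := by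
  have hνX : g * (ν * X) = ν * X * g := by
    rw [← mul_assoc, hc, mul_assoc, hcX, mul_assoc]
  refine T1_sum g hg _ (T1_eig g _ hνX) fun μ => ?_
  let P : Submodule K (Module.End K (g.eigenspace μ)) :=
    { carrier := {Z | ∃ T ∈ L, g * T = T * g ∧ ∀ w : g.eigenspace μ, (Z w : V) = T (w : V)}
      add_mem' := by
        rintro Y Z ⟨S, hS, hS1, hS2⟩ ⟨T, hT, hT1, hT2⟩
        refine ⟨S + T, L.add_mem hS hT, by rw [mul_add, add_mul, hS1, hT1], fun w => ?_⟩
        rw [LinearMap.add_apply, LinearMap.add_apply, ← hS2, ← hT2]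
        rfl
      zero_mem' := ⟨0, L.zero_mem, by rw [mul_zero, zero_mul], fun w => rfl⟩
      smul_mem' := by
        rintro a Z ⟨T, hT, hT1, hT2⟩
        refine ⟨a • T, L.smul_mem a hT, by rw [mul_smul_comm, smul_mul_assoc, hT1], fun w => ?_⟩
        rw [LinearMap.smul_apply, LinearMap.smul_apply, ← hT2]
        rfl }
  have e1 : (ν * X).restrict (T1_eig g _ hνX μ) =
      ν.restrict (T1_eig g ν hc μ) * X.restrict (T1_eig g X hcX μ) := rfl
  rw [e1]
  refine T1_core P ?_ ?_ _ ⟨ν, hν, hc, fun w => rfl⟩ ?_ _ ⟨X, hX, hcX, fun w => rfl⟩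
  · rintro Y ⟨S, hS, hS1, hS2⟩ Z ⟨T, hT, hT1, hT2⟩
    refine ⟨S * T - T * S, hL S hS T hT, ?_, fun w => ?_⟩
    · rw [mul_sub, sub_mul, ← mul_assoc, hS1, mul_assoc, hT1, ← mul_assoc g T S, hT1, mul_assoc T g S, hS1,
        mul_assoc, mul_assoc]
    · rw [LinearMap.sub_apply, LinearMap.sub_apply, Module.End.mul_apply, Module.End.mul_apply, Module.End.mul_apply,
        Module.End.mul_apply, ← hS2, ← hT2, ← hS2, ← hT2]
      rfl
  · rintro Y ⟨T, hT, hT1, hT2⟩ β β' v v' hv hv' h1 h2
    refine hS T hT μ β β' v v' (fun h => hv (Subtype.ext h)) (fun h => hv' (Subtype.ext h))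
      (Module.End.mem_eigenspace_iff.1 v.2) (Module.End.mem_eigenspace_iff.1 v'.2) ?_ ?_
    · rw [← hT2, h1]; rfl
    · rw [← hT2, h2]; rfl
  · exact Module.End.isNilpotent.restrict (T1_eig g ν hc μ) hn

theorem T1_trace [IsAlgClosed K] [CharZero K] [FiniteDimensional K V] (L : Submodule K (Module.End K V))
    (hL : ∀ X ∈ L, ∀ Y ∈ L, X * Y - Y * X ∈ L) (g q : Module.End K V) (hgq : g * q = 1)
    (hconj : ∀ X ∈ L, g * X * q ∈ L) (hg : g.IsSemisimple)
    (hS : ∀ X ∈ L, ∀ μ β β' : K, ∀ v v' : V, v ≠ 0 → v' ≠ 0 → g v = μ • v → g v' = μ • v' → X v = β • v →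
      X v' = β' • v' → β = β')
    (ν : Module.End K V) (hν : ν ∈ L) (hc : g * ν = ν * g) (hn : IsNilpotent ν) (X : Module.End K V) (hX : X ∈ L) :
    LinearMap.trace K V (ν * X) = 0 := by
  have hqg : q * g = 1 := mul_eq_one_comm.1 hgq
  have hcs := T1_conj g q hg (T1_inv g q hgq hg)
  have hLc : L ∈ Module.End.invtSubmodule (LinearMap.mulLeft K g * LinearMap.mulRight K q) := by
    rw [Module.End.mem_invtSubmodule]
    intro Y hY
    rw [Submodule.mem_comap, Module.End.mul_apply, LinearMap.mulRight_apply, LinearMap.mulLeft_apply, ← mul_assoc]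
    exact hconj Y hY
  have hcL := hcs.restrict hLc
  rw [Module.End.isSemisimple_iff] at hcL
  let φ : L →ₗ[K] K := (LinearMap.trace K V ∘ₗ LinearMap.mulLeft K ν) ∘ₗ L.subtype
  have hφ : ∀ Y : L, φ Y = LinearMap.trace K V (ν * (Y : Module.End K V)) := fun Y => rfl
  have hR : ∀ Y : L, ((LinearMap.restrict (LinearMap.mulLeft K g * LinearMap.mulRight K q) hLc Y : L) :
      Module.End K V) = g * ((Y : Module.End K V) * q) := fun Y => rfl
  have hφc : ∀ Y : L, φ (LinearMap.restrict (LinearMap.mulLeft K g * LinearMap.mulRight K q) hLc Y) = φ Y := by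
    intro Y
    rw [hφ, hφ, hR]
    have h1 : ν * (g * ((Y : Module.End K V) * q)) = g * (ν * (Y : Module.End K V) * q) := by
      rw [← mul_assoc, ← hc]
      simp only [mul_assoc]
    rw [h1, LinearMap.trace_mul_comm, mul_assoc, hqg, mul_one]
  obtain ⟨C, hC, hcC⟩ := hcL (LinearMap.ker φ) (by
    rw [Module.End.mem_invtSubmodule]
    intro Y hY
    rw [Submodule.mem_comap, LinearMap.mem_ker, hφc]
    exact hY)
  have hXt : (⟨X, hX⟩ : L) ∈ LinearMap.ker φ ⊔ C := by
    rw [hcC.sup_eq_top]; trivial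
  obtain ⟨Z, hZ, Y, hY, hZY⟩ := Submodule.mem_sup.1 hXt
  have h1 : φ Y = LinearMap.trace K V (ν * X) := by
    have h2 : φ (Z + Y) = φ ⟨X, hX⟩ := by rw [hZY]
    rw [map_add, LinearMap.mem_ker.1 hZ, zero_add] at h2
    exact h2
  have h3 : LinearMap.restrict (LinearMap.mulLeft K g * LinearMap.mulRight K q) hLc Y - Y ∈ LinearMap.ker φ ⊓ C := by
    refine ⟨?_, C.sub_mem ?_ hY⟩
    · change φ _ = 0
      rw [map_sub, hφc, sub_self]
    · rw [Module.End.mem_invtSubmodule] at hC
      exact hC hY
  rw [hcC.inf_eq_bot, Submodule.mem_bot, sub_eq_zero] at h3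
  have h4 : g * (Y : Module.End K V) * q = Y := by
    have h5 := congrArg Subtype.val h3
    rw [mul_assoc, ← hR]
    exact h5
  have h6 : g * (Y : Module.End K V) = Y * g := by
    calc g * (Y : Module.End K V) = g * Y * (q * g) := by rw [hqg, mul_one]
      _ = g * Y * q * g := by simp only [mul_assoc]
      _ = Y * g := by rw [h4]
  rw [← h1, hφ]
  exact T1_comm L hL g hg hS ν hν hc hn Y Y.2 h6

end Two

open Matrix Pool.Agent.H40ZL

/-- **T1.** -/
theorem nil_zero {k : Type*} [Field k] [IsAlgClosed k] [CharZero k] {n : Type*} [Fintype n] [DecidableEq n]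
    (A : Set (Matrix n n k)) (L : Submodule k (Matrix n n k)) (h : Setup A L) (g : Matrix n n k) (hg : g ∈ A)
    (hgs : Module.End.IsSemisimple (Matrix.toLin' g)) (hS : ∀ X ∈ L, Single g X) (ν : Matrix n n k) (hν : ν ∈ L)
    (hc : g * ν = ν * g) (hn : IsNilpotent ν) : ν = 0 := by
  refine nilp_eq_zero A h.ss h.inv L h.lie h.conj h.span ν hν hn fun X hX => ?_
  obtain ⟨q, hq, hgq⟩ := h.inv g hg
  let e : Matrix n n k ≃ₐ[k] Module.End k (n → k) := Matrix.toLinAlgEquiv'
  have he : ∀ (x : Matrix n n k) (v : n → k), e x v = x *ᵥ v := fun x v => Matrix.toLinAlgEquiv'_apply x v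
  have h2 : LinearMap.trace k (n → k) (e (ν * X)) = Matrix.trace (ν * X) := Matrix.trace_toLin'_eq _
  rw [← h2, map_mul]
  refine T1_trace (K := k) (V := n → k) (L.map (e : Matrix n n k →ₗ[k] Module.End k (n → k))) ?_ (e g) (e q) ?_ ?_ hgs
    ?_ (e ν) ⟨ν, hν, rfl⟩ ?_ (hn.map e) (e X) ⟨X, hX, rfl⟩
  · rintro _ ⟨X, hX, rfl⟩ _ ⟨Y, hY, rfl⟩
    exact ⟨_, h.lie X hX Y hY, by simp⟩
  · rw [← map_mul, hgq, map_one]
  · rintro _ ⟨X, hX, rfl⟩
    exact ⟨_, h.conj g hg q hq hgq X hX, by simp⟩
  · rintro _ ⟨X, hX, rfl⟩ μ β β' v v' hv hv' h3 h4 h5 h6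
    have h5' : X *ᵥ v = β • v := by rw [← he]; exact h5
    have h6' : X *ᵥ v' = β' • v' := by rw [← he]; exact h6
    rw [he] at h3 h4
    refine hS X hX μ β β' 0 0 v v' 0 0 ?_ ?_
    · exact ⟨Or.inr (Or.inl hv), by simp, h3, by simp, by simp, h5', by simp⟩
    · exact ⟨Or.inr (Or.inl hv'), by simp, h4, by simp, by simp, h6', by simp⟩
  · rw [← map_mul, hc, map_mul]

end Pool.Agent.H40TG
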