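import Mathlib
import Pool.Agent.H40ZL.C
import Pool.Agent.H40TG.Defs

/-!
# Project TG, stub T2: the centralizer of `g` in `L` acts by scalars on the eigenspaces of `g`

Everything is done for endomorphisms; the statement T1 is a hypothesis (`torus_of`).
-/

set_option autoImplicit false

namespace Pool.Agent.H40TG

open Module

attribute [local instance 100] LieRing.ofAssociativeRing

section Core

variable {K V : Type*} [Field K] [IsAlgClosed K] [CharZero K] [AddCommGroup V] [Module K V]
  [FiniteDimensional K V]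

omit [CharZero K] in
/-- commuting endomorphisms have a joint eigenvector in every nonzero eigenspace -/
theorem T2_joint {W : Type*} [AddCommGroup W] [Module K W] [FiniteDimensional K W]
    (s f : Module.End K W) (hc : Commute f s) (β : K) (v : W) (hv : v ≠ 0) (hs : s v = β • v) :
    ∃ (c : K) (w : W), w ≠ 0 ∧ s w = β • w ∧ f w = c • w := by
  have hst : ∀ x ∈ s.eigenspace β, f x ∈ s.eigenspace β := by
    intro x hx
    rw [Module.End.mem_eigenspace_iff] at hx ⊢
    calc s (f x) = (s * f) x := rfl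
      _ = (f * s) x := by rw [hc.eq]
      _ = f (s x) := rfl
      _ = β • f x := by rw [hx, map_smul]
  have hne : s.eigenspace β ≠ ⊥ := by
    intro h0
    have : v ∈ s.eigenspace β := Module.End.mem_eigenspace_iff.mpr hs
    rw [h0] at this
    exact hv (by simpa using this)
  have : Nontrivial (s.eigenspace β) := Submodule.nontrivial_iff_ne_bot.mpr hne
  obtain ⟨c, hcv⟩ := Module.End.exists_eigenvalue (f.restrict hst)
  obtain ⟨w, hw⟩ := hcv.exists_hasEigenvector
  have hw1 := hw.apply_eq_smul
  have hw2 : f (w : W) = c • (w : W) := congrArg Subtype.val hw1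
  refine ⟨c, w, ?_, Module.End.mem_eigenspace_iff.mp w.2, hw2⟩
  intro h
  exact hw.2 (Subtype.ext h)

/-- an endomorphism all of whose eigenvalues are zero is nilpotent -/
theorem T2_nilp {W : Type*} [AddCommGroup W] [Module K W] [FiniteDimensional K W]
    (f : Module.End K W) (h : ∀ (μ : K) (w : W), w ≠ 0 → f w = μ • w → μ = 0) :
    IsNilpotent f := by
  obtain ⟨n, hn, s, hs, hnil, hss, e⟩ := f.exists_isNilpotent_isSemisimple
  have hfs : Commute f s := Algebra.commute_of_mem_adjoin_self hs
  have s0 : s = 0 := by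
    rw [hss.eq_zero_iff_forall_eigenvalue]
    intro μ hμ
    obtain ⟨v, hv⟩ := hμ.exists_hasEigenvector
    obtain ⟨c, w, hw0, hsw, hfw⟩ := T2_joint s f hfs μ v hv.2 hv.apply_eq_smul
    have c0 : c = 0 := h c w hw0 hfw
    have hn' : n w = (-μ) • w := by
      have h1 : f w = n w + s w := by
        conv_lhs => rw [e]
        rfl
      rw [hfw, c0, zero_smul, hsw] at h1
      rw [neg_smul]
      exact eq_neg_of_add_eq_zero_left h1.symm
    have h2 : n.HasEigenvalue (-μ) :=
      Module.End.hasEigenvalue_of_hasEigenvector ⟨Module.End.mem_eigenspace_iff.mpr hn', hw0⟩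
    have h3 := (h2.isNilpotent_of_isNilpotent hnil).eq_zero
    simpa using h3
  rw [e, s0, add_zero]
  exact hnil

omit [IsAlgClosed K] [CharZero K] in
/-- for a semisimple endomorphism the kernel of the square is the kernel -/
theorem T2_ker {W : Type*} [AddCommGroup W] [Module K W] (φ : Module.End K W)
    (hφ : φ.IsSemisimple) (y : W) (h : φ (φ y) = 0) : φ y = 0 := by
  have h1 : y ∈ φ.maxGenEigenspace 0 := by
    rw [Module.End.mem_maxGenEigenspace]
    exact ⟨2, by simp [pow_two, h]⟩
  rw [hφ.isFinitelySemisimple.maxGenEigenspace_eq_eigenspace] at h1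
  simpa [Module.End.mem_eigenspace_iff] using h1

/-- the component commuting with `g` -/
theorem T2_decomp (N : Submodule K (Module.End K V)) (g g' : Module.End K V) (hgg : g * g' = 1)
    (hg : g.IsSemisimple) (hN : ∀ X ∈ N, g * X * g' ∈ N) (M : Module.End K V) (hM : M ∈ N) :
    ∃ M₁ ∈ N, ∃ M' ∈ N, g * M₁ = M₁ * g ∧ M = M₁ + (g * M' * g' - M') := by
  have hgg' : g' * g = 1 := mul_eq_one_comm.1 hgg
  let f₀ : Module.End K (Module.End K V) :=
    LinearMap.mulLeft K g ∘ₗ LinearMap.mulRight K g' - LinearMap.id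
  have hf₀ : ∀ X, f₀ X = g * X * g' - X := by
    intro X
    simp [f₀, mul_assoc]
  have hst : ∀ X ∈ N, f₀ X ∈ N := by
    intro X hX
    rw [hf₀]
    exact N.sub_mem (hN X hX) hX
  let f : Module.End K N := f₀.restrict hst
  have key : ∀ Y : Module.End K V, f₀ (f₀ Y) = 0 → f₀ Y = 0 := by
    intro Y h
    set Z := f₀ Y with hZ
    have hZY : Z = g * Y * g' - Y := hf₀ Y
    rw [hf₀, sub_eq_zero] at h
    have h1 : g * Z = Z * g := by
      calc g * Z = g * Z * g' * g := by rw [mul_assoc (g * Z), hgg', mul_one]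
        _ = Z * g := by rw [h]
    have h2 : Z * g = g * Y - Y * g := by
      rw [hZY, sub_mul, mul_assoc (g * Y), hgg', mul_one]
    have h3 := T2_ker (LieAlgebra.ad K (Module.End K V) g)
      (LieAlgebra.ad_isSemisimple_of_isSemisimple hg) Y (by
        rw [LieAlgebra.ad_apply, LieAlgebra.ad_apply, LieRing.of_associative_ring_bracket,
          LieRing.of_associative_ring_bracket, ← h2]
        rw [← mul_assoc, h1, sub_self])
    rw [LieAlgebra.ad_apply, LieRing.of_associative_ring_bracket, ← h2] at h3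
    calc Z = Z * g * g' := by rw [mul_assoc, hgg, mul_one]
      _ = 0 := by rw [h3, zero_mul]
  have hdis : Disjoint (LinearMap.ker f) (LinearMap.range f) := by
    rw [Submodule.disjoint_def]
    rintro x hx ⟨y, rfl⟩
    rw [LinearMap.mem_ker] at hx
    apply Subtype.ext
    exact key y.1 (congrArg Subtype.val hx)
  have htop := Submodule.eq_top_of_disjoint (LinearMap.ker f) (LinearMap.range f)
    (by rw [add_comm, LinearMap.finrank_range_add_finrank_ker]) hdis
  have hmem : (⟨M, hM⟩ : N) ∈ LinearMap.ker f ⊔ LinearMap.range f := by rw [htop]; trivial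
  obtain ⟨a, ha, b, ⟨c, rfl⟩, e⟩ := Submodule.mem_sup.mp hmem
  refine ⟨a.1, a.2, c.1, c.2, ?_, ?_⟩
  · rw [LinearMap.mem_ker] at ha
    have h1 : f₀ a.1 = 0 := congrArg Subtype.val ha
    rw [hf₀, sub_eq_zero] at h1
    calc g * a.1 = g * a.1 * g' * g := by rw [mul_assoc (g * a.1), hgg', mul_one]
      _ = a.1 * g := by rw [h1]
  · have h1 : a.1 + f₀ c.1 = M := congrArg Subtype.val e
    rw [← h1, hf₀]

/-- a commutator of endomorphisms commuting with `g`, with one eigenvalue on each eigenspace of `g`,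
is nilpotent -/
theorem T2_comm_nilp (g P Q : Module.End K V) (hP : Commute g P) (hQ : Commute g Q)
    (hS : ∀ (μ β β' : K) (v v' : V), v ≠ 0 → v' ≠ 0 → g v = μ • v → g v' = μ • v' →
      (P * Q - Q * P) v = β • v → (P * Q - Q * P) v' = β' • v' → β = β') :
    IsNilpotent (P * Q - Q * P) := by
  set S := P * Q - Q * P with hSd
  have hgS : Commute g S := (hP.mul_right hQ).sub_right (hQ.mul_right hP)
  refine T2_nilp S ?_
  intro β v hv hSv
  obtain ⟨μ, w, hw0, hSw, hgw⟩ := T2_joint S g hgS β v hv hSv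
  have hst : ∀ X : Module.End K V, Commute g X → ∀ x ∈ g.eigenspace μ, X x ∈ g.eigenspace μ := by
    intro X hX x hx
    rw [Module.End.mem_eigenspace_iff] at hx ⊢
    calc g (X x) = (g * X) x := rfl
      _ = (X * g) x := by rw [hX.eq]
      _ = X (g x) := rfl
      _ = μ • X x := by rw [hx, map_smul]
  have hne : g.eigenspace μ ≠ ⊥ := by
    intro h0
    have : w ∈ g.eigenspace μ := Module.End.mem_eigenspace_iff.mpr hgw
    rw [h0] at this
    exact hw0 (by simpa using this)
  have : Nontrivial (g.eigenspace μ) := Submodule.nontrivial_iff_ne_bot.mpr hne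
  set W := g.eigenspace μ with hW
  let PW : Module.End K W := P.restrict (hst P hP)
  let QW : Module.End K W := Q.restrict (hst Q hQ)
  let SW : Module.End K W := S.restrict (hst S hgS)
  have e1 : SW = PW * QW - QW * PW := by
    apply LinearMap.ext
    intro x
    apply Subtype.ext
    rfl
  have t1 : LinearMap.trace K W SW = 0 := by
    rw [e1, map_sub, LinearMap.trace_mul_comm, sub_self]
  have n1 : IsNilpotent (SW - β • (1 : Module.End K W)) := by
    refine T2_nilp _ ?_
    intro c u hu hcu
    have h1 : SW u = (c + β) • u := by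
      have : (SW - β • (1 : Module.End K W)) u = SW u - β • u := rfl
      rw [this] at hcu
      rw [add_smul, ← hcu, sub_add_cancel]
    have h2 : S (u : V) = (c + β) • (u : V) := congrArg Subtype.val h1
    have h3 := hS μ (c + β) β u w (fun h => hu (Subtype.ext h)) hw0
      (Module.End.mem_eigenspace_iff.mp u.2) hgw h2 hSw
    simpa using h3
  have t2 := (LinearMap.isNilpotent_trace_of_isNilpotent n1).eq_zero
  rw [map_sub, t1, map_smul, LinearMap.trace_one, zero_sub, neg_eq_zero, smul_eq_mul,
    mul_eq_zero] at t2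
  rcases t2 with h | h
  · exact h
  · exfalso
    have h1 : finrank K W = 0 := by exact_mod_cast h
    exact (finrank_pos (R := K) (M := W)).ne' h1

/-- the statement for endomorphisms -/
theorem T2_core (A : Set (Module.End K V))
    (hA : ∀ U : Submodule K V, (∀ x ∈ A, ∀ v ∈ U, x v ∈ U) →
      ∃ U' : Submodule K V, (∀ x ∈ A, ∀ v ∈ U', x v ∈ U') ∧ IsCompl U U')
    (hone : (1 : Module.End K V) ∈ A) (hmul : ∀ p ∈ A, ∀ q ∈ A, p * q ∈ A)
    (hinv : ∀ p ∈ A, ∃ q ∈ A, p * q = 1) (L : Submodule K (Module.End K V))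
    (hL : ∀ X ∈ L, ∀ Y ∈ L, X * Y - Y * X ∈ L)
    (hconj : ∀ p ∈ A, ∀ q ∈ A, p * q = 1 → ∀ X ∈ L, p * X * q ∈ L) (hspan : L ≤ Submodule.span K A)
    (g : Module.End K V) (hg : g ∈ A) (hgs : g.IsSemisimple)
    (hS : ∀ X ∈ L, ∀ (μ β β' : K) (v v' : V), v ≠ 0 → v' ≠ 0 → g v = μ • v → g v' = μ • v' →
      X v = β • v → X v' = β' • v' → β = β')
    (hT1 : ∀ ν ∈ L, g * ν = ν * g → IsNilpotent ν → ν = 0)
    (T : Module.End K V) (hT : T ∈ L) (hc : g * T = T * g) (μ : K) (v : V) (hv : g v = μ • v) :
    ∃ β : K, T v = β • v := by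
  obtain ⟨g', hg', hgg⟩ := hinv g hg
  have hgg' : g' * g = 1 := mul_eq_one_comm.1 hgg
  obtain ⟨n, hn, s, hs, hnil, hss, e⟩ := T.exists_isNilpotent_isSemisimple
  have hTn : Commute T n := Algebra.commute_of_mem_adjoin_self hn
  have hTs : Commute T s := Algebra.commute_of_mem_adjoin_self hs
  have hns : Commute n s := by
    have h1 : Commute n (n + s) := by rw [← e]; exact hTn.symm
    have h2 : Commute n (n + s - n) := h1.sub_right (Commute.refl n)
    simpa using h2
  have hgn : Commute g n := Algebra.commute_of_mem_adjoin_singleton_of_commute hn hc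
  -- the span of `A` is an algebra
  have hadj : ∀ x ∈ Algebra.adjoin K A, x ∈ Submodule.span K A := by
    intro x hx
    have h1 : x ∈ Subalgebra.toSubmodule (Algebra.adjoin K A) := hx
    rw [Algebra.adjoin_eq_span] at h1
    let Am : Submonoid (Module.End K V) := { carrier := A, one_mem' := hone, mul_mem' := fun {a b} ha hb => hmul a ha b hb }
    have h2 : Submonoid.closure A ≤ Am := Submonoid.closure_le.mpr (le_refl A)
    exact Submodule.span_mono h2 h1
  have hspanadj : ∀ x ∈ Submodule.span K A, x ∈ Algebra.adjoin K A := by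
    intro x hx
    exact (Submodule.span_le.mpr Algebra.subset_adjoin :
      Submodule.span K A ≤ Subalgebra.toSubmodule (Algebra.adjoin K A)) hx
  have hnA : n ∈ Submodule.span K A := by
    apply hadj
    have h1 : T ∈ Algebra.adjoin K A := hspanadj T (hspan hT)
    exact (Algebra.adjoin_le (S := Algebra.adjoin K A) (Set.singleton_subset_iff.mpr h1)) hn
  -- `ad n` maps `L` to `L`
  have hadn : ∀ X ∈ L, n * X - X * n ∈ L := by
    have h1 : LieAlgebra.ad K (Module.End K V) n ∈
        Algebra.adjoin K {LieAlgebra.ad K (Module.End K V) T} := by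
      have := LieAlgebra.ad_mem_adjoin_of_isNilpotent (K := K) hns hnil hss
      rwa [← e] at this
    have h2 : ∀ φ ∈ Algebra.adjoin K {LieAlgebra.ad K (Module.End K V) T}, ∀ X ∈ L, φ X ∈ L := by
      intro φ hφ
      induction hφ using Algebra.adjoin_induction with
      | mem x hx =>
        intro X hX
        rw [Set.mem_singleton_iff] at hx
        rw [hx, LieAlgebra.ad_apply, LieRing.of_associative_ring_bracket]
        exact hL T hT X hX
      | algebraMap r =>
        intro X hX
        exact L.smul_mem r hX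
      | add x y _ _ hx hy =>
        intro X hX
        exact L.add_mem (hx X hX) (hy X hX)
      | mul x y _ _ hx hy =>
        intro X hX
        exact hx _ (hy X hX)
    intro X hX
    have h3 := h2 _ h1 X hX
    rwa [LieAlgebra.ad_apply, LieRing.of_associative_ring_bracket] at h3
  -- the normalizer
  let N : Submodule K (Module.End K V) :=
    { carrier := {M | M ∈ Submodule.span K A ∧ ∀ X ∈ L, M * X - X * M ∈ L}
      add_mem' := by
        rintro a b ⟨ha, ha'⟩ ⟨hb, hb'⟩
        refine ⟨add_mem ha hb, fun X hX => ?_⟩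
        have : (a + b) * X - X * (a + b) = (a * X - X * a) + (b * X - X * b) := by
          rw [add_mul, mul_add]; abel
        rw [this]
        exact L.add_mem (ha' X hX) (hb' X hX)
      zero_mem' := ⟨zero_mem _, fun X _ => by rw [zero_mul, mul_zero, sub_zero]; exact L.zero_mem⟩
      smul_mem' := by
        rintro c a ⟨ha, ha'⟩
        refine ⟨Submodule.smul_mem _ c ha, fun X hX => ?_⟩
        have : (c • a) * X - X * (c • a) = c • (a * X - X * a) := by
          rw [smul_mul_assoc, mul_smul_comm, smul_sub]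
        rw [this]
        exact L.smul_mem c (ha' X hX) }
  have hNmem : ∀ M, M ∈ N ↔ (M ∈ Submodule.span K A ∧ ∀ X ∈ L, M * X - X * M ∈ L) :=
    fun M => Iff.rfl
  have hNlie : ∀ X ∈ N, ∀ Y ∈ N, X * Y - Y * X ∈ N := by
    rintro X ⟨hX, hX'⟩ Y ⟨hY, hY'⟩
    refine ⟨?_, fun Z hZ => ?_⟩
    · apply hadj
      exact sub_mem (mul_mem (hspanadj X hX) (hspanadj Y hY))
        (mul_mem (hspanadj Y hY) (hspanadj X hX))
    · have h1 := hX' _ (hY' Z hZ)
      have h2 := hY' _ (hX' Z hZ)
      have h3 := L.sub_mem h1 h2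
      have : (X * Y - Y * X) * Z - Z * (X * Y - Y * X) =
          X * (Y * Z - Z * Y) - (Y * Z - Z * Y) * X - (Y * (X * Z - Z * X) - (X * Z - Z * X) * Y) := by
        noncomm_ring
      rw [this]
      exact h3
  have hNconj : ∀ p ∈ A, ∀ q ∈ A, p * q = 1 → ∀ X ∈ N, p * X * q ∈ N := by
    rintro p hp q hq hpq X ⟨hX, hX'⟩
    have hqp : q * p = 1 := mul_eq_one_comm.1 hpq
    refine ⟨?_, fun Z hZ => ?_⟩
    · apply hadj
      exact mul_mem (mul_mem (Algebra.subset_adjoin hp) (hspanadj X hX)) (Algebra.subset_adjoin hq)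
    · have h1 := hX' _ (hconj q hq p hp hqp Z hZ)
      have h2 := hconj p hp q hq hpq _ h1
      have h3 : p * (X * (q * Z * p) - (q * Z * p) * X) * q = p * X * q * Z - Z * (p * X * q) := by
        calc p * (X * (q * Z * p) - (q * Z * p) * X) * q
            = p * X * q * Z * (p * q) - (p * q) * Z * (p * X * q) := by noncomm_ring
          _ = p * X * q * Z - Z * (p * X * q) := by rw [hpq, mul_one, one_mul]
      rw [h3] at h2
      exact h2
  have hNspan : N ≤ Submodule.span K A := fun M hM => hM.1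
  have hnN : n ∈ N := ⟨hnA, hadn⟩
  -- the trace condition
  have htr : ∀ M ∈ N, LinearMap.trace K V (n * M) = 0 := by
    intro M hM
    obtain ⟨M₁, hM₁, M', hM', hcM, eM⟩ := T2_decomp N g g' hgg hgs
      (fun X hX => hNconj g hg g' hg' hgg X hX) M hM
    have h1 : LinearMap.trace K V (n * (g * M' * g')) = LinearMap.trace K V (n * M') := by
      calc LinearMap.trace K V (n * (g * M' * g')) = LinearMap.trace K V ((n * g * M') * g') := by
            simp only [mul_assoc]
        _ = LinearMap.trace K V (g' * (n * g * M')) := LinearMap.trace_mul_comm K _ _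
        _ = LinearMap.trace K V (g' * (g * n) * M') := by rw [hgn.eq]; simp only [mul_assoc]
        _ = LinearMap.trace K V (n * M') := by rw [← mul_assoc g' g n, hgg', one_mul]
    have h2 : M₁ * T - T * M₁ ∈ L := hM₁.2 T hT
    have hcM' : Commute g M₁ := hcM
    have hcT : Commute g T := hc
    have h3 : IsNilpotent (M₁ * T - T * M₁) :=
      T2_comm_nilp g M₁ T hcM' hcT (hS _ h2)
    have h4 : g * (M₁ * T - T * M₁) = (M₁ * T - T * M₁) * g :=
      ((hcM'.mul_right hcT).sub_right (hcT.mul_right hcM')).eq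
    have h5 := hT1 _ h2 h4 h3
    have h6 : Commute M₁ T := sub_eq_zero.mp h5
    have h7 : Commute M₁ n := Algebra.commute_of_mem_adjoin_singleton_of_commute hn h6
    have h8 : LinearMap.trace K V (n * M₁) = 0 :=
      (LinearMap.isNilpotent_trace_of_isNilpotent (h7.symm.isNilpotent_mul_right hnil)).eq_zero
    rw [eM, mul_add, mul_sub, map_add, map_sub, h1, h8, sub_self, add_zero]
  have hn0 : n = 0 := Pool.Agent.H40ZL.C_core A hA hinv N hNlie hNconj hNspan n hnN hnil htr
  have hTss : T.IsSemisimple := by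
    rw [e, hn0, zero_add]; exact hss
  -- the eigenspace
  by_cases hv0 : v = 0
  · exact ⟨0, by rw [hv0, map_zero, smul_zero]⟩
  · have hst : ∀ x ∈ g.eigenspace μ, T x ∈ g.eigenspace μ := by
      intro x hx
      rw [Module.End.mem_eigenspace_iff] at hx ⊢
      calc g (T x) = (g * T) x := rfl
        _ = (T * g) x := by rw [hc]
        _ = T (g x) := rfl
        _ = μ • T x := by rw [hx, map_smul]
    have hvm : v ∈ g.eigenspace μ := Module.End.mem_eigenspace_iff.mpr hv
    obtain ⟨β, w, hw0, hgw, hTw⟩ := T2_joint g T hc.symm μ v hv0 hv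
    refine ⟨β, ?_⟩
    let TW : Module.End K (g.eigenspace μ) := T.restrict hst
    have h1 : TW.IsSemisimple := hTss.restrict hst
    have h2 : (TW - algebraMap K (Module.End K (g.eigenspace μ)) β).IsSemisimple :=
      Module.End.isSemisimple_sub_algebraMap_iff.mpr h1
    have h3 : TW - algebraMap K (Module.End K (g.eigenspace μ)) β = 0 := by
      rw [h2.eq_zero_iff_forall_eigenvalue]
      intro c hcv
      obtain ⟨u, hu⟩ := hcv.exists_hasEigenvector
      have h4 := hu.apply_eq_smul
      have h5 : TW u = (c + β) • u := by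
        have : (TW - algebraMap K (Module.End K (g.eigenspace μ)) β) u = TW u - β • u := rfl
        rw [this] at h4
        rw [add_smul, ← h4, sub_add_cancel]
      have h6 : T (u : V) = (c + β) • (u : V) := congrArg Subtype.val h5
      have h7 := hS T hT μ (c + β) β u w (fun h => hu.2 (Subtype.ext h)) hw0
        (Module.End.mem_eigenspace_iff.mp u.2) hgw h6 hTw
      simpa using h7
    have h8 : TW ⟨v, hvm⟩ = β • ⟨v, hvm⟩ := by
      rw [sub_eq_zero] at h3
      rw [h3]
      rfl
    exact congrArg Subtype.val h8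

end Core

open Matrix Pool.Agent.H40ZL

/-- **T2**, with T1 as a hypothesis. -/
theorem torus_of {k : Type*} [Field k] [IsAlgClosed k] [CharZero k] {n : Type*} [Fintype n] [DecidableEq n]
    (A : Set (Matrix n n k)) (L : Submodule k (Matrix n n k)) (h : Setup A L) (g : Matrix n n k) (hg : g ∈ A)
    (hgs : Module.End.IsSemisimple (Matrix.toLin' g)) (hS : ∀ X ∈ L, Single g X)
    (hT1 : ∀ ν ∈ L, g * ν = ν * g → IsNilpotent ν → ν = 0) (T : Matrix n n k) (hT : T ∈ L)
    (hc : g * T = T * g) (μ : k) (v : n → k) (hv : g *ᵥ v = μ • v) : ∃ β : k, T *ᵥ v = β • v := by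
  let e : Matrix n n k ≃ₐ[k] Module.End k (n → k) := Matrix.toLinAlgEquiv'
  have he : ∀ (x : Matrix n n k) (v : n → k), e x v = x *ᵥ v := fun x v => Matrix.toLinAlgEquiv'_apply x v
  have key := T2_core (K := k) (V := n → k) (e '' A) (by
      intro U hU
      obtain ⟨U', h1, h2⟩ := h.ss U (fun x hx v hv => by
        rw [← he]; exact hU (e x) ⟨x, hx, rfl⟩ v hv)
      refine ⟨U', ?_, h2⟩
      rintro _ ⟨x, hx, rfl⟩ v hv
      rw [he]; exact h1 x hx v hv)
    ⟨1, h.one, map_one e⟩
    (by
      rintro _ ⟨p, hp, rfl⟩ _ ⟨q, hq, rfl⟩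
      exact ⟨p * q, h.mul p hp q hq, map_mul e p q⟩)
    (by
      rintro _ ⟨p, hp, rfl⟩
      obtain ⟨q, hq, hpq⟩ := h.inv p hp
      exact ⟨e q, ⟨q, hq, rfl⟩, by rw [← map_mul, hpq, map_one]⟩)
    (L.map (e : Matrix n n k →ₗ[k] Module.End k (n → k)))
    (by
      rintro _ ⟨X, hX, rfl⟩ _ ⟨Y, hY, rfl⟩
      exact ⟨_, h.lie X hX Y hY, by simp⟩)
    (by
      rintro _ ⟨p, hp, rfl⟩ _ ⟨q, hq, rfl⟩ hpq _ ⟨X, hX, rfl⟩
      have hpq' : p * q = 1 := e.injective (by rw [map_mul, hpq, map_one])
      exact ⟨_, h.conj p hp q hq hpq' X hX, by simp⟩)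
    (by
      rw [Submodule.map_le_iff_le_comap]
      intro X hX
      have h1 := h.span hX
      have h2 : e X ∈ (Submodule.span k A).map (e : Matrix n n k →ₗ[k] Module.End k (n → k)) := ⟨X, h1, rfl⟩
      rw [Submodule.map_span] at h2
      exact h2)
    (e g) ⟨g, hg, rfl⟩ hgs
    (by
      rintro _ ⟨X, hX, rfl⟩ μ β β' v v' hv hv' h1 h2 h3 h4
      have h1' : g *ᵥ v = μ • v := h1
      have h2' : g *ᵥ v' = μ • v' := h2
      have h3' : X *ᵥ v = β • v := h3
      have h4' : X *ᵥ v' = β' • v' := h4
      exact hS X hX μ β β' 0 0 v v' 0 0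
        ⟨Or.inr (Or.inl hv), by simp, h1', by simp, by simp, h3', by simp⟩
        ⟨Or.inr (Or.inl hv'), by simp, h2', by simp, by simp, h4', by simp⟩)
    (by
      rintro _ ⟨ν, hν, rfl⟩ h1 h2
      have h1' : e (g * ν) = e (ν * g) := by rw [map_mul, map_mul]; exact h1
      have h3 : IsNilpotent ν := by
        have := h2.map (e.symm : Module.End k (n → k) →ₐ[k] Matrix n n k)
        simpa using this
      have h4 := hT1 ν hν (e.injective h1') h3
      simp [h4])
    (e T) ⟨T, hT, rfl⟩ (by rw [← map_mul, ← map_mul, hc]) μ v (by rw [he]; exact hv)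
  obtain ⟨β, hβ⟩ := key
  exact ⟨β, by rw [← he]; exact hβ⟩

end Pool.Agent.H40TG
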