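import Mathlib
import Pool.Agent.H40LT.Unity

/-!
# Project TG, stub U1 (helper73): bounded orders of roots of unity
-/

set_option autoImplicit false

namespace Pool.Agent.H40TG

open Pool.Agent.H40LT IntermediateField

/-- **U1.** Bounded orders of roots of unity. -/
theorem ratio_expo {C : Type*} [Field C] [CharZero C] (P : Polynomial ℚ) (hP : P ≠ 0) (b : ℕ) (hb : P.natDegree ≤ b)
    (x y : C) (hx : Polynomial.aeval x P = 0) (hy : Polynomial.aeval y P = 0) (d : ℕ) (hd : 0 < d) :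
    ((x / y) ^ d = 1 → (x / y) ^ expo (b * b) = 1) ∧ (x ^ d = 1 → x ^ expo (b * b) = 1) := by
  have ix : IsIntegral ℚ x := isAlgebraic_iff_isIntegral.1 ⟨P, hP, hx⟩
  have iy : IsIntegral ℚ y := isAlgebraic_iff_isIntegral.1 ⟨P, hP, hy⟩
  constructor
  · intro h
    have := adjoin.finiteDimensional ix
    have := adjoin.finiteDimensional iy
    have h1 : x / y ∈ ℚ⟮x⟯ ⊔ ℚ⟮y⟯ :=
      div_mem ((le_sup_left : ℚ⟮x⟯ ≤ ℚ⟮x⟯ ⊔ ℚ⟮y⟯) (mem_adjoin_simple_self ℚ x))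
        ((le_sup_right : ℚ⟮y⟯ ≤ ℚ⟮x⟯ ⊔ ℚ⟮y⟯) (mem_adjoin_simple_self ℚ y))
    have i3 : IsIntegral ℚ (x / y) := by
      have h3 : IsIntegral ℚ (⟨x / y, h1⟩ : (ℚ⟮x⟯ ⊔ ℚ⟮y⟯ : IntermediateField ℚ C)) := IsIntegral.of_finite ℚ _
      exact (isIntegral_iff).1 h3
    have h2 : Module.finrank ℚ ℚ⟮x / y⟯ ≤ b * b := by
      calc Module.finrank ℚ ℚ⟮x / y⟯ ≤ Module.finrank ℚ ↥(ℚ⟮x⟯ ⊔ ℚ⟮y⟯) :=
            finrank_le_of_le_right (adjoin_simple_le_iff.2 h1)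
        _ ≤ Module.finrank ℚ ℚ⟮x⟯ * Module.finrank ℚ ℚ⟮y⟯ := finrank_sup_le _ _
        _ ≤ b * b := by
          refine Nat.mul_le_mul ?_ ?_
          · rw [adjoin.finrank ix]
            exact (Polynomial.natDegree_le_of_dvd (minpoly.dvd ℚ x hx) hP).trans hb
          · rw [adjoin.finrank iy]
            exact (Polynomial.natDegree_le_of_dvd (minpoly.dvd ℚ y hy) hP).trans hb
    rw [adjoin.finrank i3] at h2
    exact pow_expo (minpoly ℚ (x / y)) (minpoly.ne_zero i3) (b * b) h2 _ (minpoly.aeval ℚ _) d hd h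
  · intro h
    exact pow_expo P hP (b * b) (hb.trans (Nat.le_mul_self b)) x hx d hd h

end Pool.Agent.H40TG
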