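import Mathlib
import Pool.Agent.H40ZL.Defs
import Pool.Agent.H40ZL.A1
import Pool.Agent.H40ZL.A4
import Pool.Agent.H40TG.Defs

/-!
# Stub X1: the Lie algebra of the torus generated by `g`
-/

set_option autoImplicit false
set_option linter.unusedSectionVars false
set_option linter.unnecessarySimpa false

namespace Pool.Agent.H40TG

open Matrix Pool.Agent.H40ZL

namespace X1

variable {k : Type*} [Field k] [CharZero k] {n : Type*} [Fintype n] [DecidableEq n]

/-- the algebra homomorphism `[c] ↦ c ^ i` -/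
noncomputable def ev (k : Type*) [Field k] (i : ℕ) : MonoidAlgebra k kˣ →ₐ[k] k :=
  MonoidAlgebra.lift k k kˣ
    { toFun := fun c => (c : k) ^ i
      map_one' := by simp
      map_mul' := fun a b => by simp [mul_pow] }

theorem ev_single (i : ℕ) (c : kˣ) (p : k) : ev k i (MonoidAlgebra.single c p) = p * (c : k) ^ i := by
  simp [ev]

theorem ev_apply (i : ℕ) (f : MonoidAlgebra k kˣ) :
    ev k i f = ∑ c ∈ f.coeff.support, f.coeff c * (c : k) ^ i := by
  show (MonoidAlgebra.lift k k kˣ _) f = _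
  rw [MonoidAlgebra.lift_apply]
  rfl

theorem eq_zero_of_ev (f : MonoidAlgebra k kˣ) (h : ∀ i : ℕ, ev k i f = 0) : f = 0 := by
  classical
  have key := expPoly_indep (f.coeff.support.image (fun c : kˣ => (c : k)))
    (fun c hc => by
      obtain ⟨a, -, rfl⟩ := Finset.mem_image.mp hc
      exact a.ne_zero)
    (fun c => if hc : c = 0 then 0 else Polynomial.C (f.coeff (Units.mk0 c hc)))
    (fun i => by
      rw [Finset.sum_image (fun a _ b _ hab => Units.ext hab)]
      have h1 := h i
      rw [ev_apply] at h1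
      refine Eq.trans ?_ h1
      refine Finset.sum_congr rfl fun c _ => ?_
      simp [mul_comm])
  rw [← MonoidAlgebra.coeff_eq_zero]
  ext1 c
  by_contra hc
  have h2 := key c (Finset.mem_image.mpr ⟨c, Finsupp.mem_support_iff.mpr hc, rfl⟩)
  simp only [Units.ne_zero, dite_false, Units.mk0_val] at h2
  exact hc (Polynomial.C_eq_zero.mp h2)

/-- the algebra homomorphism `[c] ↦ 1 + φ(c) ε` -/
noncomputable def du (φ : Additive kˣ →+ k) : MonoidAlgebra k kˣ →ₐ[k] TrivSqZeroExt k k :=
  MonoidAlgebra.lift k (TrivSqZeroExt k k) kˣ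
    { toFun := fun c => TrivSqZeroExt.inl 1 + TrivSqZeroExt.inr (φ (Additive.ofMul c))
      map_one' := by simp
      map_mul' := fun a b => by
        ext
        · simp
        · simp [add_comm] }

theorem du_single (φ : Additive kˣ →+ k) (c : kˣ) (p : k) :
    du φ (MonoidAlgebra.single c p) =
      p • (TrivSqZeroExt.inl 1 + TrivSqZeroExt.inr (φ (Additive.ofMul c)) : TrivSqZeroExt k k) := by
  simp [du]

theorem chain (y ν : Matrix n n k) (v : n × n → TrivSqZeroExt k k) (h0 : ∀ q, (v q).fst = y q.1 q.2)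
    (h1 : ∀ q, (v q).snd = (y * ν) q.1 q.2) (P : MvPolynomial (n × n) k) :
    (MvPolynomial.aeval v P).fst = evm y P ∧ (MvPolynomial.aeval v P).snd = evm y (genD ν P) := by
  have hD : ∀ q : n × n, evm y (genD ν (MvPolynomial.X q)) = (y * ν) q.1 q.2 := by
    intro q
    rw [genD, MvPolynomial.mkDerivation_X, map_sum, Matrix.mul_apply]
    refine Finset.sum_congr rfl fun l _ => ?_
    rw [map_mul, evm, MvPolynomial.aeval_X, MvPolynomial.aeval_C]
    rfl
  induction P using MvPolynomial.induction_on with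
  | C a =>
    constructor
    · rw [MvPolynomial.aeval_C, evm, MvPolynomial.aeval_C]
      rfl
    · have : genD ν (MvPolynomial.C a : MvPolynomial (n × n) k) = 0 := by
        have := (genD ν).map_algebraMap a
        simpa using this
      rw [this, MvPolynomial.aeval_C, map_zero]
      rfl
  | add p q hp hq =>
    refine ⟨?_, ?_⟩
    · rw [map_add, TrivSqZeroExt.fst_add, hp.1, hq.1, map_add]
    · rw [map_add, TrivSqZeroExt.snd_add, hp.2, hq.2, map_add, map_add]
  | mul_X p q hp =>
    have hX : evm y (MvPolynomial.X q : MvPolynomial (n × n) k) = y q.1 q.2 := by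
      rw [evm, MvPolynomial.aeval_X]
    refine ⟨?_, ?_⟩
    · rw [map_mul, TrivSqZeroExt.fst_mul, hp.1, map_mul, MvPolynomial.aeval_X, h0, hX]
    · have h2 : evm y (genD ν (p * MvPolynomial.X q)) =
          evm y p * (y * ν) q.1 q.2 + y q.1 q.2 * evm y (genD ν p) := by
        rw [(genD ν).leibniz, map_add, smul_eq_mul (a := p), smul_eq_mul (a := (MvPolynomial.X q : MvPolynomial (n × n) k)),
          map_mul, map_mul, hX, hD]
      rw [h2, map_mul, MvPolynomial.aeval_X, TrivSqZeroExt.snd_mul, hp.1, hp.2, h0, h1]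
      simp only [smul_eq_mul, MulOpposite.smul_eq_mul_unop, MulOpposite.unop_op]
      ring

end X1

open X1

theorem tangent_phi {k : Type*} [Field k] [IsAlgClosed k] [CharZero k] {n : Type*} [Fintype n] [DecidableEq n]
    (S : Set (Matrix n n k)) (g : Matrix n n k) (hS : ∀ y ∈ S, ∀ i : ℕ, y * g ^ i ∈ S) (hu : IsUnit g)
    (hgs : Module.End.IsSemisimple (Matrix.toLin' g)) (φ : Additive kˣ →+ k) :
    ∃ X : Matrix n n k, IsTangent S X ∧
      ∀ (μ : kˣ) (v : n → k), g *ᵥ v = (μ : k) • v → X *ᵥ v = φ (Additive.ofMul μ) • v := by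
  classical
  obtain ⟨P, d, hP, hPg⟩ := A4.diag g hgs
  obtain ⟨Pu, rfl⟩ := hP
  set P : Matrix n n k := (Pu : Matrix n n k) with hPdef
  set Q : Matrix n n k := ((Pu⁻¹ : (Matrix n n k)ˣ) : Matrix n n k) with hQdef
  have hPQ : P * Q = 1 := Pu.mul_inv
  have hQP : Q * P = 1 := Pu.inv_mul
  have hd : ∀ a, d a ≠ 0 := by
    have h1 : IsUnit (Matrix.diagonal d) := by
      have h2 : Matrix.diagonal d = P * g * Q := by rw [hPg, mul_assoc, hPQ, mul_one]
      rw [h2]
      exact (Pu.isUnit.mul hu).mul (Pu⁻¹).isUnit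
    rw [Matrix.isUnit_iff_isUnit_det, Matrix.det_diagonal, isUnit_iff_ne_zero, Finset.prod_ne_zero_iff] at h1
    exact fun a => h1 a (Finset.mem_univ a)
  have hg' : ∀ i : ℕ, g ^ i = Q * Matrix.diagonal (fun a => d a ^ i) * P := by
    intro i
    have h1 : P * g ^ i = Matrix.diagonal (fun a => d a ^ i) * P := by
      induction i with
      | zero => simp
      | succ i ih =>
        rw [pow_succ, ← mul_assoc, ih, mul_assoc, hPg, ← mul_assoc, Matrix.diagonal_mul_diagonal]
        simp only [pow_succ]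
    rw [mul_assoc, ← h1, ← mul_assoc, hQP, one_mul]
  let U : n → kˣ := fun a => Units.mk0 (d a) (hd a)
  let D : Matrix n n k := Matrix.diagonal (fun a => φ (Additive.ofMul (U a)))
  refine ⟨Q * D * P, ?_, ?_⟩
  · intro P₀ hP₀ y hy
    let E : n × n → MonoidAlgebra k kˣ := fun q => ∑ l, MonoidAlgebra.single (U l) ((y * Q) q.1 l * P l q.2)
    have hEi : ∀ (i : ℕ) (q : n × n), ev k i (E q) = (y * g ^ i) q.1 q.2 := by
      intro i q
      rw [map_sum, hg', ← mul_assoc, ← mul_assoc, Matrix.mul_apply]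
      refine Finset.sum_congr rfl fun l _ => ?_
      rw [ev_single, Matrix.mul_diagonal]
      show _ * _ * d l ^ i = _
      ring
    have hΦ : MvPolynomial.aeval E P₀ = 0 := by
      apply eq_zero_of_ev
      intro i
      have h2 : ((ev k i).comp (MvPolynomial.aeval E) : MvPolynomial (n × n) k →ₐ[k] k) = evm (y * g ^ i) := by
        apply MvPolynomial.algHom_ext
        intro q
        rw [AlgHom.comp_apply, MvPolynomial.aeval_X, hEi, evm, MvPolynomial.aeval_X]
      have h3 := congrArg (fun ψ : MvPolynomial (n × n) k →ₐ[k] k => ψ P₀) h2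
      have h4 : ev k i (MvPolynomial.aeval E P₀) = evm (y * g ^ i) P₀ := h3
      rw [h4]
      exact hP₀ _ (hS y hy i)
    have h4 : MvPolynomial.aeval (fun q => du φ (E q)) P₀ = 0 := by
      have h6 : (MvPolynomial.aeval (fun q => du φ (E q)) : MvPolynomial (n × n) k →ₐ[k] TrivSqZeroExt k k) =
          (du φ).comp (MvPolynomial.aeval E) := by
        apply MvPolynomial.algHom_ext
        intro q
        rw [AlgHom.comp_apply, MvPolynomial.aeval_X, MvPolynomial.aeval_X]
      rw [h6, AlgHom.comp_apply, hΦ, map_zero]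
    have hE0 : ∀ q : n × n, du φ (E q) = ∑ l, ((y * Q) q.1 l * P l q.2) •
        (TrivSqZeroExt.inl 1 + TrivSqZeroExt.inr (φ (Additive.ofMul (U l))) : TrivSqZeroExt k k) := by
      intro q
      rw [map_sum]
      refine Finset.sum_congr rfl fun l _ => ?_
      rw [du_single]
    have h7 := chain y (Q * D * P) (fun q => du φ (E q)) ?_ ?_ P₀
    · rw [← h7.2, h4]
      rfl
    · intro q
      simp only [hE0]
      rw [TrivSqZeroExt.fst_sum]
      have h8 : y q.1 q.2 = ((y * Q) * P) q.1 q.2 := by rw [mul_assoc, hQP, mul_one]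
      rw [h8, Matrix.mul_apply]
      refine Finset.sum_congr rfl fun l _ => ?_
      simp
    · intro q
      simp only [hE0]
      rw [TrivSqZeroExt.snd_sum, ← mul_assoc, ← mul_assoc, Matrix.mul_apply]
      refine Finset.sum_congr rfl fun l _ => ?_
      rw [Matrix.mul_diagonal]
      simp only [TrivSqZeroExt.snd_smul, TrivSqZeroExt.snd_add, TrivSqZeroExt.snd_inl, TrivSqZeroExt.snd_inr,
        zero_add, smul_eq_mul]
      ring
  · intro μ v hv
    have h1 : ∀ l, d l * (P *ᵥ v) l = (μ : k) * (P *ᵥ v) l := by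
      intro l
      have h2 : (P * g) *ᵥ v = (μ : k) • (P *ᵥ v) := by
        rw [← Matrix.mulVec_mulVec, hv, Matrix.mulVec_smul]
      rw [hPg, ← Matrix.mulVec_mulVec] at h2
      have h3 := congrFun h2 l
      rw [Matrix.mulVec_diagonal] at h3
      exact h3
    have h2 : D *ᵥ (P *ᵥ v) = φ (Additive.ofMul μ) • (P *ᵥ v) := by
      ext l
      rw [Matrix.mulVec_diagonal, Pi.smul_apply, smul_eq_mul]
      by_cases h0 : (P *ᵥ v) l = 0
      · rw [h0, mul_zero, mul_zero]
      · have h3 : U l = μ := Units.ext (mul_right_cancel₀ h0 (h1 l))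
        rw [h3]
    rw [← Matrix.mulVec_mulVec, ← Matrix.mulVec_mulVec, h2, Matrix.mulVec_smul, Matrix.mulVec_mulVec, hQP,
      Matrix.one_mulVec]

end Pool.Agent.H40TG
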