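import Mathlib
import Pool.Agent.H40TG.Defs

set_option autoImplicit false

/-! X2: homomorphisms from the multiplicative group of a field of characteristic zero to its additive group. -/

namespace Pool.Agent.H40TG

/-- **X2.** If `μ` is not a root of unity there is a homomorphism `φ : kˣ → k` with `φ(μ) ≠ 0`. -/
theorem exists_phi {k : Type*} [Field k] [CharZero k] (μ : kˣ) (hμ : ∀ d : ℕ, 0 < d → μ ^ d ≠ 1) :
    ∃ φ : Additive kˣ →+ k, φ (Additive.ofMul μ) ≠ 0 := by
  have hinj : Function.Injective (zmultiplesHom (Additive kˣ) (Additive.ofMul μ)) := by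
    rw [injective_iff_map_eq_zero]
    intro n hn
    rw [zmultiplesHom_apply] at hn
    by_contra hne
    have h1 : μ ^ n = 1 := by
      have h2 : Additive.ofMul (μ ^ n) = n • Additive.ofMul μ := rfl
      have h3 : Additive.ofMul (μ ^ n) = 0 := h2.trans hn
      exact h3
    have h4 : μ ^ n.natAbs = 1 := by
      rcases Int.natAbs_eq n with h | h
      · rw [h, zpow_natCast] at h1
        exact h1
      · rw [h, zpow_neg, zpow_natCast, inv_eq_one] at h1
        exact h1
    exact hμ n.natAbs (Int.natAbs_pos.2 hne) h4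
  have hB : Module.Baer ℤ k := Module.Baer.of_divisible k
  obtain ⟨φ, hφ⟩ := hB.extension_property_addMonoidHom
    (zmultiplesHom (Additive kˣ) (Additive.ofMul μ)) hinj (Int.castAddHom k)
  refine ⟨φ, ?_⟩
  have h5 := DFunLike.congr_fun hφ 1
  have h6 : φ (Additive.ofMul μ) = 1 := by
    simpa using h5
  rw [h6]
  exact one_ne_zero

end Pool.Agent.H40TG
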