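import Mathlib
import Pool.Agent.H40TG.B1
import Pool.Agent.H40TG.E1
import Pool.Agent.H40TG.J4
import Pool.Agent.H40TG.M1
import Pool.Agent.H40TG.N1
import Pool.Agent.H40TG.N2
import Pool.Agent.H40TG.R1
import Pool.Agent.H40TG.S1
import Pool.Agent.H40TG.T1
import Pool.Agent.H40TG.T2a
import Pool.Agent.H40TG.U1
import Pool.Agent.H40TG.X1
import Pool.Agent.H40TG.X2

/-!
# T2 and M1
-/

set_option autoImplicit false

namespace Pool.Agent.H40TG

open Matrix Pool.Agent.H40ZL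

theorem torus' {k : Type*} [Field k] [IsAlgClosed k] [CharZero k] {n : Type*} [Fintype n] [DecidableEq n]
    (A : Set (Matrix n n k)) (L : Submodule k (Matrix n n k)) (h : Setup A L) (g : Matrix n n k) (hg : g ∈ A)
    (hgs : Module.End.IsSemisimple (Matrix.toLin' g)) (hS : ∀ X ∈ L, Single g X) (T : Matrix n n k) (hT : T ∈ L)
    (hc : g * T = T * g) (μ : k) (v : n → k) (hv : g *ᵥ v = μ • v) : ∃ β : k, T *ᵥ v = β • v :=
  torus_of A L h g hg hgs hS (fun ν hν hc hn => nil_zero A L h g hg hgs hS ν hν hc hn) T hT hc μ v hv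

theorem main_vec {k : Type*} [Field k] [IsAlgClosed k] [CharZero k] {n : Type*} [Fintype n] [DecidableEq n]
    (A : Set (Matrix n n k)) (L : Submodule k (Matrix n n k)) (h : Setup A L) (g : Matrix n n k) (hg : g ∈ A)
    (hgs : Module.End.IsSemisimple (Matrix.toLin' g)) (hS : ∀ X ∈ L, Single g X)
    (hroot : ∀ (c : k) (d : ℕ) (M : Matrix n n k), 0 < d → c ^ d = 1 → M ≠ 0 → g * M = c • (M * g) → c = 1) :
    ∃ X ∈ L, ∀ w : n → k, g *ᵥ w = w → g *ᵥ (X *ᵥ w) = X *ᵥ w → ∀ Z ∈ L, Z *ᵥ w = 0 :=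
  main_vec_of A L h g hg hgs hS hroot (fun T hT hc μ v hv => torus' A L h g hg hgs hS T hT hc μ v hv)
    (fun X hX hn c hc hgX => triple A L h g hg hgs X hX hn c hc hgX)
    (fun X Y H h1 h2 h3 w => sl2 X Y H h1 h2 h3 w)

end Pool.Agent.H40TG
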