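import Mathlib
import Pool.Agent.H40TG.Defs
import Pool.Agent.H40ZL.NullSet

/-!
# Generic elements for matrices of representative functions
-/

set_option autoImplicit false
set_option linter.unusedSectionVars false
set_option linter.style.haveILetI false

namespace Pool.Agent.H40TG

open Matrix Pool.Agent.H40ZL Pool.Agent.H40GO Pool.Agent.H40LT MeasureTheory

section

variable {R R' : Type*} [CommRing R] [CommRing R'] {n : Type*} [Fintype n] [DecidableEq n]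

theorem psi_map (f : R →+* R') (x : Matrix n n R) : (psi x).map f = psi (x.map f) := by
  have h1 : f x.det = (x.map f).det := RingHom.map_det f x
  have h2 : x.adjugate.map f = (x.map f).adjugate := RingHom.map_adjugate f x
  unfold psi
  rw [Matrix.fromBlocks_map, Matrix.fromBlocks_map, ← h1, ← h2]
  congr 1
  · ext i j
    simp [Matrix.one_apply]
  · ext i j
    simp
  · ext i j
    simp
  congr 1
  · ext i j
    simp
  · ext i j
    simp
  · ext i j
    simp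
  · ext i j
    simp [Matrix.kroneckerMap_apply]

end

section

variable {G : Type*} [Field G] [CharZero G] [TopologicalSpace G] [IsTopologicalRing G] [T2Space G] [IsAlgClosed G]
  {Γ : Type*} [Group Γ] [TopologicalSpace Γ] [IsTopologicalGroup Γ] [CompactSpace Γ] [MeasurableSpace Γ]
  [BorelSpace Γ]

/-- the zero set in `Δ` of a representative function which is not zero on `Δ` is closed and null -/
theorem fun_null {k : Type*} [Fintype k] [DecidableEq k] (U : Γ →* Matrix k k G) (hU : Continuous U) (μ : Measure Γ)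
    [IsFiniteMeasure μ] [μ.IsMulLeftInvariant] [μ.InnerRegularCompactLTTop] (Δ : Subgroup Γ)
    (hΔo : IsOpen (Δ : Set Γ)) (hΔ : ConnOn (coefAlg U 1) Δ) (f : Γ → G) (hf : f ∈ coefAlg U 1) (x₁ : Γ)
    (hx₁ : x₁ ∈ Δ) (hne : f x₁ ≠ 0) :
    IsClosed ({x | f x = 0} ∩ (Δ : Set Γ)) ∧ μ ({x | f x = 0} ∩ (Δ : Set Γ)) = 0 := by
  have hopf := coefAlg_hopf U 1
  haveI : Algebra.FiniteType G (coefAlg U 1) := (coefAlg U 1).fg_iff_finiteType.mp hopf.fg
  haveI : IsNoetherianRing (coefAlg U 1) := Algebra.FiniteType.isNoetherianRing G (coefAlg U 1)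
  have hcont : ∀ r ∈ coefAlg U 1, Continuous r := cont_coefAlg U hU
  refine ⟨(isClosed_singleton.preimage (hcont f hf)).inter (Δ.isClosed_of_isOpen hΔo), ?_⟩
  by_contra hcon
  exact hne (null_zero_on μ (coefAlg U 1) hopf.comul hcont Δ hΔo hΔ f hf hcon x₁ hx₁)

theorem generic_mat {k : Type*} [Fintype k] [DecidableEq k] (U : Γ →* Matrix k k G) (hU : Continuous U) (μ : Measure Γ)
    [IsFiniteMeasure μ] [μ.IsMulLeftInvariant] [μ.InnerRegularCompactLTTop] (Δ : Subgroup Γ) (hΔn : Δ.Normal)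
    (hΔo : IsOpen (Δ : Set Γ)) (hΔ : ConnOn (coefAlg U 1) Δ) {p : Type*} [Fintype p] [DecidableEq p]
    (M : Γ → Matrix p p G) (hM : ∀ i j, (fun x => M x i j) ∈ coefAlg U 1)
    (hconj : ∀ x τ, (M (τ * x * τ⁻¹)).charpoly = (M x).charpoly) :
      ∃ Z : Set Γ, IsClosed Z ∧ μ Z = 0 ∧ (∀ x ∈ Z, ∀ τ, τ * x * τ⁻¹ ∈ Z) ∧
        ∀ x ∈ Δ, x ∉ Z → ∀ y ∈ Δ, nd G (M y) ≤ nd G (M x) := by
  classical
  obtain ⟨R, hR⟩ : ∃ R, R = coefAlg U 1 := ⟨_, rfl⟩
  rw [← hR] at hM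
  -- the maximum
  obtain ⟨m, ⟨x₁, hx₁, hm⟩, hmax⟩ : ∃ m : ℕ, (∃ x ∈ Δ, nd G (M x) = m) ∧ ∀ y ∈ Δ, nd G (M y) ≤ m := by
    have hne : {m : ℕ | ∃ x ∈ Δ, nd G (M x) = m}.Nonempty := ⟨_, 1, Δ.one_mem, rfl⟩
    have hbd : BddAbove {m : ℕ | ∃ x ∈ Δ, nd G (M x) = m} :=
      ⟨Fintype.card p, by rintro _ ⟨x, -, rfl⟩; exact nd_le _⟩
    exact ⟨_, Nat.sSup_mem hne hbd, fun y hy => le_csSup hbd ⟨y, hy, rfl⟩⟩
  obtain ⟨j, hj⟩ : ∃ j, (hank m (M x₁)).coeff j ≠ 0 := by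
    by_contra hcon
    push Not at hcon
    have h1 := hank_ne_zero (M x₁)
    rw [hm] at h1
    exact h1 (Polynomial.ext hcon)
  obtain ⟨f, hf, hfe⟩ : ∃ f : Γ → G, f ∈ R ∧ ∀ x, f x = (hank m (M x)).coeff j := by
    refine ⟨((hank m (matA R M hM)).coeff j : R), Subtype.property _, fun x => ?_⟩
    have h1 := hank_map ((ev R x : R →ₐ[G] G) : R →+* G) m (matA R M hM)
    have h2 : (matA R M hM).map ((ev R x : R →ₐ[G] G) : R →+* G) = M x := matA_ev R M hM x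
    rw [h2] at h1
    rw [← h1, Polynomial.coeff_map]
    rfl
  obtain ⟨hclosed, hnull⟩ := fun_null U hU μ Δ hΔo hΔ f (hR ▸ hf) x₁ hx₁ (by rw [hfe]; exact hj)
  obtain ⟨B, hB⟩ : ∃ B : Set Γ, B = {x | x ∈ Δ ∧ nd G (M x) < m} := ⟨_, rfl⟩
  have hBsub : closure B ⊆ {x | f x = 0} ∩ (Δ : Set Γ) := by
    refine closure_minimal ?_ hclosed
    rw [hB]
    rintro x ⟨hx1, hx2⟩
    refine ⟨?_, hx1⟩
    change f x = 0
    rw [hfe, hank_zero _ _ hx2, Polynomial.coeff_zero]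
  have hBconj : ∀ x ∈ B, ∀ τ, τ * x * τ⁻¹ ∈ B := by
    rw [hB]
    rintro x ⟨hx1, hx2⟩ τ
    refine ⟨hΔn.conj_mem x hx1 τ, ?_⟩
    unfold nd at hx2 ⊢
    rw [hconj]
    exact hx2
  refine ⟨closure B, isClosed_closure, measure_mono_null hBsub hnull, ?_, ?_⟩
  · intro x hx τ
    have hc : Continuous fun y : Γ => τ * y * τ⁻¹ := by fun_prop
    exact map_mem_closure (f := fun y : Γ => τ * y * τ⁻¹) hc hx fun y hy => hBconj y hy τ
  · intro x hx hxZ y hy
    refine (hmax y hy).trans ?_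
    by_contra hcon
    apply hxZ
    apply subset_closure
    rw [hB]
    exact ⟨hx, not_le.mp hcon⟩

end

end Pool.Agent.H40TG
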