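import Mathlib
import Pool.Agent.H40TG.Defs
import Pool.Agent.H40TG.All
import Pool.Agent.H40TG.Gen

/-!
# The algebraic core
-/

set_option autoImplicit false
set_option linter.unusedSectionVars false
set_option linter.style.haveILetI false

namespace Pool.Agent.H40TG

open Matrix Pool.Agent.H40ZL Pool.Agent.H40GO Pool.Agent.H40LT Module

section

variable {k : Type*} [Field k] {n : Type*} [Fintype n] [DecidableEq n]

theorem exists_QP (T : Matrix n n k) (q : ℕ) (h : q ≤ T.rank) :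
    ∃ (Q : Matrix (Fin q) n k) (P : Matrix n (Fin q) k), Q * T * P = 1 := by
  classical
  have h1 : T.rank = finrank k (LinearMap.range T.mulVecLin) := rfl
  rw [h1] at h
  let b := Module.finBasis k (LinearMap.range T.mulVecLin)
  have hb : LinearIndependent k fun i : Fin q => ((b (Fin.castLE h i) : LinearMap.range T.mulVecLin) : n → k) := by
    have h2 : LinearIndependent k fun i => ((b i : LinearMap.range T.mulVecLin) : n → k) :=
      b.linearIndependent.map' (Submodule.subtype _) (Submodule.ker_subtype _)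
    exact h2.comp _ (Fin.castLE_injective h)
  choose p hp using fun i : Fin q => (b (Fin.castLE h i)).2
  obtain ⟨t, ht⟩ : ∃ t : Fin q → n → k, t = fun i => ((b (Fin.castLE h i) : LinearMap.range T.mulVecLin) : n → k) :=
    ⟨_, rfl⟩
  have hinj : LinearMap.ker (Fintype.linearCombination k t) = ⊥ := by
    rw [ht, LinearMap.ker_eq_bot']
    intro c hc
    rw [Fintype.linearCombination_apply] at hc
    funext i
    exact Fintype.linearIndependent_iff.mp hb c hc i
  obtain ⟨Q, hQ⟩ := LinearMap.exists_leftInverse_of_injective _ hinj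
  refine ⟨LinearMap.toMatrix' Q, Matrix.of fun i j => p j i, ?_⟩
  apply Matrix.toLin'.injective
  apply LinearMap.pi_ext'
  intro j
  apply LinearMap.ext_ring
  rw [LinearMap.comp_apply, LinearMap.comp_apply, Matrix.toLin'_apply, Matrix.toLin'_one, LinearMap.id_apply]
  have h3 : (LinearMap.toMatrix' Q * T * (Matrix.of fun i j => p j i : Matrix n (Fin q) k)) *ᵥ
      (LinearMap.single k (fun _ : Fin q => k) j 1) = Q (t j) := by
    rw [LinearMap.single_apply, ← Matrix.mulVec_mulVec, ← Matrix.mulVec_mulVec, Matrix.mulVec_single_one]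
    have h4 : (Matrix.of fun i j => p j i : Matrix n (Fin q) k).col j = p j := rfl
    rw [h4]
    have h5 : T *ᵥ p j = t j := by
      rw [ht]
      exact hp j
    rw [h5, ← Matrix.toLin'_apply, Matrix.toLin'_toMatrix']
  rw [h3]
  have h6 := LinearMap.congr_fun hQ (Pi.single j 1)
  rw [LinearMap.comp_apply, LinearMap.id_apply, Fintype.linearCombination_apply_single, one_smul] at h6
  rw [h6]
  rfl

theorem finrank_le (W F : Submodule k (n → k)) (T : (n → k) →ₗ[k] (n → k)) (h : ∀ w ∈ W, T w = 0 → w ∈ F) :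
    finrank k W ≤ finrank k (LinearMap.range T) + finrank k F := by
  have h1 := LinearMap.finrank_range_add_finrank_ker (T.domRestrict W)
  have h2 : finrank k (LinearMap.range (T.domRestrict W)) ≤ finrank k (LinearMap.range T) := by
    apply Submodule.finrank_mono
    rintro _ ⟨w, rfl⟩
    exact ⟨w, rfl⟩
  have h3 : finrank k (LinearMap.ker (T.domRestrict W)) ≤ finrank k F := by
    let φ : LinearMap.ker (T.domRestrict W) →ₗ[k] F :=
      { toFun := fun w => ⟨(w : W), h _ (w : W).2 w.2⟩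
        map_add' := fun _ _ => rfl
        map_smul' := fun _ _ => rfl }
    apply LinearMap.finrank_le_finrank_of_injective (f := φ)
    intro a b hab
    apply Subtype.ext
    apply Subtype.ext
    exact congrArg (fun z : F => (z : n → k)) hab
  omega

theorem setup_tan [CharZero k] {Γ : Type*} [Group Γ] (ρ : Γ →* Matrix n n k) (hss : SSimple (Set.range ρ))
    (D : Subgroup Γ) [hDn : D.Normal] : Setup (Set.range ρ) (tanS (ρ '' (D : Set Γ))) := by
  have hinv : ∀ x : Γ, ρ x * ρ x⁻¹ = 1 := fun x => by rw [← map_mul, mul_inv_cancel, map_one]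
  have hinv' : ∀ x : Γ, ρ x⁻¹ * ρ x = 1 := fun x => by rw [← map_mul, inv_mul_cancel, map_one]
  refine ⟨hss, ⟨1, map_one ρ⟩, ?_, ?_, ?_, ?_, ?_⟩
  · rintro _ ⟨x, rfl⟩ _ ⟨y, rfl⟩
    exact ⟨x * y, map_mul ρ x y⟩
  · rintro _ ⟨x, rfl⟩
    exact ⟨ρ x⁻¹, ⟨_, rfl⟩, hinv x⟩
  · intro X hX Y hY
    exact (tangent_add _ X Y hX hY).2.2
  · rintro _ ⟨a, rfl⟩ _ ⟨b, rfl⟩ hab X hX
    have h1 : ρ b = ρ a⁻¹ := by
      calc ρ b = (ρ a⁻¹ * ρ a) * ρ b := by rw [hinv', one_mul]
        _ = ρ a⁻¹ := by rw [mul_assoc, hab, mul_one]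
    refine tangent_conj _ (ρ a) (ρ b) hab ?_ ?_ X hX
    · rintro _ ⟨y, hy, rfl⟩
      exact ⟨a * y * a⁻¹, hDn.conj_mem y hy a, by rw [map_mul, map_mul, h1]⟩
    · rintro _ ⟨y, hy, rfl⟩
      refine ⟨a⁻¹ * y * a, ?_, by rw [map_mul, map_mul, h1]⟩
      have := hDn.conj_mem y hy a⁻¹
      rwa [inv_inv] at this
  · intro X hX
    have h1 := tangent_mem_span (ρ '' (D : Set Γ)) ⟨1, D.one_mem, map_one ρ⟩ X hX
    exact Submodule.span_mono (Set.image_subset_range ρ _) h1

/-- **The algebraic core.** -/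
theorem core_rank [IsAlgClosed k] [CharZero k] {Γ : Type*} [Group Γ] (ρ : Γ →* Matrix n n k)
    (hss : SSimple (Set.range ρ)) (D : Subgroup Γ) [hDn : D.Normal] (σ : Γ) (hσ : σ ∈ D)
    (hmax : ∀ x ∈ D, nd k (psi (ρ x)) ≤ nd k (psi (ρ σ)))
    (hsem : Module.End.IsSemisimple (Matrix.toLin' (ρ σ)))
    (hroot : ∀ (c : k) (d : ℕ) (M : Matrix n n k), 0 < d → c ^ d = 1 → M ≠ 0 → ρ σ * M = c • (M * ρ σ) → c = 1)
    (F : Submodule k (n → k)) (hF : ∀ v, (∀ Z ∈ tanS (ρ '' (D : Set Γ)), Z *ᵥ v = 0) → v ∈ F)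
    (e : Matrix n n k) (he1 : ∀ v, ρ σ *ᵥ (e *ᵥ v) = e *ᵥ v) (he2 : ∀ w, ρ σ *ᵥ w = w → e *ᵥ w = w) :
    ∃ x ∈ D, finrank k (LinearMap.ker (Matrix.toLin' (ρ σ - 1))) ≤ ((ρ σ - 1) * ρ x * e).rank + finrank k F := by
  have hunit : ∀ x : Γ, IsUnit (ρ x) := fun x => ⟨⟨ρ x, ρ x⁻¹, by rw [← map_mul, mul_inv_cancel, map_one],
    by rw [← map_mul, inv_mul_cancel, map_one]⟩, rfl⟩
  by_contra hcon
  push Not at hcon
  obtain ⟨X, hX, hX2⟩ := main_vec (Set.range ρ) (tanS (ρ '' (D : Set Γ))) (setup_tan ρ hss D) (ρ σ) ⟨σ, rfl⟩ hsem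
    (fun X hX => single_of_max (ρ '' (D : Set Γ)) (ρ σ) ⟨σ, hσ, rfl⟩ (hunit σ) (by
      rintro _ ⟨x, hx, rfl⟩
      exact hmax x hx) X hX) hroot
  have h1 : finrank k (LinearMap.ker (Matrix.toLin' (ρ σ - 1))) ≤ ((ρ σ - 1) * X * e).rank + finrank k F := by
    refine finrank_le _ F (Matrix.mulVecLin ((ρ σ - 1) * X * e)) ?_
    intro w hw h2
    have hw' : ρ σ *ᵥ w = w := by
      rw [LinearMap.mem_ker, Matrix.toLin'_apply, Matrix.sub_mulVec, Matrix.one_mulVec] at hw
      exact sub_eq_zero.mp hw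
    rw [Matrix.mulVecLin_apply, ← Matrix.mulVec_mulVec, he2 w hw', ← Matrix.mulVec_mulVec, Matrix.sub_mulVec,
      Matrix.one_mulVec] at h2
    exact hF w (hX2 w hw' (sub_eq_zero.mp h2))
  have h0 := hcon 1 D.one_mem
  have hue : (ρ σ - 1) * e = 0 := by
    apply Matrix.toLin'.injective
    apply LinearMap.ext
    intro v
    rw [Matrix.toLin'_apply, ← Matrix.mulVec_mulVec, Matrix.sub_mulVec, Matrix.one_mulVec, he1, sub_self, map_zero,
      LinearMap.zero_apply]
  have h2 := rank_tangent (ρ '' (D : Set Γ)) ⟨1, D.one_mem, map_one ρ⟩ X hX (ρ σ - 1) e hue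
    (finrank k (LinearMap.ker (Matrix.toLin' (ρ σ - 1))) - finrank k F - 1) (by
      rintro _ ⟨x, hx, rfl⟩
      have := hcon x hx
      omega)
  omega

end

end Pool.Agent.H40TG
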