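import Mathlib
import Pool.Agent.H40GO.Fun

/-!
# Project TG, stub P1: the power map of a connected algebraic group is dominant
-/

set_option autoImplicit false

namespace Pool.Agent.H40TG

open Matrix Pool.Agent.H40GO

namespace P1x

variable {C Γ : Type*} [Field C] [Group Γ] (R : Subalgebra C (Γ → C))

theorem pow_mem (hR : ∀ r ∈ R, Comul R r) (N : ℕ) : ∀ r ∈ R, (fun x => r (x ^ N)) ∈ R := by
  induction N with
  | zero =>
    intro r _
    have e : (fun x : Γ => r (x ^ 0)) = algebraMap C (Γ → C) (r 1) := by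
      funext x
      simp
    rw [e]
    exact R.algebraMap_mem _
  | succ N ih =>
    intro r hr
    obtain ⟨n, u, w, hu, hw, h⟩ := hR r hr
    have e : (fun x : Γ => r (x ^ (N + 1))) = ∑ k, (fun x => u k (x ^ N)) * w k := by
      funext x
      rw [pow_succ, h, Finset.sum_apply]
      rfl
    rw [e]
    exact R.sum_mem fun k _ => R.mul_mem (ih _ (hu k)) (hw k)

/-- the power endomorphism -/
def phi (hR : ∀ r ∈ R, Comul R r) (N : ℕ) : R →ₐ[C] R where
  toFun r := ⟨fun x => r.1 (x ^ N), pow_mem R hR N r.1 r.2⟩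
  map_one' := rfl
  map_mul' _ _ := rfl
  map_zero' := rfl
  map_add' _ _ := rfl
  commutes' _ := rfl

/-- evaluation at the unit element -/
def ev : R →+* C where
  toFun r := r.1 1
  map_one' := rfl
  map_mul' _ _ := rfl
  map_zero' := rfl
  map_add' _ _ := rfl

theorem mem_ker (r : R) : r ∈ RingHom.ker (ev R) ↔ r.1 1 = 0 := Iff.rfl

theorem phi_ker (hR : ∀ r ∈ R, Comul R r) (N : ℕ) (r : R) :
    phi R hR N r - r ∈ RingHom.ker (ev R) := by
  rw [mem_ker]
  change r.1 (1 ^ N) - r.1 1 = 0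
  rw [one_pow, sub_self]

theorem sub_const_mem (r : R) : r - algebraMap C R (r.1 1) ∈ RingHom.ker (ev R) := by
  rw [mem_ker]
  change r.1 1 - r.1 1 = 0
  exact sub_self _

theorem first (hR : ∀ r ∈ R, Comul R r) (N : ℕ) : ∀ r ∈ RingHom.ker (ev R),
    phi R hR N r - (N : R) * r ∈ RingHom.ker (ev R) ^ 2 := by
  induction N with
  | zero =>
    intro r hr
    have e : phi R hR 0 r - ((0 : ℕ) : R) * r = 0 := by
      apply Subtype.ext
      funext x
      change r.1 (x ^ 0) - ((((0 : ℕ) : R) * r : R) : Γ → C) x = 0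
      rw [pow_zero, (mem_ker R r).1 hr]
      simp
    rw [e]
    exact Ideal.zero_mem _
  | succ N ih =>
    intro r hr
    obtain ⟨n, u, w, hu, hw, h⟩ := hR r.1 r.2
    have e : phi R hR (N + 1) r = phi R hR N r + r +
        ∑ k, (phi R hR N ⟨u k, hu k⟩ - algebraMap C R (u k 1)) *
          (⟨w k, hw k⟩ - algebraMap C R (w k 1)) := by
      apply Subtype.ext
      funext x
      have h1 : r.1 1 = 0 := (mem_ker R r).1 hr
      have e0 : ((∑ k, (phi R hR N ⟨u k, hu k⟩ - algebraMap C R (u k 1)) *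
          (⟨w k, hw k⟩ - algebraMap C R (w k 1)) : R) : Γ → C) x =
          ∑ k, (u k (x ^ N) - u k 1) * (w k x - w k 1) := by
        rw [AddSubmonoidClass.coe_finsetSum, Finset.sum_apply]
        rfl
      change r.1 (x ^ (N + 1)) = r.1 (x ^ N) + r.1 x + _
      rw [e0, pow_succ, h]
      have a1 : r.1 (x ^ N) = ∑ k, u k (x ^ N) * w k 1 := by rw [← h, mul_one]
      have a2 : r.1 x = ∑ k, u k 1 * w k x := by rw [← h, one_mul]
      have a3 : (0 : C) = ∑ k, u k 1 * w k 1 := by rw [← h, one_mul, h1]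
      have a4 : ∑ k, (u k (x ^ N) - u k 1) * (w k x - w k 1) =
          ∑ k, u k (x ^ N) * w k x - ∑ k, u k (x ^ N) * w k 1 - ∑ k, u k 1 * w k x +
            ∑ k, u k 1 * w k 1 := by
        rw [← Finset.sum_sub_distrib, ← Finset.sum_sub_distrib, ← Finset.sum_add_distrib]
        exact Finset.sum_congr rfl fun k _ => by ring
      rw [a4, ← a3, ← a1, ← a2]
      ring
    have e2 : phi R hR (N + 1) r - ((N + 1 : ℕ) : R) * r = (phi R hR N r - (N : R) * r) +
        ∑ k, (phi R hR N ⟨u k, hu k⟩ - algebraMap C R (u k 1)) *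
          (⟨w k, hw k⟩ - algebraMap C R (w k 1)) := by
      rw [e]
      push_cast
      ring
    rw [e2]
    refine Ideal.add_mem _ (ih r hr) (Ideal.sum_mem _ fun k _ => ?_)
    rw [pow_two]
    refine Ideal.mul_mem_mul ?_ (sub_const_mem R ⟨w k, hw k⟩)
    have e3 : phi R hR N ⟨u k, hu k⟩ - algebraMap C R (u k 1) =
        (phi R hR N ⟨u k, hu k⟩ - ⟨u k, hu k⟩) + (⟨u k, hu k⟩ - algebraMap C R (u k 1)) := by
      ring
    rw [e3]
    exact Ideal.add_mem _ (phi_ker R hR N _) (sub_const_mem R ⟨u k, hu k⟩)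

theorem second (hR : ∀ r ∈ R, Comul R r) (N l : ℕ) : ∀ r ∈ RingHom.ker (ev R) ^ l,
    phi R hR N r - (N : R) ^ l * r ∈ RingHom.ker (ev R) ^ (l + 1) := by
  induction l with
  | zero =>
    intro r _
    rw [pow_zero, one_mul, zero_add, pow_one]
    exact phi_ker R hR N r
  | succ l ih =>
    intro r hr
    rw [pow_succ] at hr
    refine Submodule.mul_induction_on hr ?_ ?_
    · intro a ha b hb
      have e : phi R hR N (a * b) - (N : R) ^ (l + 1) * (a * b) =
          (phi R hR N a - (N : R) ^ l * a) * phi R hR N b +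
            (N : R) ^ l * a * (phi R hR N b - (N : R) * b) := by
        rw [map_mul]
        ring
      rw [e]
      refine Ideal.add_mem _ ?_ ?_
      · rw [pow_succ _ (l + 1)]
        refine Ideal.mul_mem_mul (ih a ha) ?_
        have h1 := Ideal.add_mem _ (phi_ker R hR N b) hb
        rwa [sub_add_cancel] at h1
      · have e2 : l + 1 + 1 = l + 2 := rfl
        rw [e2, pow_add]
        exact Ideal.mul_mem_mul (Ideal.mul_mem_left _ _ ha) (first R hR N b hb)
    · intro a b ha hb
      have e : phi R hR N (a + b) - (N : R) ^ (l + 1) * (a + b) =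
          (phi R hR N a - (N : R) ^ (l + 1) * a) + (phi R hR N b - (N : R) ^ (l + 1) * b) := by
        rw [map_add]
        ring
      rw [e]
      exact Ideal.add_mem _ ha hb

end P1x

open P1x in
/-- **P1.** The `N`-th power map of a connected algebraic group is dominant. -/
theorem pow_dominant {C Γ : Type*} [Field C] [CharZero C] [Group Γ] (R : Subalgebra C (Γ → C)) [IsNoetherianRing R]
    [IsDomain R] (hR : ∀ r ∈ R, Comul R r) (N : ℕ) (hN : 0 < N) (f : Γ → C) (hf : f ∈ R)
    (h0 : ∀ x, f (x ^ N) = 0) : f = 0 := by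
  classical
  by_contra hne
  have hbot : ⨅ i : ℕ, RingHom.ker (ev R) ^ i = ⊥ := by
    refine Ideal.iInf_pow_eq_bot_of_isDomain _ ?_
    intro h
    have h1 : (1 : R) ∈ RingHom.ker (ev R) := by rw [h]; trivial
    rw [mem_ker] at h1
    exact one_ne_zero h1
  have hex : ∃ l : ℕ, (⟨f, hf⟩ : R) ∉ RingHom.ker (ev R) ^ l := by
    by_contra hcon
    push Not at hcon
    have h1 : (⟨f, hf⟩ : R) ∈ (⨅ i : ℕ, RingHom.ker (ev R) ^ i) := by
      rw [Ideal.mem_iInf]
      exact hcon
    rw [hbot, Ideal.mem_bot] at h1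
    exact hne (congrArg Subtype.val h1)
  have hl := Nat.find_spec hex
  have hmin := fun m (hm : m < Nat.find hex) => not_not.1 (Nat.find_min hex hm)
  obtain ⟨l, hl'⟩ : ∃ l, Nat.find hex = l + 1 := by
    refine Nat.exists_eq_succ_of_ne_zero ?_
    intro h
    rw [h, pow_zero, Ideal.one_eq_top] at hl
    exact hl trivial
  rw [hl'] at hl
  have h1 := second R hR N l ⟨f, hf⟩ (hmin l (by omega))
  have h2 : phi R hR N ⟨f, hf⟩ = 0 := by
    apply Subtype.ext
    funext x
    exact h0 x
  rw [h2, zero_sub, Ideal.neg_mem_iff] at h1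
  have h3 := Ideal.mul_mem_left _ (algebraMap C R (((N : C) ^ l)⁻¹)) h1
  have e : algebraMap C R (((N : C) ^ l)⁻¹) * ((N : R) ^ l * ⟨f, hf⟩) = ⟨f, hf⟩ := by
    have e1 : (N : R) ^ l = algebraMap C R ((N : C) ^ l) := by
      rw [map_pow, map_natCast]
    rw [e1, ← mul_assoc, ← map_mul, inv_mul_cancel₀, map_one, one_mul]
    have : (N : C) ≠ 0 := by exact_mod_cast hN.ne'
    exact pow_ne_zero _ this
  rw [e] at h3
  exact hl h3

end Pool.Agent.H40TG
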