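import Mathlib
import Pool.Agent.H40TG.Core
import Pool.Agent.H40TG.P1

/-!
# Preparations for the final theorem
-/

set_option autoImplicit false
set_option linter.unusedSectionVars false
set_option linter.style.haveILetI false

namespace Pool.Agent.H40TG

open Matrix Pool.Agent.H40ZL Pool.Agent.H40GO Pool.Agent.H40LT Module MeasureTheory

section

variable {G : Type*} [Field G] [CharZero G] [IsAlgClosed G] {Γ : Type*} [Group Γ]

theorem bc_self {n : Type*} [Fintype n] [DecidableEq n] (ρ : Γ →* Matrix n n G) : bc G ρ = ρ := by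
  ext x i j
  rfl

/-- a matrix whose characteristic polynomial is not a power of `X` has an eigenvalue which is not zero -/
theorem exists_eigen {n : Type*} [Fintype n] [DecidableEq n] (M : Matrix n n G) (i : ℕ) (hi : i < Fintype.card n)
    (h : M.charpoly.coeff i ≠ 0) : ∃ (z : G) (v : n → G), v ≠ 0 ∧ M *ᵥ v = z • v ∧ z ≠ 0 := by
  by_contra hcon
  push Not at hcon
  apply h
  have h1 : ∀ z ∈ M.charpoly.roots, z = 0 := by
    intro z hz
    rw [Polynomial.mem_roots (Matrix.charpoly_monic M).ne_zero] at hz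
    have h2 : Module.End.HasEigenvalue (Matrix.toLin' M) z := by
      rw [Module.End.hasEigenvalue_iff_isRoot_charpoly, Matrix.charpoly_toLin']
      exact hz
    obtain ⟨v, hv⟩ := h2.exists_hasEigenvector
    have h3 := hv.apply_eq_smul
    rw [Matrix.toLin'_apply] at h3
    exact hcon z v hv.2 h3
  have h2 : M.charpoly.roots = Multiset.replicate (Multiset.card M.charpoly.roots) 0 :=
    Multiset.eq_replicate_card.mpr h1
  have h3 := (IsAlgClosed.splits M.charpoly).eq_prod_roots_of_monic (Matrix.charpoly_monic M)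
  have h4 : Multiset.card M.charpoly.roots = Fintype.card n := by
    rw [← (IsAlgClosed.splits M.charpoly).natDegree_eq_card_roots, Matrix.charpoly_natDegree_eq_dim]
  rw [h2, h4, Multiset.map_replicate, Multiset.prod_replicate, Polynomial.C_0, sub_zero] at h3
  rw [h3, Polynomial.coeff_X_pow, if_neg hi.ne]

theorem exists_eigen_pow {n : Type*} [Fintype n] [DecidableEq n] (M : Matrix n n G) (k i : ℕ)
    (hi : i < Fintype.card n) (h : (M ^ k - 1).charpoly.coeff i ≠ 0) :
    ∃ (z : G) (v : n → G), v ≠ 0 ∧ M *ᵥ v = z • v ∧ z ^ k ≠ 1 := by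
  obtain ⟨w, v, hv0, hv, hw⟩ := exists_eigen _ i hi h
  let K : Submodule G (n → G) := LinearMap.ker (Matrix.toLin' (M ^ k - 1 - w • (1 : Matrix n n G)))
  have hK : ∀ u, u ∈ K ↔ (M ^ k) *ᵥ u = (1 + w) • u := by
    intro u
    rw [LinearMap.mem_ker, Matrix.toLin'_apply, Matrix.sub_mulVec, Matrix.sub_mulVec, Matrix.one_mulVec,
      Matrix.smul_mulVec, Matrix.one_mulVec, add_smul, one_smul, sub_sub, sub_eq_zero]
  have hst : ∀ u ∈ K, Matrix.toLin' M u ∈ K := by
    intro u hu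
    rw [hK] at hu ⊢
    rw [Matrix.toLin'_apply, Matrix.mulVec_mulVec, ← pow_succ, pow_succ', ← Matrix.mulVec_mulVec, hu,
      Matrix.mulVec_smul]
  have hvK : v ∈ K := by
    rw [hK]
    rw [Matrix.sub_mulVec, Matrix.one_mulVec, sub_eq_iff_eq_add] at hv
    rw [hv, add_smul, one_smul, add_comm]
  haveI : Nontrivial K := ⟨⟨⟨v, hvK⟩, 0, fun h0 => hv0 (congrArg Subtype.val h0)⟩⟩
  obtain ⟨z, hz⟩ := Module.End.exists_eigenvalue ((Matrix.toLin' M).restrict hst)
  obtain ⟨u, hu⟩ := hz.exists_hasEigenvector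
  have h1 : Matrix.toLin' M (u : n → G) = z • (u : n → G) := by
    have := congrArg Subtype.val hu.apply_eq_smul
    exact this
  rw [Matrix.toLin'_apply] at h1
  refine ⟨z, u, fun h0 => hu.2 (Subtype.ext h0), h1, fun hz1 => ?_⟩
  have h2 : ∀ l : ℕ, (M ^ l) *ᵥ (u : n → G) = z ^ l • (u : n → G) := by
    intro l
    induction l with
    | zero => rw [pow_zero, pow_zero, Matrix.one_mulVec, one_smul]
    | succ l ih => rw [pow_succ', ← Matrix.mulVec_mulVec, ih, Matrix.mulVec_smul, h1, smul_smul, pow_succ]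
  have h3 := (hK u).1 u.2
  rw [h2, hz1, add_smul, one_smul] at h3
  have h4 : w • (u : n → G) = 0 := by
    have := sub_eq_zero.mpr h3.symm
    rwa [add_sub_cancel_left] at this
  rcases smul_eq_zero.mp h4 with h5 | h5
  · exact hw h5
  · exact hu.2 (Subtype.ext h5)

theorem unity_j {n : Type*} [Fintype n] [DecidableEq n] (ρ : Γ →* Matrix n n G) (hirr : Irr ρ) (Δ : Subgroup Γ)
    [Δ.Normal] (hconn : ConnOn (coefAlg (dsum (1 : Γ →* Matrix (Fin 1) (Fin 1) G) ρ) 1) Δ) (k : ℕ) (hk : k ≠ 0) :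
    (∀ x ∈ Δ, ρ x = 1) ∨ ∃ i < Fintype.card n, ∃ x ∈ Δ, (ρ x ^ k - 1).charpoly.coeff i ≠ 0 := by
  by_contra hcon
  push Not at hcon
  obtain ⟨⟨x₀, hx₀, h0⟩, h⟩ := hcon
  apply h0
  have hpos : 0 < Fintype.card n := Fintype.card_pos_iff.mpr hirr.1
  have h1 := res_domain (dsum (1 : Γ →* Matrix (Fin 1) (Fin 1) G) ρ) Δ hconn
  have h2 := core_on (G := G) Δ (1 : Γ →* Matrix (Fin 1) (Fin 1) G) ρ hirr h1 (Fintype.card n) k hk (by omega) (by
    intro x hx i hi
    have h3 : Polynomial.aeval (ρ x ^ k) (((1 : Γ →* Matrix (Fin 1) (Fin 1) G) x) ^ k).charpoly = ρ x ^ k - 1 := by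
      rw [MonoidHom.one_apply, one_pow, Matrix.charpoly_one, Fintype.card_fin, pow_one, map_sub, Polynomial.aeval_X,
        map_one]
    rw [h3]
    exact h i hi x hx)
  exact trivial_factor (F := G) (G := G) ρ Δ h2 x₀ hx₀

/-- if there are more distinct eigenvalues of `psi` somewhere, there are as many for some power -/
theorem exists_pow {n : Type*} [Fintype n] [DecidableEq n] (Q : Γ →* Matrix n n G) (Δ : Subgroup Γ)
    (hΔ : ConnOn (coefAlg Q 1) Δ) (σ : Γ) (hσ : σ ∈ Δ) (N : ℕ) (hN : 0 < N) :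
    ∃ y ∈ Δ, nd G (psi (Q σ)) ≤ nd G (psi (Q y ^ N)) := by
  by_contra hcon
  push Not at hcon
  have hopf := coefAlg_hopf (Q.comp Δ.subtype) 1
  haveI : Algebra.FiniteType G (coefAlg (Q.comp Δ.subtype) 1) :=
    (coefAlg (Q.comp Δ.subtype) 1).fg_iff_finiteType.mp hopf.fg
  haveI : IsNoetherianRing (coefAlg (Q.comp Δ.subtype) 1) :=
    Algebra.FiniteType.isNoetherianRing G (coefAlg (Q.comp Δ.subtype) 1)
  haveI : IsDomain (coefAlg (Q.comp Δ.subtype) 1) := res_domain Q Δ hΔ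
  obtain ⟨R, hR⟩ : ∃ R, R = coefAlg (Q.comp Δ.subtype) 1 := ⟨_, rfl⟩
  have hmem : ∀ i j, (fun x => Q.comp Δ.subtype x i j) ∈ R := by
    intro i j
    rw [hR]
    exact mem1 (Q.comp Δ.subtype) 1 i j
  obtain ⟨j, hj⟩ : ∃ j, (hank (nd G (psi (Q σ))) (psi (Q σ))).coeff j ≠ 0 := by
    by_contra hcon
    push Not at hcon
    exact hank_ne_zero (psi (Q σ)) (Polynomial.ext hcon)
  obtain ⟨f, hf, hfe⟩ : ∃ f : Δ → G, f ∈ R ∧ ∀ x : Δ, f x = (hank (nd G (psi (Q σ))) (psi (Q x))).coeff j := by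
    refine ⟨((hank (nd G (psi (Q σ))) (psi (matA R (Q.comp Δ.subtype) hmem))).coeff j : R), Subtype.property _,
      fun x => ?_⟩
    have h1 := hank_map ((ev R x : R →ₐ[G] G) : R →+* G) (nd G (psi (Q σ))) (psi (matA R (Q.comp Δ.subtype) hmem))
    have h2 : (matA R (Q.comp Δ.subtype) hmem).map ((ev R x : R →ₐ[G] G) : R →+* G) = Q x :=
      matA_ev R (Q.comp Δ.subtype) hmem x
    rw [psi_map, h2] at h1
    rw [← h1, Polynomial.coeff_map]
    rfl
  have h3 := pow_dominant (coefAlg (Q.comp Δ.subtype) 1) hopf.comul N hN f (hR ▸ hf) (by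
    intro x
    have h4 := hcon x x.2
    rw [hfe, hank_zero _ _ (by
      have h5 : Q ((x ^ N : Δ) : Γ) = Q x ^ N := by rw [Subgroup.coe_pow, map_pow]
      rw [h5]
      exact h4), Polynomial.coeff_zero])
  have h4 := hfe ⟨σ, hσ⟩
  rw [h3] at h4
  exact hj h4.symm

end

end Pool.Agent.H40TG
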