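import Mathlib
import Pool.Agent.H40TG.Fin1

/-!
# The final theorem
-/

set_option autoImplicit false
set_option linter.unusedSectionVars false
set_option linter.style.haveILetI false

namespace Pool.Agent.H40TG

open Matrix Pool.Agent.H40ZL Pool.Agent.H40GO Pool.Agent.H40LT Module MeasureTheory

section

variable {G : Type*} [Field G] [CharZero G] [IsAlgClosed G] {n : Type*} [Fintype n] [DecidableEq n]

theorem eigen_top (g : Matrix n n G) (hgs : Module.End.IsSemisimple (Matrix.toLin' g)) (p : Submodule G (n → G))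
    (h : ∀ (μ : G) (v : n → G), g *ᵥ v = μ • v → v ∈ p) : p = ⊤ := by
  rw [eq_top_iff, ← Module.End.iSup_maxGenEigenspace_eq_top (Matrix.toLin' g)]
  refine iSup_le fun μ => ?_
  rw [hgs.isFinitelySemisimple.maxGenEigenspace_eq_eigenspace]
  intro v hv
  rw [Module.End.mem_eigenspace_iff, Matrix.toLin'_apply] at hv
  exact h μ v hv

theorem ratio_exists (g : Matrix n n G) (hgs : Module.End.IsSemisimple (Matrix.toLin' g)) (hu : IsUnit g) (c : G)
    (M : Matrix n n G) (hM : M ≠ 0) (h : g * M = c • (M * g)) :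
    ∃ x y : G, (∃ v : n → G, v ≠ 0 ∧ g *ᵥ v = x • v) ∧ (∃ v : n → G, v ≠ 0 ∧ g *ᵥ v = y • v) ∧ c = x / y := by
  by_contra hcon
  push Not at hcon
  apply hM
  have h1 : LinearMap.ker (Matrix.toLin' M) = ⊤ := by
    apply eigen_top g hgs
    intro y v hv
    by_contra hMv
    rw [LinearMap.mem_ker, Matrix.toLin'_apply] at hMv
    have hv0 : v ≠ 0 := by
      rintro rfl
      exact hMv (Matrix.mulVec_zero M)
    have hy0 : y ≠ 0 := by
      rintro rfl
      rw [zero_smul] at hv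
      apply hv0
      obtain ⟨g', hg'⟩ := hu.exists_left_inv
      rw [← Matrix.one_mulVec v, ← hg', ← Matrix.mulVec_mulVec, hv, Matrix.mulVec_zero]
    have h2 : g *ᵥ (M *ᵥ v) = (c * y) • (M *ᵥ v) := by
      rw [Matrix.mulVec_mulVec, h, Matrix.smul_mulVec, ← Matrix.mulVec_mulVec, hv, Matrix.mulVec_smul, smul_smul]
    exact hcon (c * y) y ⟨M *ᵥ v, hMv, h2⟩ ⟨v, hv0, hv⟩ (by field_simp)
  apply Matrix.toLin'.injective
  rw [map_zero]
  exact LinearMap.ker_eq_top.mp h1

theorem fixed_of_pow' {V : Type*} [AddCommGroup V] [Module G V] [FiniteDimensional G V] (f : Module.End G V)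
    (hf : f.IsSemisimple) (m : ℕ) (h : ∀ (c : G) (v : V), v ≠ 0 → f v = c • v → c ^ m = 1 → c = 1) (v : V)
    (hv : (f ^ m) v = v) : f v = v := by
  obtain ⟨K, hK⟩ : ∃ K : Submodule G V, ∀ u, u ∈ K ↔ (f ^ m) u = u := by
    refine ⟨LinearMap.ker (f ^ m - 1), fun u => ?_⟩
    rw [LinearMap.mem_ker, LinearMap.sub_apply, Module.End.one_apply, sub_eq_zero]
  have hst : ∀ u ∈ K, f u ∈ K := by
    intro u hu
    rw [hK] at hu ⊢
    rw [← Module.End.mul_apply, ← pow_succ, pow_succ', Module.End.mul_apply, hu]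
  have hpow : ∀ (c : G) (u : V), f u = c • u → ∀ l : ℕ, (f ^ l) u = c ^ l • u := by
    intro c u hu l
    induction l with
    | zero => rw [pow_zero, pow_zero, Module.End.one_apply, one_smul]
    | succ l ih => rw [pow_succ', Module.End.mul_apply, ih, map_smul, hu, smul_smul, pow_succ]
  have h2 := Submodule.eq_iSup_inf_genEigenspace (f := f) (p := K) ⊤ (fun u hu => hst u hu)
    (Module.End.iSup_maxGenEigenspace_eq_top f)
  have h1 : K ≤ Module.End.eigenspace f 1 := by
    rw [h2]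
    refine iSup_le fun μ => ?_
    rintro u ⟨hu1, hu2⟩
    have hu2' : u ∈ f.maxGenEigenspace μ := hu2
    rw [hf.isFinitelySemisimple.maxGenEigenspace_eq_eigenspace, Module.End.mem_eigenspace_iff] at hu2'
    by_cases hu0 : u = 0
    · rw [hu0]
      exact Submodule.zero_mem _
    have h5 : μ ^ m = 1 := by
      have h6 := hpow μ u hu2' m
      rw [(hK u).1 hu1] at h6
      have h7 : (1 - μ ^ m) • u = 0 := by
        rw [sub_smul, one_smul, ← h6, sub_self]
      rcases smul_eq_zero.mp h7 with h8 | h8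
      · exact (sub_eq_zero.mp h8).symm
      · exact absurd h8 hu0
    have h9 := h μ u hu0 hu2' h5
    rw [Module.End.mem_eigenspace_iff, hu2', h9]
  have h10 := h1 ((hK v).2 hv)
  rw [Module.End.mem_eigenspace_iff, one_smul] at h10
  exact h10

theorem fixed_of_pow (g : Matrix n n G) (hgs : Module.End.IsSemisimple (Matrix.toLin' g)) (m : ℕ)
    (h : ∀ (c : G) (v : n → G), v ≠ 0 → g *ᵥ v = c • v → c ^ m = 1 → c = 1) (v : n → G) (hv : g ^ m *ᵥ v = v) :
    g *ᵥ v = v := by
  have h1 := fixed_of_pow' (Matrix.toLin' g) hgs m (fun c v hv hc h1 => h c v hv (by rwa [Matrix.toLin'_apply] at hc) h1)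
    v (by rw [← Matrix.toLin'_pow, Matrix.toLin'_apply, hv])
  rwa [Matrix.toLin'_apply] at h1

theorem exists_e (g : Matrix n n G) : ∃ e : Matrix n n G, (∀ v, g *ᵥ (e *ᵥ v) = e *ᵥ v) ∧
    ∀ w, g *ᵥ w = w → e *ᵥ w = w := by
  obtain ⟨q, hq⟩ := (LinearMap.ker (Matrix.toLin' (g - 1))).exists_isCompl
  have hK : ∀ u, u ∈ LinearMap.ker (Matrix.toLin' (g - 1)) ↔ g *ᵥ u = u := by
    intro u
    rw [LinearMap.mem_ker, Matrix.toLin'_apply, Matrix.sub_mulVec, Matrix.one_mulVec, sub_eq_zero]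
  let π := (LinearMap.ker (Matrix.toLin' (g - 1))).subtype ∘ₗ Submodule.projectionOnto _ q hq
  refine ⟨LinearMap.toMatrix' π, fun v => ?_, fun w hw => ?_⟩
  · rw [← Matrix.toLin'_apply (LinearMap.toMatrix' π), Matrix.toLin'_toMatrix']
    exact (hK _).1 (Submodule.projectionOnto _ q hq v).2
  · rw [← Matrix.toLin'_apply (LinearMap.toMatrix' π), Matrix.toLin'_toMatrix']
    change ((Submodule.projectionOnto _ q hq w : LinearMap.ker (Matrix.toLin' (g - 1))) : n → G) = w
    have h1 := Submodule.projectionOnto_apply_left hq ⟨w, (hK w).2 hw⟩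
    rw [h1]

/-- a lower bound for the rank gives an upper bound for `W ∩ T⁻¹ W` -/
theorem fixed_of_rank (g T e : Matrix n n G) (he1 : ∀ v, g *ᵥ (e *ᵥ v) = e *ᵥ v)
    (he2 : ∀ w, g *ᵥ w = w → e *ᵥ w = w) (F : Submodule G (n → G)) (hF1 : ∀ v ∈ F, g *ᵥ v = v)
    (hF2 : ∀ v ∈ F, T *ᵥ v = v)
    (hr : finrank G (LinearMap.ker (Matrix.toLin' (g - 1))) ≤ ((g - 1) * T * e).rank + finrank G F) (v : n → G)
    (hv1 : g *ᵥ v = v) (hv2 : g *ᵥ (T *ᵥ v) = T *ᵥ v) : v ∈ F := by
  have hK : ∀ u, u ∈ LinearMap.ker (Matrix.toLin' (g - 1)) ↔ g *ᵥ u = u := by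
    intro u
    rw [LinearMap.mem_ker, Matrix.toLin'_apply, Matrix.sub_mulVec, Matrix.one_mulVec, sub_eq_zero]
  let W := LinearMap.ker (Matrix.toLin' (g - 1))
  let f : W →ₗ[G] (n → G) := (Matrix.toLin' ((g - 1) * T)).domRestrict W
  have h1 := LinearMap.finrank_range_add_finrank_ker f
  have h2 : ((g - 1) * T * e).rank ≤ finrank G (LinearMap.range f) := by
    apply Submodule.finrank_mono
    rintro _ ⟨u, rfl⟩
    refine ⟨⟨e *ᵥ u, (hK _).2 (he1 u)⟩, ?_⟩
    change Matrix.toLin' ((g - 1) * T) (e *ᵥ u) = ((g - 1) * T * e) *ᵥ u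
    rw [Matrix.toLin'_apply, Matrix.mulVec_mulVec]
  have hWW : finrank G W = finrank G (LinearMap.ker (Matrix.toLin' (g - 1))) := rfl
  have h3 : finrank G (LinearMap.ker f) ≤ finrank G F := by omega
  let F' : Submodule G W := F.comap W.subtype
  have h4 : F' ≤ LinearMap.ker f := by
    intro w hw
    have hw' : (w : n → G) ∈ F := hw
    rw [LinearMap.mem_ker]
    change Matrix.toLin' ((g - 1) * T) (w : n → G) = 0
    rw [Matrix.toLin'_apply, ← Matrix.mulVec_mulVec, hF2 _ hw', Matrix.sub_mulVec, Matrix.one_mulVec, hF1 _ hw',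
      sub_self]
  have h5 : finrank G F' = finrank G F := by
    have h6 : F ≤ W := fun u hu => (hK u).2 (hF1 u hu)
    exact (Submodule.comapSubtypeEquivOfLe h6).finrank_eq
  have h7 : F' = LinearMap.ker f := Submodule.eq_of_le_of_finrank_le h4 (by rw [h5]; exact h3)
  have h8 : (⟨v, (hK v).2 hv1⟩ : W) ∈ LinearMap.ker f := by
    rw [LinearMap.mem_ker]
    change Matrix.toLin' ((g - 1) * T) v = 0
    rw [Matrix.toLin'_apply, ← Matrix.mulVec_mulVec, Matrix.sub_mulVec, Matrix.one_mulVec, hv2, sub_self]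
  rw [← h7] at h8
  exact h8

end

end Pool.Agent.H40TG
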