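import Mathlib
import Pool.Agent.H40TG.Fin2

/-!
# One reduction and one Galois element
-/

set_option autoImplicit false
set_option linter.unusedSectionVars false
set_option linter.style.haveILetI false

namespace Pool.Agent.H40TG

open Matrix Pool.Agent.H40ZL Pool.Agent.H40GO Pool.Agent.H40LT Module MeasureTheory

section

variable {G : Type*} [Field G] [CharZero G] [IsAlgClosed G] {Γ : Type*} [Group Γ] {s : ℕ} {n : Fin s → ℕ}

/-- the vector `w` in the block `j` -/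
def emb (j : Fin s) (w : Fin (n j) → G) : (Σ j, Fin (n j)) → G :=
  fun p => if h : p.1 = j then w (h ▸ p.2) else 0

theorem emb_self (j : Fin s) (w : Fin (n j) → G) (i : Fin (n j)) : emb (n := n) j w ⟨j, i⟩ = w i := by
  simp [emb]

theorem emb_ne (j j' : Fin s) (h : j' ≠ j) (w : Fin (n j) → G) (i : Fin (n j')) : emb (n := n) j w ⟨j', i⟩ = 0 := by
  simp [emb, h]

theorem emb_ext {v v' : (Σ j, Fin (n j)) → G} (h : ∀ j i, v ⟨j, i⟩ = v' ⟨j, i⟩) : v = v' := by
  funext ⟨j, i⟩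
  exact h j i

theorem emb_add (j : Fin s) (w w' : Fin (n j) → G) : emb (n := n) j (w + w') = emb j w + emb j w' := by
  apply emb_ext
  intro j' i
  by_cases h : j' = j
  · subst h
    rw [Pi.add_apply, emb_self, emb_self, emb_self, Pi.add_apply]
  · rw [Pi.add_apply, emb_ne _ _ h, emb_ne _ _ h, emb_ne _ _ h, add_zero]

theorem emb_smul (j : Fin s) (c : G) (w : Fin (n j) → G) : emb (n := n) j (c • w) = c • emb j w := by
  apply emb_ext
  intro j' i
  by_cases h : j' = j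
  · subst h
    rw [Pi.smul_apply, emb_self, emb_self, Pi.smul_apply]
  · rw [Pi.smul_apply, emb_ne _ _ h, emb_ne _ _ h, smul_zero]

theorem blk_mulVec (ρ : ∀ j, Γ →* Matrix (Fin (n j)) (Fin (n j)) G) (x : Γ) (v : (Σ j, Fin (n j)) → G) (j : Fin s)
    (i : Fin (n j)) : (blk ρ x *ᵥ v) ⟨j, i⟩ = (ρ j x *ᵥ fun i' => v ⟨j, i'⟩) i := by
  rw [Matrix.mulVec, dotProduct, Fintype.sum_sigma, Matrix.mulVec, dotProduct]
  rw [Finset.sum_eq_single j]
  · exact Finset.sum_congr rfl fun i' _ => by rw [blk_apply]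
  · intro j' _ hj'
    refine Finset.sum_eq_zero fun i' _ => ?_
    have h1 : blk ρ x ⟨j, i⟩ ⟨j', i'⟩ = 0 := by
      change Matrix.blockDiagonal' (fun j => ρ j x) ⟨j, i⟩ ⟨j', i'⟩ = 0
      exact Matrix.blockDiagonal'_apply_ne _ _ _ (Ne.symm hj')
    rw [h1, zero_mul]
  · intro h
    exact absurd (Finset.mem_univ j) h

theorem blk_emb (ρ : ∀ j, Γ →* Matrix (Fin (n j)) (Fin (n j)) G) (x : Γ) (j : Fin s) (w : Fin (n j) → G) :
    blk ρ x *ᵥ emb j w = emb j (ρ j x *ᵥ w) := by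
  apply emb_ext
  intro j' i
  rw [blk_mulVec]
  by_cases h : j' = j
  · subst h
    rw [emb_self]
    congr 1
    congr 1
    funext i'
    rw [emb_self]
  · rw [emb_ne _ _ h]
    have h1 : (fun i' => emb (n := n) j w ⟨j', i'⟩) = 0 := by
      funext i'
      exact emb_ne _ _ h w i'
    rw [h1, Matrix.mulVec_zero]
    rfl

/-- the projector onto the block `j` -/
def prj (G : Type*) [Field G] {s : ℕ} {n : Fin s → ℕ} (j : Fin s) : Matrix (Σ j, Fin (n j)) (Σ j, Fin (n j)) G :=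
  Matrix.diagonal fun p => if p.1 = j then 1 else 0

theorem prj_mulVec (j : Fin s) (v : (Σ j, Fin (n j)) → G) : prj G j *ᵥ v = emb j fun i => v ⟨j, i⟩ := by
  apply emb_ext
  intro j' i
  rw [prj, Matrix.mulVec_diagonal]
  by_cases h : j' = j
  · subst h
    rw [emb_self, if_pos rfl, one_mul]
  · rw [emb_ne _ _ h, if_neg h, zero_mul]

theorem prj_comm (ρ : ∀ j, Γ →* Matrix (Fin (n j)) (Fin (n j)) G) (x : Γ) (j : Fin s) :
    prj G j * blk ρ x = blk ρ x * prj G j := by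
  apply Matrix.toLin'.injective
  apply LinearMap.ext
  intro v
  rw [Matrix.toLin'_apply, Matrix.toLin'_apply, ← Matrix.mulVec_mulVec, ← Matrix.mulVec_mulVec, prj_mulVec,
    prj_mulVec, blk_emb]
  congr 1
  funext i
  exact blk_mulVec ρ x v j i

/-- the vectors killed by the tangent vectors are fixed by `Δ` -/
theorem fixed_of_killed (ρ : ∀ j, Γ →* Matrix (Fin (n j)) (Fin (n j)) G) (hirr : ∀ j, Irr (ρ j)) (Δ : Subgroup Γ)
    [hΔn : Δ.Normal] (σ : Γ) (hσ : σ ∈ Δ) (hsem : Module.End.IsSemisimple (Matrix.toLin' (blk ρ σ)))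
    (hj : ∀ j, (∀ x ∈ Δ, ρ j x = 1) ∨ ∃ (z : G) (w : Fin (n j) → G), w ≠ 0 ∧ ρ j σ *ᵥ w = z • w ∧
      ∀ d : ℕ, 0 < d → z ^ d ≠ 1) (v : (Σ j, Fin (n j)) → G)
    (hv : ∀ Z ∈ tanS (blk ρ '' (Δ : Set Γ)), Z *ᵥ v = 0) : ∀ x ∈ Δ, blk ρ x *ᵥ v = v := by
  have hinv : ∀ x : Γ, blk ρ x * blk ρ x⁻¹ = 1 := fun x => by rw [← map_mul, mul_inv_cancel, map_one]
  have hinv' : ∀ x : Γ, blk ρ x⁻¹ * blk ρ x = 1 := fun x => by rw [← map_mul, inv_mul_cancel, map_one]
  have hunit : IsUnit (blk ρ σ) := ⟨⟨blk ρ σ, blk ρ σ⁻¹, hinv σ, hinv' σ⟩, rfl⟩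
  obtain ⟨L, hL⟩ : ∃ L, L = tanS (blk ρ '' (Δ : Set Γ)) := ⟨_, rfl⟩
  rw [← hL] at hv
  -- `L` commutes with the projectors
  have hcomm : ∀ Z ∈ L, ∀ j, Z * prj G j = prj G j * Z := by
    intro Z hZ j
    rw [hL] at hZ
    have h1 := tangent_mem_span (blk ρ '' (Δ : Set Γ)) ⟨1, Δ.one_mem, map_one _⟩ Z hZ
    clear hZ
    induction h1 using Submodule.span_induction with
    | mem x hx =>
      obtain ⟨y, -, rfl⟩ := hx
      exact (prj_comm ρ y j).symm
    | zero => rw [zero_mul, mul_zero]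
    | add a b _ _ ha hb => rw [add_mul, mul_add, ha, hb]
    | smul c a _ ha => rw [smul_mul_assoc, mul_smul_comm, ha]
  -- `L` is stable under conjugation
  have hconj : ∀ Z ∈ L, ∀ x : Γ, blk ρ x⁻¹ * Z * blk ρ x ∈ L := by
    intro Z hZ x
    rw [hL] at hZ ⊢
    refine tangent_conj _ (blk ρ x⁻¹) (blk ρ x) (hinv' x) ?_ ?_ Z hZ
    · rintro _ ⟨y, hy, rfl⟩
      refine ⟨x⁻¹ * y * x, ?_, by rw [map_mul, map_mul]⟩
      have := hΔn.conj_mem y hy x⁻¹
      rwa [inv_inv] at this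
    · rintro _ ⟨y, hy, rfl⟩
      exact ⟨x * y * x⁻¹, hΔn.conj_mem y hy x, by rw [map_mul, map_mul]⟩
  -- the killed vectors of a block
  have hKex : ∀ j, ∃ K : Submodule G (Fin (n j) → G), ∀ w, w ∈ K ↔ ∀ Z ∈ L, Z *ᵥ emb (n := n) j w = 0 := by
    intro j
    refine ⟨{ carrier := {w | ∀ Z ∈ L, Z *ᵥ emb (n := n) j w = 0}, add_mem' := ?_, zero_mem' := ?_, smul_mem' := ?_ },
      fun w => Iff.rfl⟩
    · intro a b ha hb Z hZ
      rw [emb_add, Matrix.mulVec_add, ha Z hZ, hb Z hZ, add_zero]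
    · intro Z hZ
      have h1 : emb (n := n) j (0 : Fin (n j) → G) = 0 := by
        have := emb_smul (n := n) j (0 : G) (0 : Fin (n j) → G)
        rwa [zero_smul, zero_smul] at this
      rw [h1, Matrix.mulVec_zero]
    · intro c a ha Z hZ
      rw [emb_smul, Matrix.mulVec_smul, ha Z hZ, smul_zero]
  have hvK : ∀ j, ∀ Z ∈ L, Z *ᵥ emb (n := n) j (fun i => v ⟨j, i⟩) = 0 := by
    intro j Z hZ
    rw [← prj_mulVec, Matrix.mulVec_mulVec, hcomm Z hZ, ← Matrix.mulVec_mulVec, hv Z hZ, Matrix.mulVec_zero]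
  intro x hx
  apply emb_ext
  intro j i
  rw [blk_mulVec]
  rcases hj j with h1 | ⟨z, w, hw0, hw, hz⟩
  · rw [h1 x hx, Matrix.one_mulVec]
  · obtain ⟨K, hK⟩ := hKex j
    have hKst : ∀ g, ∀ u ∈ K, ρ j g *ᵥ u ∈ K := by
      intro g u hu
      rw [hK] at hu ⊢
      intro Z hZ
      rw [← blk_emb]
      have h2 := hu _ (hconj Z hZ g)
      have h3 : blk ρ g *ᵥ ((blk ρ g⁻¹ * Z * blk ρ g) *ᵥ emb j u) = Z *ᵥ (blk ρ g *ᵥ emb j u) := by
        rw [Matrix.mulVec_mulVec, Matrix.mulVec_mulVec]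
        congr 1
        rw [← mul_assoc, ← mul_assoc, hinv, one_mul]
      rw [← h3, h2, Matrix.mulVec_zero]
    rcases (hirr j).2 K hKst with h2 | h2
    · have h3 : (fun i => v ⟨j, i⟩) ∈ K := (hK _).2 (hvK j)
      rw [h2, Submodule.mem_bot] at h3
      rw [h3, Matrix.mulVec_zero]
      exact (congrFun h3 i).symm
    · exfalso
      have hz0 : z ≠ 0 := by
        rintro rfl
        rw [zero_smul] at hw
        apply hw0
        have h3 : ρ j σ⁻¹ *ᵥ (ρ j σ *ᵥ w) = w := by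
          rw [Matrix.mulVec_mulVec, ← map_mul, inv_mul_cancel, map_one, Matrix.one_mulVec]
        rw [← h3, hw, Matrix.mulVec_zero]
      obtain ⟨φ, hφ⟩ := exists_phi (Units.mk0 z hz0) (by
        intro d hd h3
        apply hz d hd
        have := congrArg Units.val h3
        simpa using this)
      obtain ⟨X, hX, hX2⟩ := tangent_phi (blk ρ '' (Δ : Set Γ)) (blk ρ σ) (by
        rintro _ ⟨y, hy, rfl⟩ i
        exact ⟨y * σ ^ i, Δ.mul_mem hy (Δ.pow_mem hσ i), by rw [map_mul, map_pow]⟩) hunit hsem φ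
      have h4 : X *ᵥ emb j w = φ (Additive.ofMul (Units.mk0 z hz0)) • emb j w := by
        apply hX2
        rw [blk_emb, hw, emb_smul]
        rfl
      have h5 : w ∈ K := by
        rw [h2]
        exact Submodule.mem_top
      have h6 := (hK w).1 h5 X (by rw [hL]; exact hX)
      rw [h4] at h6
      rcases smul_eq_zero.mp h6 with h7 | h7
      · exact hφ h7
      · apply hw0
        funext i'
        have h8 := congrFun h7 ⟨j, i'⟩
        rw [emb_self] at h8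
        exact h8

end

end Pool.Agent.H40TG
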