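import Mathlib
import Pool.Agent.H40TG.Fin3

/-!
# One reduction and one Galois element: the theorem
-/

set_option autoImplicit false
set_option linter.unusedSectionVars false
set_option linter.style.haveILetI false

namespace Pool.Agent.H40TG

open Matrix Pool.Agent.H40ZL Pool.Agent.H40GO Pool.Agent.H40LT Module MeasureTheory

section

variable {G : Type*} [Field G] [CharZero G] [TopologicalSpace G] [IsTopologicalRing G] [T2Space G] [IsAlgClosed G]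
  {Γ : Type*} [Group Γ] [TopologicalSpace Γ] [IsTopologicalGroup Γ] [CompactSpace Γ] [MeasurableSpace Γ]
  [BorelSpace Γ]

theorem memR {p : Type*} [Fintype p] [DecidableEq p] (Q : Γ →* Matrix p p G) (N : ℕ) (i j) :
    (fun x => psi (Q x ^ N) i j) ∈ coefAlg Q 1 := by
  obtain ⟨R, hR⟩ : ∃ R, R = coefAlg Q 1 := ⟨_, rfl⟩
  rw [← hR]
  have hmem : ∀ i j, (fun x => Q x i j) ∈ R := by
    intro i j
    rw [hR]
    exact mem1 Q 1 i j
  have h1 : (fun x => psi (Q x ^ N) i j) = ((psi (matA R Q hmem ^ N) i j : R) : Γ → G) := by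
    funext x
    have h2 : (matA R Q hmem).map ((ev R x : R →ₐ[G] G) : R →+* G) = Q x := matA_ev R Q hmem x
    have h3 : (matA R Q hmem ^ N).map ((ev R x : R →ₐ[G] G) : R →+* G) = Q x ^ N := by
      rw [← h2]
      exact map_pow (((ev R x : R →ₐ[G] G) : R →+* G).mapMatrix) (matA R Q hmem) N
    have h4 := psi_map ((ev R x : R →ₐ[G] G) : R →+* G) (matA R Q hmem ^ N)
    rw [h3] at h4
    rw [← h4]
    rfl
  rw [h1]
  exact Subtype.property _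

theorem psi_conj {p : Type*} [Fintype p] [DecidableEq p] (Q : Γ →* Matrix p p G) (N : ℕ) (x τ : Γ) :
    (psi (Q (τ * x * τ⁻¹) ^ N)).charpoly = (psi (Q x ^ N)).charpoly := by
  have h5 : Q τ⁻¹ * Q τ = 1 := by rw [← map_mul, inv_mul_cancel, map_one]
  have h6 : Q τ * Q τ⁻¹ = 1 := by rw [← map_mul, mul_inv_cancel, map_one]
  have h1 : Q (τ * x * τ⁻¹) ^ N = Q τ * Q x ^ N * Q τ⁻¹ := by
    rw [← map_pow, conj_pow, map_mul, map_mul, map_pow]
  rw [h1, N2_psi_mul, N2_psi_mul]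
  have h7 : psi (Q τ⁻¹) * psi (Q τ) = 1 := by rw [← N2_psi_mul, h5, N2_psi_one]
  have h8 : psi (Q τ) * psi (Q τ⁻¹) = 1 := by rw [← N2_psi_mul, h6, N2_psi_one]
  have h9 := Matrix.charpoly_units_conj (⟨psi (Q τ), psi (Q τ⁻¹), h8, h7⟩ : (Matrix _ _ G)ˣ) (psi (Q x ^ N))
  rw [← Matrix.coe_units_inv] at h9
  exact h9

theorem plain_conj {p : Type*} [Fintype p] [DecidableEq p] (Q : Γ →* Matrix p p G) (x τ : Γ) :
    (Q (τ * x * τ⁻¹)).charpoly = (Q x).charpoly := by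
  have h5 : Q τ⁻¹ * Q τ = 1 := by rw [← map_mul, inv_mul_cancel, map_one]
  have h6 : Q τ * Q τ⁻¹ = 1 := by rw [← map_mul, mul_inv_cancel, map_one]
  rw [map_mul, map_mul]
  have h9 := Matrix.charpoly_units_conj (⟨Q τ, Q τ⁻¹, h6, h5⟩ : (Matrix _ _ G)ˣ) (Q x)
  rw [← Matrix.coe_units_inv] at h9
  exact h9

/-- generic elements: everything which is needed about `σ` -/
theorem generic_all (μ : Measure Γ) [IsFiniteMeasure μ] [μ.IsMulLeftInvariant] [μ.InnerRegularCompactLTTop] {s : ℕ}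
    (n : Fin s → ℕ) (ρ : ∀ j, Γ →* Matrix (Fin (n j)) (Fin (n j)) G) (hρ : ∀ j, Continuous (ρ j))
    (hirr : ∀ j, Irr (ρ j)) (Δ : Subgroup Γ) (hΔn : Δ.Normal) (hΔo : IsOpen (Δ : Set Γ))
    (hΔ : ConnOn (coefAlg (blk ρ) 1) Δ) (N : ℕ) (hN : 0 < N) :
    ∃ Z : Set Γ, IsClosed Z ∧ μ Z = 0 ∧ (∀ x ∈ Z, ∀ τ, τ * x * τ⁻¹ ∈ Z) ∧ ∀ σ ∈ Δ, σ ∉ Z →
      (∀ y ∈ Δ, nd G (psi (blk ρ y)) ≤ nd G (psi (blk ρ σ))) ∧
      nd G (psi (blk ρ σ)) ≤ nd G (psi (blk ρ σ ^ N)) ∧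
      (∀ y ∈ Δ, nd G (blk ρ y) ≤ nd G (blk ρ σ)) ∧
      (∀ j, (∀ x ∈ Δ, ρ j x = 1) ∨ ∃ (z : G) (w : Fin (n j) → G), w ≠ 0 ∧ ρ j σ *ᵥ w = z • w ∧ z ^ N ≠ 1) := by
  classical
  have hQ : Continuous (blk ρ) := by
    have := cont_blk (F := G) (G := G) continuous_id ρ hρ
    rwa [bc_self] at this
  obtain ⟨Z1, a1, a2, a3, a4⟩ := generic_mat (blk ρ) hQ μ Δ hΔn hΔo hΔ (fun x => psi (blk ρ x ^ 1))
    (memR (blk ρ) 1) (fun x τ => psi_conj (blk ρ) 1 x τ)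
  obtain ⟨Z2, b1, b2, b3, b4⟩ := generic_mat (blk ρ) hQ μ Δ hΔn hΔo hΔ (fun x => psi (blk ρ x ^ N))
    (memR (blk ρ) N) (fun x τ => psi_conj (blk ρ) N x τ)
  obtain ⟨Z3, c1, c2, c3, c4⟩ := generic_mat (blk ρ) hQ μ Δ hΔn hΔo hΔ (fun x => blk ρ x)
    (mem1 (blk ρ) 1) (fun x τ => plain_conj (blk ρ) x τ)
  have hjj : ∀ j, ∃ Z : Set Γ, IsClosed Z ∧ μ Z = 0 ∧ (∀ x ∈ Z, ∀ τ, τ * x * τ⁻¹ ∈ Z) ∧ ∀ σ ∈ Δ, σ ∉ Z →
      ((∀ x ∈ Δ, ρ j x = 1) ∨ ∃ (z : G) (w : Fin (n j) → G), w ≠ 0 ∧ ρ j σ *ᵥ w = z • w ∧ z ^ N ≠ 1) := by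
    intro j
    have hle : coefAlg (dsum (1 : Γ →* Matrix (Fin 1) (Fin 1) G) (ρ j)) 1 ≤ coefAlg (blk ρ) 1 := by
      have h1 := coefAlg_blk (G := G) (1 : Γ →* Matrix (Fin 1) (Fin 1) G) ρ j
      rw [bc_self, bc_self] at h1
      have h2 := coefAlg_one_le (G := G) (blk ρ)
      rw [bc_self, bc_self] at h2
      exact h1.trans h2
    rcases unity_j (ρ j) (hirr j) Δ (fun r hr s hs h => hΔ r (hle hr) s (hle hs) h) N hN.ne' with h1 | h1
    · exact ⟨∅, isClosed_empty, measure_empty, fun x hx => absurd hx (Set.notMem_empty x), fun σ _ _ => Or.inl h1⟩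
    · obtain ⟨i, hi, x₁, hx₁, hne⟩ := h1
      have hf : (fun x => (ρ j x ^ N - 1).charpoly.coeff i) ∈ coefAlg (blk ρ) 1 := by
        apply hle
        obtain ⟨R, hR⟩ : ∃ R, R = coefAlg (dsum (1 : Γ →* Matrix (Fin 1) (Fin 1) G) (ρ j)) 1 := ⟨_, rfl⟩
        rw [← hR]
        have hmem : ∀ i i', (fun x => ρ j x i i') ∈ R := by
          intro i i'
          rw [hR]
          exact mem1 (dsum (1 : Γ →* Matrix (Fin 1) (Fin 1) G) (ρ j)) 1 (Sum.inr i) (Sum.inr i')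
        have h5 : (fun x => (ρ j x ^ N - 1).charpoly.coeff i) =
            (((matA R (ρ j) hmem ^ N - 1).charpoly.coeff i : R) : Γ → G) := by
          funext x
          have h2 : ((ev R x : R →ₐ[G] G) : R →+* G).mapMatrix (matA R (ρ j) hmem) = ρ j x :=
            matA_ev R (ρ j) hmem x
          have h3 : (matA R (ρ j) hmem ^ N - 1).map ((ev R x : R →ₐ[G] G) : R →+* G) = ρ j x ^ N - 1 := by
            have h4 : ((ev R x : R →ₐ[G] G) : R →+* G).mapMatrix (matA R (ρ j) hmem ^ N - 1) = ρ j x ^ N - 1 := by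
              rw [map_sub, map_pow, map_one, h2]
            exact h4
          have h4 := Matrix.charpoly_map (matA R (ρ j) hmem ^ N - 1) ((ev R x : R →ₐ[G] G) : R →+* G)
          rw [h3] at h4
          rw [h4, Polynomial.coeff_map]
          rfl
        rw [h5]
        exact Subtype.property _
      obtain ⟨d1, d2⟩ := fun_null (blk ρ) hQ μ Δ hΔo hΔ _ hf x₁ hx₁ hne
      refine ⟨_, d1, d2, ?_, ?_⟩
      · rintro x ⟨hx1, hx2⟩ τ
        refine ⟨?_, hΔn.conj_mem x hx2 τ⟩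
        have h7 : ρ j (τ * x * τ⁻¹) ^ N - 1 = ρ j τ * (ρ j x ^ N - 1) * ρ j τ⁻¹ := by
          have h6 : ρ j τ * ρ j τ⁻¹ = 1 := by rw [← map_mul, mul_inv_cancel, map_one]
          rw [← map_pow, conj_pow, map_mul, map_mul, map_pow, mul_sub, sub_mul, mul_one, h6]
        have h5 : ρ j τ⁻¹ * ρ j τ = 1 := by rw [← map_mul, inv_mul_cancel, map_one]
        have h6 : ρ j τ * ρ j τ⁻¹ = 1 := by rw [← map_mul, mul_inv_cancel, map_one]
        have h9 := Matrix.charpoly_units_conj (⟨ρ j τ, ρ j τ⁻¹, h6, h5⟩ : (Matrix _ _ G)ˣ) (ρ j x ^ N - 1)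
        rw [← Matrix.coe_units_inv] at h9
        change (ρ j (τ * x * τ⁻¹) ^ N - 1).charpoly.coeff i = 0
        rw [h7]
        rw [show (ρ j τ * (ρ j x ^ N - 1) * ρ j τ⁻¹).charpoly = (ρ j x ^ N - 1).charpoly from h9]
        exact hx1
      · intro σ hσ hσZ
        right
        refine exists_eigen_pow (ρ j σ) N i hi fun h0 => hσZ ⟨h0, hσ⟩
  choose Z4 d1 d2 d3 d4 using hjj
  refine ⟨Z1 ∪ Z2 ∪ Z3 ∪ ⋃ j, Z4 j, ((a1.union b1).union c1).union (isClosed_iUnion_of_finite d1), ?_, ?_, ?_⟩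
  · refine measure_union_null (measure_union_null (measure_union_null a2 b2) c2) ?_
    exact measure_iUnion_null d2
  · rintro x (((hx | hx) | hx) | hx) τ
    · exact Or.inl (Or.inl (Or.inl (a3 x hx τ)))
    · exact Or.inl (Or.inl (Or.inr (b3 x hx τ)))
    · exact Or.inl (Or.inr (c3 x hx τ))
    · obtain ⟨j, hj⟩ := Set.mem_iUnion.mp hx
      exact Or.inr (Set.mem_iUnion.mpr ⟨j, d3 j x hj τ⟩)
  · intro σ hσ hσZ
    have e1 : σ ∉ Z1 := fun h => hσZ (Or.inl (Or.inl (Or.inl h)))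
    have e2 : σ ∉ Z2 := fun h => hσZ (Or.inl (Or.inl (Or.inr h)))
    have e3 : σ ∉ Z3 := fun h => hσZ (Or.inl (Or.inr h))
    have e4 : ∀ j, σ ∉ Z4 j := fun j h => hσZ (Or.inr (Set.mem_iUnion.mpr ⟨j, h⟩))
    have f1 := a4 σ hσ e1
    simp only [pow_one] at f1
    refine ⟨f1, ?_, c4 σ hσ e3, fun j => d4 j σ hσ (e4 j)⟩
    obtain ⟨y, hy, hy2⟩ := exists_pow (blk ρ) Δ hΔ σ hσ N hN
    exact hy2.trans (b4 σ hσ e2 y hy)

end

end Pool.Agent.H40TG
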