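import Mathlib
import Pool.Agent.H40TG.Fin4

/-!
# One reduction and one Galois element: the theorem
-/

set_option autoImplicit false
set_option linter.unusedSectionVars false
set_option linter.style.haveILetI false

namespace Pool.Agent.H40TG

open Matrix Pool.Agent.H40ZL Pool.Agent.H40GO Pool.Agent.H40LT Module MeasureTheory

section

variable {G : Type*} [Field G] [CharZero G] [TopologicalSpace G] [IsTopologicalRing G] [T2Space G] [IsAlgClosed G]
  {Γ : Type*} [Group Γ] [TopologicalSpace Γ] [IsTopologicalGroup Γ] [CompactSpace Γ] [MeasurableSpace Γ]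
  [BorelSpace Γ]

/-- vectors fixed by an open subgroup are fixed by `Δ` -/
theorem tate_iff (μ : Measure Γ) [IsFiniteMeasure μ] [μ.IsMulLeftInvariant] [μ.InnerRegularCompactLTTop]
    [μ.IsOpenPosMeasure] {p : Type*} [Fintype p] [DecidableEq p] (Q : Γ →* Matrix p p G) (hQ : Continuous Q)
    (Δ : Subgroup Γ) (hΔo : IsOpen (Δ : Set Γ)) (hΔ : ConnOn (coefAlg Q 1) Δ) (v : p → G) (U : Subgroup Γ)
    (hU : IsOpen (U : Set Γ)) (h : ∀ x ∈ U, Q x *ᵥ v = v) : ∀ x ∈ Δ, Q x *ᵥ v = v := by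
  intro x hx
  funext i
  by_contra hne
  have hf : (fun y => (Q y *ᵥ v) i - v i) ∈ coefAlg Q 1 := by
    obtain ⟨R, hR⟩ : ∃ R, R = coefAlg Q 1 := ⟨_, rfl⟩
    have hmem : ∀ i j, (fun x => Q x i j) ∈ R := by
      intro i j
      rw [hR]
      exact mem1 Q 1 i j
    rw [← hR]
    have e : (fun y => (Q y *ᵥ v) i - v i) = (∑ j, v j • fun y => Q y i j) - algebraMap G (Γ → G) (v i) := by
      funext y
      rw [Pi.sub_apply, Finset.sum_apply]
      simp only [Matrix.mulVec, dotProduct, Pi.smul_apply, smul_eq_mul]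
      congr 1
      exact Finset.sum_congr rfl fun j _ => mul_comm _ _
    rw [e]
    exact R.sub_mem (R.sum_mem fun j _ => R.smul_mem (hmem i j) _) (R.algebraMap_mem _)
  obtain ⟨-, h2⟩ := fun_null Q hQ μ Δ hΔo hΔ _ hf x hx (sub_ne_zero.mpr hne)
  have h3 : IsOpen ((U : Set Γ) ∩ (Δ : Set Γ)) := hU.inter hΔo
  have h4 : μ ((U : Set Γ) ∩ (Δ : Set Γ)) = 0 := by
    refine measure_mono_null ?_ h2
    rintro y ⟨hy1, hy2⟩
    refine ⟨?_, hy2⟩
    change (Q y *ᵥ v) i - v i = 0
    rw [h y hy1, sub_self]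
  have h5 := (h3.measure_eq_zero_iff μ).mp h4
  have h6 : (1 : Γ) ∈ (U : Set Γ) ∩ (Δ : Set Γ) := ⟨U.one_mem, Δ.one_mem⟩
  rw [h5] at h6
  exact h6

theorem eigen_root {p : Type*} [Fintype p] [DecidableEq p] (M : Matrix p p G) (P : Polynomial ℚ)
    (hP : M.charpoly = P.map (algebraMap ℚ G)) (z : G) (v : p → G) (hv : v ≠ 0) (h : M *ᵥ v = z • v) :
    Polynomial.aeval z P = 0 := by
  rw [Polynomial.aeval_def, ← Polynomial.eval_map, ← hP, Matrix.eval_charpoly]
  rw [← Matrix.exists_mulVec_eq_zero_iff]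
  refine ⟨v, hv, ?_⟩
  rw [Matrix.sub_mulVec, h, Matrix.scalar_apply]
  funext i
  simp [Matrix.mulVec_diagonal]

theorem emb_ne_zero {s : ℕ} {n : Fin s → ℕ} (j : Fin s) (w : Fin (n j) → G) (hw : w ≠ 0) :
    emb (n := n) j w ≠ 0 := by
  intro h
  apply hw
  funext i
  rw [← emb_self (n := n) j w i, h]
  rfl

theorem det_mem {p : Type*} [Fintype p] [DecidableEq p] (Q : Γ →* Matrix p p G) {q : ℕ}
    (A : Matrix (Fin q) p G) (B : Matrix p p G) (e : Matrix p p G) (P : Matrix p (Fin q) G) :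
    (fun x => (A * (B * Q x * e) * P).det) ∈ coefAlg Q 1 := by
  obtain ⟨R, hR⟩ : ∃ R, R = coefAlg Q 1 := ⟨_, rfl⟩
  have hmem : ∀ i j, (fun x => Q x i j) ∈ R := by
    intro i j
    rw [hR]
    exact mem1 Q 1 i j
  rw [← hR]
  have hm : ∀ i j, (fun x => (A * (B * Q x * e) * P) i j) ∈ R := by
    intro i j
    have e1 : (fun x => (A * (B * Q x * e) * P) i j) = ∑ l, ∑ l', ((A * B) i l * (e * P) l' j) • fun x => Q x l l' := by
      funext x
      have e2 : A * (B * Q x * e) * P = (A * B) * Q x * (e * P) := by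
        simp only [Matrix.mul_assoc]
      rw [e2, Matrix.mul_apply, Finset.sum_apply]
      simp only [Matrix.mul_apply (M := A * B) (N := Q x), Finset.sum_mul, Finset.sum_apply, Pi.smul_apply,
        smul_eq_mul]
      rw [Finset.sum_comm]
      refine Finset.sum_congr rfl fun l _ => Finset.sum_congr rfl fun l' _ => ?_
      ring
    rw [e1]
    exact R.sum_mem fun l _ => R.sum_mem fun l' _ => R.smul_mem (hmem l l') _
  have e3 : (fun x => (A * (B * Q x * e) * P).det) =
      ((Matrix.det (Matrix.of fun i j => (⟨_, hm i j⟩ : R)) : R) : Γ → G) := by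
    funext x
    have h4 := RingHom.map_det ((ev R x : R →ₐ[G] G) : R →+* G) (Matrix.of fun i j => (⟨_, hm i j⟩ : R))
    exact h4.symm
  rw [e3]
  exact Subtype.property _

end

end Pool.Agent.H40TG
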