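import Mathlib
import Pool.Agent.H40TG.Fin5

/-!
# One reduction and one Galois element: the theorem
-/

set_option autoImplicit false
set_option linter.unusedSectionVars false
set_option linter.style.haveILetI false

namespace Pool.Agent.H40TG

open Matrix Pool.Agent.H40ZL Pool.Agent.H40GO Pool.Agent.H40LT Module MeasureTheory

section

variable {G : Type*} [Field G] [CharZero G] [TopologicalSpace G] [IsTopologicalRing G] [T2Space G] [IsAlgClosed G]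
  {Γ : Type*} [Group Γ] [TopologicalSpace Γ] [IsTopologicalGroup Γ] [CompactSpace Γ] [MeasurableSpace Γ]
  [BorelSpace Γ]

/-- the vectors fixed by `Δ` -/
def fixS {p : Type*} [Fintype p] [DecidableEq p] (Q : Γ →* Matrix p p G) (Δ : Subgroup Γ) :
    Submodule G (p → G) where
  carrier := {v | ∀ x ∈ Δ, Q x *ᵥ v = v}
  add_mem' := fun {v w} hv hw x hx => by rw [Matrix.mulVec_add, hv x hx, hw x hx]
  zero_mem' := fun x _ => Matrix.mulVec_zero _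
  smul_mem' := fun c v hv x hx => by rw [Matrix.mulVec_smul, hv x hx]

/-- **One reduction and one Galois element determine the Tate classes.** -/
theorem tate_pair (μ : Measure Γ) [IsFiniteMeasure μ] [μ.IsMulLeftInvariant] [μ.InnerRegularCompactLTTop]
    [μ.IsOpenPosMeasure] {s : ℕ} (n : Fin s → ℕ) (ρ : ∀ j, Γ →* Matrix (Fin (n j)) (Fin (n j)) G)
    (hρ : ∀ j, Continuous (ρ j)) (hirr : ∀ j, Irr (ρ j)) (S : Set Γ)
    (hrat : ∀ σ ∈ S, ∃ P : Polynomial ℚ, (blk ρ σ).charpoly = P.map (algebraMap ℚ G)) :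
    ∃ Δ : Subgroup Γ, Δ.Normal ∧ IsOpen (Δ : Set Γ) ∧ (Rigid (blk ρ) ⊤ → Δ = ⊤) ∧
      (∀ v : (Σ j, Fin (n j)) → G, (∃ U : Subgroup Γ, IsOpen (U : Set Γ) ∧ ∀ x ∈ U, blk ρ x *ᵥ v = v) ↔
        ∀ x ∈ Δ, blk ρ x *ᵥ v = v) ∧
      ∃ Z : Set Γ, IsClosed Z ∧ μ Z = 0 ∧ (∀ x ∈ Z, ∀ τ, τ * x * τ⁻¹ ∈ Z) ∧ ∀ σ ∈ S, σ ∈ Δ → σ ∉ Z →
        (∀ (m : ℕ) (v : (Σ j, Fin (n j)) → G), 0 < m → blk ρ σ ^ m *ᵥ v = v → blk ρ σ *ᵥ v = v) ∧
        ∃ Z' : Set Γ, IsClosed Z' ∧ μ Z' = 0 ∧ ∀ γ ∈ Δ, γ ∉ Z' → ∀ v : (Σ j, Fin (n j)) → G,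
          blk ρ σ *ᵥ v = v → blk ρ σ *ᵥ (blk ρ γ *ᵥ v) = blk ρ γ *ᵥ v → ∀ x ∈ Δ, blk ρ x *ᵥ v = v := by
  classical
  obtain ⟨Q, hQe⟩ : ∃ Q, Q = blk ρ := ⟨_, rfl⟩
  have hQ : Continuous Q := by
    have := cont_blk (F := G) (G := G) continuous_id ρ hρ
    rw [bc_self] at this
    rwa [hQe]
  obtain ⟨Δ, hΔn, hΔo, hΔ, hΔt⟩ := exists_delta Q hQ
  have hss : SSimple (Set.range Q) := by
    have h := ssimple_blk ρ (fun j => (hirr j).2)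
    rw [hQe]
    exact h
  obtain ⟨b, hb⟩ : ∃ b, b = Fintype.card (Σ j, Fin (n j)) := ⟨_, rfl⟩
  obtain ⟨N, hN⟩ : ∃ N, N = expo (b * b) := ⟨_, rfl⟩
  have hN0 : 0 < N := by
    rw [hN]
    exact Nat.pos_of_ne_zero (expo_ne_zero _)
  obtain ⟨Z, hZ1, hZ2, hZ3, hZ4⟩ := generic_all μ n ρ hρ hirr Δ hΔn hΔo (hQe ▸ hΔ) N hN0
  rw [← hQe] at hZ4
  rw [← hQe]
  rw [← hQe] at hrat
  have hinv : ∀ x : Γ, Q x * Q x⁻¹ = 1 := fun x => by rw [← map_mul, mul_inv_cancel, map_one]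
  have hinv' : ∀ x : Γ, Q x⁻¹ * Q x = 1 := fun x => by rw [← map_mul, inv_mul_cancel, map_one]
  have hunit : ∀ x : Γ, IsUnit (Q x) := fun x => ⟨⟨Q x, Q x⁻¹, hinv x, hinv' x⟩, rfl⟩
  refine ⟨Δ, hΔn, hΔo, hΔt, ?_, Z, hZ1, hZ2, hZ3, ?_⟩
  · intro v
    constructor
    · rintro ⟨U, hU, h⟩
      exact tate_iff μ Q hQ Δ hΔo hΔ v U hU h
    · intro h
      exact ⟨Δ, hΔo, h⟩
  intro σ hσS hσ hσZ
  obtain ⟨g1, g2, g3, g4⟩ := hZ4 σ hσ hσZ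
  obtain ⟨P, hP⟩ := hrat σ hσS
  have hPm : P.Monic := by
    have h5 : (P.map (algebraMap ℚ G)).Monic := hP ▸ Matrix.charpoly_monic (Q σ)
    exact Polynomial.monic_of_injective (algebraMap ℚ G).injective h5
  have hPd : P.natDegree ≤ b := by
    have h5 := congrArg Polynomial.natDegree hP
    rw [Matrix.charpoly_natDegree_eq_dim,
      Polynomial.natDegree_map_eq_of_injective (algebraMap ℚ G).injective] at h5
    rw [hb]
    exact h5.symm.le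
  have hroot : ∀ (z : G) (v : (Σ j, Fin (n j)) → G), v ≠ 0 → Q σ *ᵥ v = z • v → Polynomial.aeval z P = 0 :=
    fun z v hv h => eigen_root (Q σ) P hP z v hv h
  obtain ⟨p1, p2⟩ := pow_inj (Q σ) (hunit σ) N hN0 (by
    have h := g2
    exact h)
  have hsem : Module.End.IsSemisimple (Matrix.toLin' (Q σ)) := semisimple_of_max (G := G) Q hss Δ (hDn := hΔn) σ hσ g3
  -- the eigenvalues of the adjoint action
  have hA : ∀ (c : G) (d : ℕ) (M : Matrix (Σ j, Fin (n j)) (Σ j, Fin (n j)) G), 0 < d → c ^ d = 1 → M ≠ 0 →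
      Q σ * M = c • (M * Q σ) → c = 1 := by
    intro c d M hd hcd hM h
    obtain ⟨x, y, ⟨v, hv, hxv⟩, ⟨w, hw, hyw⟩, hc⟩ := ratio_exists (Q σ) hsem (hunit σ) c M hM h
    refine p1 c M hM h ?_
    rw [hN, hc]
    rw [hc] at hcd
    exact (ratio_expo P hPm.ne_zero b hPd x y (hroot x v hv hxv) (hroot y w hw hyw) d hd).1 hcd
  have hV : ∀ (m : ℕ), 0 < m → ∀ (c : G) (v : (Σ j, Fin (n j)) → G), v ≠ 0 → Q σ *ᵥ v = c • v → c ^ m = 1 → c = 1 := by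
    intro m hm c v hv h hcm
    refine p2 c v hv h ?_
    rw [hN]
    exact (ratio_expo P hPm.ne_zero b hPd c c (hroot c v hv h) (hroot c v hv h) m hm).2 hcm
  have hj : ∀ j, (∀ x ∈ Δ, ρ j x = 1) ∨ ∃ (z : G) (w : Fin (n j) → G), w ≠ 0 ∧ ρ j σ *ᵥ w = z • w ∧
      ∀ d : ℕ, 0 < d → z ^ d ≠ 1 := by
    intro j
    rcases g4 j with h | ⟨z, w, hw, hzw, hz⟩
    · exact Or.inl h
    · refine Or.inr ⟨z, w, hw, hzw, fun d hd hzd => hz ?_⟩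
      have h1 : Q σ *ᵥ emb j w = z • emb j w := by
        rw [hQe, blk_emb, hzw, emb_smul]
      have h2 := hroot z (emb j w) (emb_ne_zero j w hw) h1
      rw [hN]
      exact (ratio_expo P hPm.ne_zero b hPd z z h2 h2 d hd).2 hzd
  refine ⟨fun m v hm hv => fixed_of_pow (Q σ) hsem m (fun c v hv0 h hc => hV m hm c v hv0 h hc) v hv, ?_⟩
  obtain ⟨e, he1, he2⟩ := exists_e (Q σ)
  have hF : ∀ v, (∀ X ∈ tanS (Q '' (Δ : Set Γ)), X *ᵥ v = 0) → v ∈ fixS Q Δ := by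
    intro v hv
    have h1 := fixed_of_killed ρ hirr Δ (hΔn := hΔn) σ hσ (by rw [← hQe]; exact hsem) hj v (by rw [← hQe]; exact hv)
    rw [← hQe] at h1
    exact h1
  obtain ⟨x₀, hx₀, hr⟩ := core_rank Q hss Δ (hDn := hΔn) σ hσ g1 hsem hA (fixS Q Δ) hF e he1 he2
  obtain ⟨q, hq⟩ : ∃ q, q = finrank G (LinearMap.ker (Matrix.toLin' (Q σ - 1))) - finrank G (fixS Q Δ) := ⟨_, rfl⟩
  have hqr : q ≤ ((Q σ - 1) * Q x₀ * e).rank := by omega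
  obtain ⟨A, B, hAB⟩ := exists_QP ((Q σ - 1) * Q x₀ * e) q hqr
  have hf := det_mem Q A (Q σ - 1) e B
  obtain ⟨d1, d2⟩ := fun_null Q hQ μ Δ hΔo hΔ _ hf x₀ hx₀ (by
    rw [hAB, Matrix.det_one]
    exact one_ne_zero)
  refine ⟨_, d1, d2, ?_⟩
  intro γ hγ hγZ v hv1 hv2
  have hdet : (A * ((Q σ - 1) * Q γ * e) * B).det ≠ 0 := fun h0 => hγZ ⟨h0, hγ⟩
  have hrk : q ≤ ((Q σ - 1) * Q γ * e).rank := by
    have h1 : (A * ((Q σ - 1) * Q γ * e) * B).rank = q := by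
      rw [Matrix.rank_of_isUnit _ ((Matrix.isUnit_iff_isUnit_det _).2 (isUnit_iff_ne_zero.2 hdet)), Fintype.card_fin]
    calc q = (A * ((Q σ - 1) * Q γ * e) * B).rank := h1.symm
      _ ≤ (A * ((Q σ - 1) * Q γ * e)).rank := Matrix.rank_mul_le_left _ _
      _ ≤ ((Q σ - 1) * Q γ * e).rank := Matrix.rank_mul_le_right _ _
  exact fixed_of_rank (Q σ) (Q γ) e he1 he2 (fixS Q Δ) (fun u hu => hu σ hσ) (fun u hu => hu γ hγ) (by omega) v hv1 hv2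

end

end Pool.Agent.H40TG
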