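import Mathlib

/-!
# Project TG: conjugation by a semisimple invertible matrix is diagonalizable on the matrices
-/

set_option autoImplicit false

namespace Pool.Agent.H40TG

open Matrix Module Module.End

section

variable {k : Type*} [Field k] [IsAlgClosed k] {n : Type*} [Fintype n] [DecidableEq n]

theorem dec_left (g : Matrix n n k) (hgs : Module.End.IsSemisimple (Matrix.toLin' g)) :
    ⨆ μ : k, Module.End.eigenspace (LinearMap.mulLeft k g) μ = ⊤ := by
  refine Module.End.IsSemisimple.iSup_eigenspace_eq_top ?_
  refine Module.End.isSemisimple_of_squarefree_aeval_eq_zero hgs.minpoly_squarefree ?_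
  have h1 : Polynomial.aeval g (minpoly k (Matrix.toLin' g)) = 0 := by
    have h2 : Matrix.toLinAlgEquiv' (Polynomial.aeval g (minpoly k (Matrix.toLin' g))) = 0 := by
      have := Polynomial.aeval_algHom_apply (Matrix.toLinAlgEquiv' (R := k) (n := n)).toAlgHom g
        (minpoly k (Matrix.toLin' g))
      exact this.symm.trans (minpoly.aeval k (Matrix.toLin' g))
    exact (map_eq_zero_iff _ (Matrix.toLinAlgEquiv' (R := k) (n := n)).injective).1 h2
  have : Polynomial.aeval (Algebra.lmul k (Matrix n n k) g) (minpoly k (Matrix.toLin' g)) = 0 := by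
    rw [Polynomial.aeval_algHom_apply, h1, map_zero]
  exact this

theorem dec_right (g : Matrix n n k) (hgs : Module.End.IsSemisimple (Matrix.toLin' g)) :
    ⨆ μ : k, Module.End.eigenspace (LinearMap.mulRight k g) μ = ⊤ := by
  refine Module.End.IsSemisimple.iSup_eigenspace_eq_top ?_
  refine Module.End.isSemisimple_of_squarefree_aeval_eq_zero hgs.minpoly_squarefree ?_
  have h1 : Polynomial.aeval g (minpoly k (Matrix.toLin' g)) = 0 := by
    have h2 : Matrix.toLinAlgEquiv' (Polynomial.aeval g (minpoly k (Matrix.toLin' g))) = 0 := by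
      have := Polynomial.aeval_algHom_apply (Matrix.toLinAlgEquiv' (R := k) (n := n)).toAlgHom g
        (minpoly k (Matrix.toLin' g))
      exact this.symm.trans (minpoly.aeval k (Matrix.toLin' g))
    exact (map_eq_zero_iff _ (Matrix.toLinAlgEquiv' (R := k) (n := n)).injective).1 h2
  have hrw : LinearMap.mulRight k g =
      (Algebra.lsmul (A := (Matrix n n k)ᵐᵒᵖ) k k (Matrix n n k)) (.op g) := by
    ext; simp [Algebra.lsmul]
  rw [hrw, Polynomial.aeval_algHom_apply, Polynomial.aeval_op_apply, h1, MulOpposite.op_zero, map_zero]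

/-- Every element of a subspace stable under conjugation by `g` is a sum of elements `f c` of the subspace with
`g (f c) = c (f c) g`. -/
theorem exists_decomp (g q : Matrix n n k) (hq : g * q = 1) (hgs : Module.End.IsSemisimple (Matrix.toLin' g))
    (L : Submodule k (Matrix n n k)) (hL : ∀ X ∈ L, g * X * q ∈ L) (Y : Matrix n n k) (hY : Y ∈ L) :
    ∃ f : k →₀ Matrix n n k, (∀ c, f c ∈ L ∧ g * f c = c • (f c * g)) ∧ f.sum (fun _ M => M) = Y := by
  have hq' : q * g = 1 := mul_eq_one_comm.1 hq
  set C : Module.End k (Matrix n n k) := LinearMap.mulLeft k g * LinearMap.mulRight k q with hC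
  have hCa : ∀ M, C M = g * M * q := fun M => by simp [hC, mul_assoc]
  have hCe : ∀ (c : k) (M : Matrix n n k), M ∈ C.eigenspace c ↔ g * M = c • (M * g) := by
    intro c M
    rw [Module.End.mem_eigenspace_iff, hCa]
    constructor
    · intro h
      calc g * M = g * M * q * g := by rw [mul_assoc (g * M), hq', mul_one]
        _ = c • (M * g) := by rw [h, smul_mul_assoc]
    · intro h
      rw [h, smul_mul_assoc, mul_assoc, hq, mul_one]
  have htop : ⨆ c : k, C.eigenspace c = ⊤ := by
    rw [eq_top_iff, ← dec_left g hgs]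
    refine iSup_le fun a => ?_
    have h1 := Submodule.eq_iSup_inf_genEigenspace (f := LinearMap.mulRight k g)
      (p := Module.End.eigenspace (LinearMap.mulLeft k g) a) 1 (fun x hx => by
        rw [Module.End.mem_eigenspace_iff] at hx ⊢
        simp only [LinearMap.mulLeft_apply, LinearMap.mulRight_apply] at hx ⊢
        rw [← mul_assoc, hx, smul_mul_assoc]) (dec_right g hgs)
    rw [h1]
    refine iSup_le fun b => ?_
    rintro M ⟨hM1, hM2⟩
    have hM1' : g * M = a • M := by
      have := Module.End.mem_eigenspace_iff.1 hM1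
      simpa using this
    have hM2' : M * g = b • M := by
      have := Module.End.mem_eigenspace_iff.1 hM2
      simpa using this
    by_cases hM : M = 0
    · rw [hM]
      exact Submodule.zero_mem _
    have hb : b ≠ 0 := by
      rintro rfl
      rw [zero_smul] at hM2'
      apply hM
      calc M = M * g * q := by rw [mul_assoc, hq, mul_one]
        _ = 0 := by rw [hM2', zero_mul]
    refine Submodule.mem_iSup_of_mem (a / b) ?_
    rw [hCe, hM1', hM2', smul_smul, div_mul_cancel₀ _ hb]
  have h2 := Submodule.eq_iSup_inf_genEigenspace (f := C) (p := L) 1 (fun x hx => by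
    rw [hCa]; exact hL x hx) htop
  rw [h2, Submodule.mem_iSup_iff_exists_finsupp] at hY
  obtain ⟨f, hf1, hf2⟩ := hY
  exact ⟨f, fun c => ⟨(hf1 c).1, (hCe c _).1 (hf1 c).2⟩, hf2⟩

/-- Components for different eigenvalues are independent. -/
theorem wt_indep (g q : Matrix n n k) (hq : g * q = 1) {ι : Type*} (φ : ι → k) (hφ : Function.Injective φ)
    (s : Finset ι) (v : ι → Matrix n n k) (hv : ∀ i ∈ s, g * v i = φ i • (v i * g)) (h0 : ∑ i ∈ s, v i = 0) :
    ∀ i ∈ s, v i = 0 := by
  classical
  set C : Module.End k (Matrix n n k) := LinearMap.mulLeft k g * LinearMap.mulRight k q with hC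
  have hCa : ∀ M, C M = g * M * q := fun M => by simp [hC, mul_assoc]
  have h1 : iSupIndep fun i => C.eigenspace (φ i) := C.eigenspaces_iSupIndep.comp hφ
  refine (iSupIndep_iff_finsetSum_eq_zero_imp_eq_zero _).1 h1 s v (fun i hi => ?_) h0
  rw [Module.End.mem_eigenspace_iff, hCa, hv i hi, smul_mul_assoc, mul_assoc, hq, mul_one]

end

end Pool.Agent.H40TG
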