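import Mathlib
import Pool.Agent.H40TG.Defs
import Pool.Agent.H40TG.Dec
import Pool.Agent.H40ZL.C

/-!
# Project TG, stub J4: graded Jacobson-Morozov, from the ungraded statements J2 and J3
-/

set_option autoImplicit false

namespace Pool.Agent.H40TG

open Matrix Pool.Agent.H40ZL

section

variable {k : Type*} [Field k] {n : Type*} [Fintype n] [DecidableEq n]

/-- `[X, [X, M]]` -/
def adad (X : Matrix n n k) : Matrix n n k →ₗ[k] Matrix n n k where
  toFun M := X * (X * M - M * X) - (X * M - M * X) * X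
  map_add' M N := by noncomm_ring
  map_smul' c M := by
    simp only [RingHom.id_apply, mul_smul_comm, smul_mul_assoc, smul_sub, mul_sub, sub_mul]

theorem adad_apply (X M : Matrix n n k) : adad X M = X * (X * M - M * X) - (X * M - M * X) * X := rfl

theorem comm_wt {g X M : Matrix n n k} {a b : k} (h1 : g * X = a • (X * g)) (h2 : g * M = b • (M * g)) :
    g * (X * M - M * X) = (a * b) • ((X * M - M * X) * g) := by
  rw [mul_sub, sub_mul, smul_sub]
  have e1 : g * (X * M) = (a * b) • (X * M * g) := by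
    rw [← mul_assoc, h1, smul_mul_assoc, mul_assoc, h2, mul_smul_comm, smul_smul, mul_assoc]
  have e2 : g * (M * X) = (a * b) • (M * X * g) := by
    rw [← mul_assoc, h2, smul_mul_assoc, mul_assoc, h1, mul_smul_comm, smul_smul, mul_assoc, mul_comm b a]
  rw [e1, e2]

/-- the elements `Z` of `L` with `[X, Z] = 0` and `g Z = c Z g` -/
def KK (L : Submodule k (Matrix n n k)) (X g : Matrix n n k) (c : k) : Submodule k (Matrix n n k) where
  carrier := {Z | Z ∈ L ∧ X * Z = Z * X ∧ g * Z = c • (Z * g)}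
  add_mem' := by
    rintro Z W ⟨h1, h2, h3⟩ ⟨h4, h5, h6⟩
    refine ⟨L.add_mem h1 h4, ?_, ?_⟩
    · rw [mul_add, add_mul, h2, h5]
    · rw [mul_add, add_mul, h3, h6, smul_add]
  zero_mem' := ⟨L.zero_mem, by simp, by simp⟩
  smul_mem' := by
    rintro a Z ⟨h1, h2, h3⟩
    refine ⟨L.smul_mem a h1, ?_, ?_⟩
    · rw [mul_smul_comm, smul_mul_assoc, h2]
    · rw [mul_smul_comm, h3, smul_mul_assoc, smul_comm]

theorem triple_of [IsAlgClosed k] [CharZero k]
    (hJ2 : ∀ (L : Submodule k (Matrix n n k)), (∀ X ∈ L, ∀ Y ∈ L, X * Y - Y * X ∈ L) →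
      (∀ ν ∈ L, IsNilpotent ν → (∀ X ∈ L, Matrix.trace (ν * X) = 0) → ν = 0) → ∀ X : Matrix n n k, X ∈ L →
      IsNilpotent X → ∃ Y ∈ L, X * (X * Y - Y * X) - (X * Y - Y * X) * X = -(2 : k) • X)
    (hJ3 : ∀ (X Y H Z : Matrix n n k), IsNilpotent X → X * Y - Y * X = H → H * X - X * H = (2 : k) • X →
      X * Z = Z * X → H * Z - Z * H = -(2 : k) • Z → Z = 0)
    (A : Set (Matrix n n k)) (L : Submodule k (Matrix n n k)) (h : Setup A L) (g : Matrix n n k) (hg : g ∈ A)
    (hgs : Module.End.IsSemisimple (Matrix.toLin' g)) (X : Matrix n n k) (hX : X ∈ L) (hn : IsNilpotent X)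
    (c : k) (hc : c ≠ 0) (hgX : g * X = c • (X * g)) :
    ∃ H ∈ L, ∃ Y ∈ L, g * H = H * g ∧ g * Y = c⁻¹ • (Y * g) ∧ X * Y - Y * X = H ∧ H * X - X * H = (2 : k) • X ∧
      H * Y - Y * H = -(2 : k) • Y := by
  classical
  obtain ⟨q, -, hq⟩ := h.inv g hg
  obtain ⟨Y0, hY0, hY0e⟩ := hJ2 L h.lie (fun ν hν hnil htr =>
    nilp_eq_zero A h.ss h.inv L h.lie h.conj h.span ν hν hnil htr) X hX hn
  obtain ⟨q', hq'A, hq'⟩ := h.inv g hg
  have hqq : q' = q := by
    have h1 : q * g = 1 := mul_eq_one_comm.1 hq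
    calc q' = q * g * q' := by rw [h1, one_mul]
      _ = q := by rw [mul_assoc, hq', mul_one]
  obtain ⟨f, hf, hfs⟩ := exists_decomp g q hq hgs L (fun M hM => h.conj g hg q (hqq ▸ hq'A) hq M hM) Y0 hY0
  -- the component of weight `c⁻¹`
  have hD : adad X (f c⁻¹) + (2 : k) • X = 0 := by
    have hs : ∑ i ∈ insert c⁻¹ f.support, (adad X (f i) + if i = c⁻¹ then (2 : k) • X else 0) = 0 := by
      rw [Finset.sum_add_distrib, Finset.sum_ite_eq' (insert c⁻¹ f.support) c⁻¹, if_pos (Finset.mem_insert_self _ _),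
        ← map_sum]
      have h1 : ∑ i ∈ insert c⁻¹ f.support, f i = Y0 := by
        rw [← hfs, Finsupp.sum]
        symm
        refine Finset.sum_subset (Finset.subset_insert _ _) fun i _ hi => ?_
        exact Finsupp.notMem_support_iff.1 hi
      rw [h1, adad_apply, hY0e, neg_smul, neg_add_cancel]
    have h2 := wt_indep g q hq (fun i : k => c * c * i) (fun a b hab => by
      have hcc : c * c ≠ 0 := mul_ne_zero hc hc
      exact mul_left_cancel₀ hcc hab) (insert c⁻¹ f.support)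
      (fun i => adad X (f i) + if i = c⁻¹ then (2 : k) • X else 0) (fun i _ => by
        have h3 : g * adad X (f i) = (c * c * i) • (adad X (f i) * g) := by
          rw [adad_apply]
          have := comm_wt hgX (comm_wt hgX (hf i).2)
          rw [mul_assoc c c i]
          exact this
        have h4 : g * (if i = c⁻¹ then (2 : k) • X else 0) =
            (c * c * i) • ((if i = c⁻¹ then (2 : k) • X else 0) * g) := by
          split_ifs with hi
          · rw [hi, mul_assoc, mul_inv_cancel₀ hc, mul_one, mul_smul_comm, smul_mul_assoc, hgX, smul_comm]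
          · rw [mul_zero, zero_mul, smul_zero]
        rw [mul_add, add_mul, smul_add, h3, h4]) hs c⁻¹ (Finset.mem_insert_self _ _)
    simpa using h2
  set Y1 := f c⁻¹ with hY1
  have hY1L : Y1 ∈ L := (hf c⁻¹).1
  have hgY1 : g * Y1 = c⁻¹ • (Y1 * g) := (hf c⁻¹).2
  set H := X * Y1 - Y1 * X with hH
  have hHL : H ∈ L := h.lie X hX Y1 hY1L
  have hgH : g * H = H * g := by
    have := comm_wt hgX hgY1
    rw [mul_inv_cancel₀ hc, one_smul] at this
    exact this
  have hXH : X * H - H * X = -((2 : k) • X) := by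
    rw [adad_apply] at hD
    exact eq_neg_of_add_eq_zero_left hD
  have hHX : H * X - X * H = (2 : k) • X := by
    rw [← neg_sub, hXH, neg_neg]
  -- the map on `K`
  let K := KK L X g c⁻¹
  have hmap : ∀ Z ∈ K, (H * Z - Z * H) + (2 : k) • Z ∈ K := by
    rintro Z ⟨h1, h2, h3⟩
    refine ⟨L.add_mem (h.lie H hHL Z h1) (L.smul_mem _ h1), ?_, ?_⟩
    · have e : X * (H * Z - Z * H) - (H * Z - Z * H) * X = (X * H - H * X) * Z - Z * (X * H - H * X) := by
        have e1 : X * (H * Z - Z * H) - (H * Z - Z * H) * X = X * H * Z - (X * Z) * H - H * (Z * X) + Z * H * X := by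
          noncomm_ring
        rw [e1, h2, ← h2]
        noncomm_ring
        rw [← mul_assoc Z X H, ← h2]
        noncomm_ring
      rw [hXH] at e
      have e2 : -((2 : k) • X) * Z - Z * -((2 : k) • X) = 0 := by
        rw [neg_mul, mul_neg, smul_mul_assoc, mul_smul_comm, h2]
        abel
      rw [e2] at e
      rw [mul_add, add_mul, mul_smul_comm, smul_mul_assoc, h2, sub_eq_zero.1 e]
    · have e1 := comm_wt (X := H) (a := 1) (b := c⁻¹) (by rw [one_smul]; exact hgH) h3
      rw [one_mul] at e1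
      rw [mul_add, add_mul, smul_add, e1, mul_smul_comm, h3, smul_mul_assoc]
      congr 1
      rw [smul_comm]
  let T : K →ₗ[k] K :=
    { toFun := fun Z => ⟨(H * Z.1 - Z.1 * H) + (2 : k) • Z.1, hmap Z.1 Z.2⟩
      map_add' := fun Z W => by
        apply Subtype.ext
        show (H * (Z.1 + W.1) - (Z.1 + W.1) * H) + (2 : k) • (Z.1 + W.1) =
          ((H * Z.1 - Z.1 * H) + (2 : k) • Z.1) + ((H * W.1 - W.1 * H) + (2 : k) • W.1)
        rw [mul_add, add_mul, smul_add]
        abel
      map_smul' := fun a Z => by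
        apply Subtype.ext
        show (H * (a • Z.1) - (a • Z.1) * H) + (2 : k) • (a • Z.1) = a • ((H * Z.1 - Z.1 * H) + (2 : k) • Z.1)
        rw [mul_smul_comm, smul_mul_assoc, smul_add, smul_sub, smul_comm a (2 : k)] }
  have hinj : Function.Injective T := by
    rw [injective_iff_map_eq_zero]
    intro Z hZ
    have h1 : (H * Z.1 - Z.1 * H) + (2 : k) • Z.1 = 0 := congrArg Subtype.val hZ
    apply Subtype.ext
    refine hJ3 X Y1 H Z.1 hn rfl hHX Z.2.2.1 ?_
    rw [neg_smul]
    exact eq_neg_of_add_eq_zero_left h1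
  have hsurj : Function.Surjective T := LinearMap.injective_iff_surjective.1 hinj
  have hW : (H * Y1 - Y1 * H) + (2 : k) • Y1 ∈ K := by
    refine ⟨L.add_mem (h.lie H hHL Y1 hY1L) (L.smul_mem _ hY1L), ?_, ?_⟩
    · have e : X * (H * Y1 - Y1 * H) - (H * Y1 - Y1 * H) * X =
          (X * H - H * X) * Y1 - Y1 * (X * H - H * X) + (H * (X * Y1 - Y1 * X) - (X * Y1 - Y1 * X) * H) := by
        noncomm_ring
      rw [← hH, sub_self, add_zero, hXH] at e
      have e2 : -((2 : k) • X) * Y1 - Y1 * -((2 : k) • X) = -((2 : k) • H) := by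
        rw [neg_mul, mul_neg, smul_mul_assoc, mul_smul_comm, hH, smul_sub]
        abel
      rw [e2] at e
      have e3 : X * ((H * Y1 - Y1 * H) + (2 : k) • Y1) - ((H * Y1 - Y1 * H) + (2 : k) • Y1) * X =
          (X * (H * Y1 - Y1 * H) - (H * Y1 - Y1 * H) * X) + (2 : k) • (X * Y1 - Y1 * X) := by
        rw [mul_add, add_mul, mul_smul_comm, smul_mul_assoc, smul_sub]
        abel
      rw [e, ← hH, neg_add_cancel] at e3
      exact sub_eq_zero.1 e3
    · have e1 := comm_wt (X := H) (a := 1) (b := c⁻¹) (by rw [one_smul]; exact hgH) hgY1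
      rw [one_mul] at e1
      rw [mul_add, add_mul, smul_add, e1, mul_smul_comm, hgY1, smul_mul_assoc]
      congr 1
      rw [smul_comm]
  obtain ⟨Z', hZ'⟩ := hsurj ⟨_, hW⟩
  have hZe : (H * Z'.1 - Z'.1 * H) + (2 : k) • Z'.1 = (H * Y1 - Y1 * H) + (2 : k) • Y1 := congrArg Subtype.val hZ'
  obtain ⟨hZL, hZX, hZg⟩ := Z'.2
  refine ⟨H, hHL, Y1 - Z'.1, L.sub_mem hY1L hZL, hgH, ?_, ?_, hHX, ?_⟩
  · rw [mul_sub, sub_mul, smul_sub, hgY1, hZg]
  · rw [mul_sub, sub_mul, hZX, hH]
    abel
  · have e4 : H * (Y1 - Z'.1) - (Y1 - Z'.1) * H = (H * Y1 - Y1 * H) - (H * Z'.1 - Z'.1 * H) := by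
      noncomm_ring
    have e5 : H * Y1 - Y1 * H = (H * Z'.1 - Z'.1 * H) + (2 : k) • Z'.1 - (2 : k) • Y1 := by
      rw [hZe]
      abel
    rw [e4, e5, neg_smul, smul_sub]
    abel

end

end Pool.Agent.H40TG
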