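import Mathlib
import Pool.Agent.H40TG.Defs
import Pool.Agent.H40ZL.H1
import Pool.Agent.H40ZL.H4
import Pool.Agent.H40ZL.H5

/-!
# Project TG, stub N1 (helper63): elements with the maximal number of distinct eigenvalues
-/

set_option autoImplicit false

namespace Pool.Agent.H40TG.N1

open Matrix Pool.Agent.H40ZL

section general

variable {R S : Type*} [CommRing R] [CommRing S] {n : Type*} [Fintype n] [DecidableEq n]

lemma map_aeval (f : R →+* S) (A : Matrix n n R) (p : Polynomial R) :
    (Polynomial.aeval A p).map f = Polynomial.aeval (A.map f) (p.map f) := by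
  induction p using Polynomial.induction_on' with
  | add p q hp hq =>
    rw [map_add, Polynomial.map_add, map_add, ← hp, ← hq]
    ext i j
    simp
  | monomial k a =>
    rw [Polynomial.map_monomial, Polynomial.aeval_monomial, Polynomial.aeval_monomial]
    have h1 : (A ^ k).map f = (A.map f) ^ k := by
      have := map_pow f.mapMatrix A k
      simpa using this
    rw [← h1]
    ext i j
    simp [Algebra.algebraMap_eq_smul_one]

lemma map_psi (f : R →+* S) (x : Matrix n n R) : (psi x).map f = psi (x.map f) := by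
  have hdet : f x.det = (x.map f).det := by
    rw [RingHom.map_det, RingHom.mapMatrix_apply]
  have hadj : ∀ i j, f (x.adjugate i j) = (x.map f).adjugate i j := by
    intro i j
    have h := RingHom.map_adjugate f x
    rw [RingHom.mapMatrix_apply, RingHom.mapMatrix_apply] at h
    rw [← h]
    rfl
  unfold psi
  ext i j
  rcases i with i | i | i <;> rcases j with j | j | j <;>
    simp [Matrix.kroneckerMap_apply, hdet, hadj, Matrix.one_apply]

lemma aeval_mulVec (A : Matrix n n R) (w : n → R) (z : R) (h : A *ᵥ w = z • w) (p : Polynomial R) :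
    (Polynomial.aeval A p) *ᵥ w = p.eval z • w := by
  have hpow : ∀ k : ℕ, (A ^ k) *ᵥ w = z ^ k • w := by
    intro k
    induction k with
    | zero => simp
    | succ k ih =>
      rw [pow_succ, ← Matrix.mulVec_mulVec, h, Matrix.mulVec_smul, ih, smul_smul, pow_succ, mul_comm]
  induction p using Polynomial.induction_on' with
  | add p q hp hq => rw [map_add, Matrix.add_mulVec, hp, hq, Polynomial.eval_add, add_smul]
  | monomial k a =>
    rw [Polynomial.aeval_monomial, Polynomial.eval_monomial, ← Matrix.mulVec_mulVec, hpow,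
      Algebra.algebraMap_eq_smul_one, Matrix.smul_mulVec, Matrix.one_mulVec, smul_smul]

lemma pow_mulVec (A : Matrix n n R) (w : n → R) (z : R) (h : A *ᵥ w = z • w) (k : ℕ) :
    (A ^ k) *ᵥ w = z ^ k • w := by
  induction k with
  | zero => simp
  | succ k ih =>
    rw [pow_succ, ← Matrix.mulVec_mulVec, h, Matrix.mulVec_smul, ih, smul_smul, pow_succ, mul_comm]

/-- the vector `(a, v, M)` -/
def vec3 (a : R) (v : n → R) (M : Matrix n n R) : Unit ⊕ (n ⊕ n × n) → R :=
  Sum.elim (fun _ => a) (Sum.elim v (fun q => M q.1 q.2))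

lemma psi_mulVec (x : Matrix n n R) (a : R) (v : n → R) (M : Matrix n n R) :
    psi x *ᵥ vec3 a v M = vec3 (x.det * a) (x.det • (x *ᵥ v)) (x * M * x.adjugate) := by
  unfold psi vec3
  rw [Matrix.fromBlocks_mulVec, Matrix.fromBlocks_mulVec]
  ext i
  rcases i with i | i | i
  · simp [Matrix.smul_mulVec]
  · simp [Matrix.smul_mulVec]
  · obtain ⟨i1, i2⟩ := i
    simp only [Sum.elim_inr, Matrix.zero_mulVec, zero_add, Pi.add_apply, Pi.zero_apply]
    simp only [Matrix.mulVec, dotProduct, Matrix.kroneckerMap_apply, Matrix.transpose_apply, Fintype.sum_prod_type,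
      Matrix.mul_apply, Finset.sum_mul, Function.comp_apply]
    simp only [Sum.elim_inr, Sum.elim_inl, Finset.sum_const_zero, Matrix.zero_apply, zero_mul, zero_add]
    rw [Finset.sum_comm]
    refine Finset.sum_congr rfl fun j _ => Finset.sum_congr rfl fun l _ => ?_
    ring

end general

section power

variable {k : Type*} [Field k] {n : Type*} [Fintype n] [DecidableEq n]

/-- `exp (β s)` -/
noncomputable def ex (β : k) : PowerSeries k := PowerSeries.mk fun l => ((l.factorial : k)⁻¹) * β ^ l

lemma ex_zero [CharZero k] : ex (0 : k) = 1 := by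
  ext l
  rw [ex, PowerSeries.coeff_mk, PowerSeries.coeff_one]
  rcases Nat.eq_zero_or_pos l with h | h
  · subst h
    simp
  · rw [zero_pow (by omega), mul_zero, if_neg (by omega)]

lemma ex_inj {β β' : k} (h : ex β = ex β') : β = β' := by
  have := congrArg (PowerSeries.coeff 1) h
  simpa [ex] using this

lemma ex_const (β : k) : PowerSeries.constantCoeff (ex β) = 1 := by
  rw [← PowerSeries.coeff_zero_eq_constantCoeff_apply, ex, PowerSeries.coeff_mk]
  simp

lemma expM_const (X : Matrix n n k) : (expM X).map (PowerSeries.constantCoeff (R := k)) = 1 := by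
  ext i j
  rw [Matrix.map_apply, ← PowerSeries.coeff_zero_eq_constantCoeff_apply, expM, Matrix.of_apply, PowerSeries.coeff_mk]
  simp

lemma algebraMap_eq_C (a : k) : algebraMap k (PowerSeries k) a = PowerSeries.C a := rfl

lemma expM_mulVec (X : Matrix n n k) (v : n → k) (β : k) (h : X *ᵥ v = β • v) :
    expM X *ᵥ (fun i => PowerSeries.C (v i)) = ex β • (fun i => PowerSeries.C (v i)) := by
  have hp := pow_mulVec X v β h
  ext i l
  simp only [Matrix.mulVec, dotProduct, Pi.smul_apply, smul_eq_mul, map_sum, PowerSeries.coeff_mul_C]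
  have h1 := congrFun (hp l) i
  simp only [Matrix.mulVec, dotProduct, Pi.smul_apply, smul_eq_mul] at h1
  simp only [expM, ex, Matrix.of_apply, PowerSeries.coeff_mk]
  rw [mul_assoc, ← h1, Finset.mul_sum]
  exact Finset.sum_congr rfl fun j _ => by ring

lemma pow_comm (X M : Matrix n n k) (β : k) (h : X * M - M * X = β • M) (l : ℕ) :
    X ^ l * M = M * (algebraMap k _ β + X) ^ l := by
  have h1 : X * M = M * (algebraMap k _ β + X) := by
    rw [mul_add, Algebra.algebraMap_eq_smul_one, Matrix.mul_smul, mul_one]
    rw [← h]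
    abel
  induction l with
  | zero => simp
  | succ l ih => rw [pow_succ, mul_assoc, h1, ← mul_assoc, ih, mul_assoc, ← pow_succ]

lemma expM_mul [CharZero k] (X M : Matrix n n k) (β : k) (h : X * M - M * X = β • M) :
    expM X * M.map (PowerSeries.C (R := k)) = ex β • (M.map (PowerSeries.C (R := k)) * expM X) := by
  ext i j l
  rw [Matrix.mul_apply, Matrix.smul_apply, Matrix.mul_apply, smul_eq_mul]
  simp only [Matrix.map_apply, map_sum, PowerSeries.coeff_mul_C]
  have e1 : ∑ x, (PowerSeries.coeff l) (expM X i x) * M x j = ((l.factorial : k)⁻¹) * (X ^ l * M) i j := by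
    rw [Matrix.mul_apply, Finset.mul_sum]
    refine Finset.sum_congr rfl fun x _ => ?_
    rw [expM, Matrix.of_apply, PowerSeries.coeff_mk, mul_assoc]
  rw [e1, PowerSeries.coeff_mul]
  have e2 : ∀ b : ℕ, PowerSeries.coeff b (∑ x, PowerSeries.C (M i x) * expM X x j) =
      ((b.factorial : k)⁻¹) * (M * X ^ b) i j := by
    intro b
    rw [map_sum, Matrix.mul_apply, Finset.mul_sum]
    refine Finset.sum_congr rfl fun x _ => ?_
    rw [PowerSeries.coeff_C_mul, expM, Matrix.of_apply, PowerSeries.coeff_mk]
    ring
  simp only [e2]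
  rw [pow_comm X M β h l]
  have hc : Commute (algebraMap k (Matrix n n k) β) X := Algebra.commutes β X
  rw [hc.add_pow', Finset.mul_sum, Matrix.sum_apply, Finset.mul_sum]
  refine Finset.sum_congr rfl fun q hq => ?_
  have hq' := Finset.HasAntidiagonal.mem_antidiagonal.mp hq
  have e3 : (M * (l.choose q.1 • (algebraMap k (Matrix n n k) β ^ q.1 * X ^ q.2))) i j =
      (l.choose q.1 : k) * β ^ q.1 * (M * X ^ q.2) i j := by
    rw [← map_pow, Algebra.algebraMap_eq_smul_one, smul_mul_assoc, one_mul, Matrix.mul_smul, Matrix.mul_smul,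
      Matrix.smul_apply, Matrix.smul_apply, nsmul_eq_mul, smul_eq_mul, mul_assoc]
  rw [e3, ex, PowerSeries.coeff_mk]
  have h3 : (l.choose q.1 : k) * (q.1.factorial * q.2.factorial) = l.factorial := by
    have := Nat.choose_mul_factorial_mul_factorial (n := l) (k := q.1) (by omega)
    have e : l - q.1 = q.2 := by omega
    rw [e] at this
    rw [← mul_assoc]
    exact_mod_cast this
  have f1 : (q.1.factorial : k) ≠ 0 := by exact_mod_cast Nat.factorial_ne_zero _
  have f2 : (q.2.factorial : k) ≠ 0 := by exact_mod_cast Nat.factorial_ne_zero _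
  have f3 : (l.factorial : k) ≠ 0 := by exact_mod_cast Nat.factorial_ne_zero _
  have e4 : (l.factorial : k)⁻¹ * (l.choose q.1 : k) = (q.1.factorial : k)⁻¹ * (q.2.factorial : k)⁻¹ := by
    rw [← h3]
    have f4 : (l.choose q.1 : k) ≠ 0 := by
      intro h0
      rw [h0, zero_mul] at h3
      exact f3 h3.symm
    field_simp
  calc (l.factorial : k)⁻¹ * ((l.choose q.1 : k) * β ^ q.1 * (M * X ^ q.2) i j)
      = ((l.factorial : k)⁻¹ * (l.choose q.1 : k)) * (β ^ q.1 * (M * X ^ q.2) i j) := by ring
    _ = _ := by rw [e4]; ring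

end power

end Pool.Agent.H40TG.N1
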