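import Mathlib
import Pool.Agent.H40ZL.Defs
import Pool.Agent.H40TG.Defs

/-!
# Project TG: stubs.  Everything is elementary linear algebra over a field of characteristic zero.
Proved library (import what you need): `Pool.Agent.H40ZL.H4` (`hank_nilp`), `H5` (`hank_sep`), `H1` (`hank_map`),
`C` (`nilp_eq_zero`), `A1` (`expPoly_indep`), `A2` (`tangent_unip`), `L1` (`genD_X`, `tangent_add`), all in
`Pool/Agent/H40ZL` on main, with the statements and proofs explained in `Pool/Agent/H40ZL/Stm.lean`.
-/

set_option autoImplicit false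

namespace Pool.Agent.H40TG

open Matrix Pool.Agent.H40ZL

/-- **E1.** Exponentials of tangent vectors.  Proof: the map `Φ : P ↦ P(y exp(sX))` to `k[[s]]` is an algebra
homomorphism with `d/ds Φ(P) = Φ(genD X P)` (both sides are derivations along `Φ`; on the variable `x_q` it is
`d/ds exp(sX) = exp(sX) X`), so `Φ(P)` has the coefficients `(genD X)^l P (y) / l! = 0`: by induction on `l`, for all `P`
vanishing on `S`, `coeff l (Φ P) = 0` (`(l+1) coeff (l+1) (Φ P) = coeff l (Φ (genD X P))`; `PowerSeries.derivative` or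
coefficientwise). -/
theorem exp_zero {k : Type*} [Field k] [CharZero k] {n : Type*} [Fintype n] [DecidableEq n] (S : Set (Matrix n n k))
    (X : Matrix n n k) (hX : IsTangent S X) (P : MvPolynomial (n × n) k) (hP : ∀ x ∈ S, evm x P = 0)
    (y : Matrix n n k) (hy : y ∈ S) :
    MvPolynomial.aeval (fun q : n × n => (y.map (algebraMap k (PowerSeries k)) * expM X) q.1 q.2) P = 0 := by
  sorry

/-- **N1.** (uses E1 and `hank_nilp`, `hank_sep`, `hank_map` of H40ZL; k algebraically closed, take `G = k` there)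
If `g ∈ S` has the maximal number `m = nd k (psi g)` of distinct eigenvalues on `det ⊗ (1 ⊕ V ⊕ End V)` among the
elements of `S`, then the eigenvalue of a tangent vector at a joint eigenvector is determined by that of `g`.

Proof.  For `x ∈ S` let `h_x = hank m (psi x)`; by `hank_nilp` `h_x(psi x)` is nilpotent, so its power `N` = size is
zero.  These are polynomial identities in the entries of `x` (apply everything to the generic matrix
`Matrix.mvPolynomialX n n k`, `hank_map`, and `psi` commutes with ring homomorphisms), so by E1 they hold for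
`x = x(s) = g exp(sX)` over `k[[s]]`.  If `(a, v, M)` is a joint eigenvector then `(a, v, M)` is an eigenvector of
`psi (x(s))` with the eigenvalue `z = det(x(s)) μ exp(βs)` (`exp(sX) v = exp(βs) v`, and `X M = M (X + β)` gives
`exp(sX) M = exp(βs) M exp(sX)`; `x M adj(x) = z M`; `psi` acts on the vector of the entries of `M`).  So
`h(z)^N (a,v,M) = 0` and `h(z) = 0` in `k[[s]]`, `h = hank m (psi x(s))`.  For two joint eigenvectors with the same `μ`
the roots `z, z'` of `h` have the same constant term `z₀`, a root of the separable polynomial `h₀ = hank m (psi g)`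
(`hank_sep`), so `h₀'(z₀) ≠ 0` and from `0 = h(z) - h(z') = (z - z') (h'(z') + (z - z') (…))`, the second factor a unit,
`z = z'`.  As `det(x(s)) μ` is not zero (`g` invertible; `μ ≠ 0`), `exp(βs) = exp(β's)`, `β = β'`. -/
theorem single_of_max {k : Type*} [Field k] [IsAlgClosed k] [CharZero k] {n : Type*} [Fintype n] [DecidableEq n]
    (S : Set (Matrix n n k)) (g : Matrix n n k) (hg : g ∈ S) (hu : IsUnit g)
    (hmax : ∀ x ∈ S, nd k (psi x) ≤ nd k (psi g)) (X : Matrix n n k) (hX : IsTangent S X) : Single g X := by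
  sorry

/-- **T1.** The nilpotent elements of the centralizer of `g` in `L` are zero.
Notation: `g` is diagonalizable (`k` algebraically closed), `V = ⊕ V_μ`, the projectors `e_μ` are polynomials in `g`;
the conjugation `c(M) = g M g⁻¹` on matrices is diagonalizable, and `L` is stable under `c` and `c⁻¹`
(`Setup.conj`), so the components `M_λ` (`g M_λ = λ M_λ g`) of `M ∈ L` are in `L`.
Let `t = {T ∈ L | g T = T g}`.  By `Single` each `T ∈ t` has exactly one eigenvalue `β_μ(T)` on `V_μ` (take `a = 0`,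
`M = 0`); `tr(T | V_μ) = dim V_μ · β_μ(T)`, so `β_μ` is linear on `t` and zero on commutators.
Let `ν ∈ t` be nilpotent; `tr(ν X) = 0` for all `X ∈ L`: only the component `X_1 ∈ t` matters, and on `V_μ` the
operators `T - β_μ(T)`, `T ∈ t`, form a Lie algebra of nilpotent operators, so by Engel the trace form is zero
(`LieModule.traceForm_eq_zero_of_isNilpotent` or: simultaneous strict triangularization).  Now `nilp_eq_zero`
(H40ZL, C). -/
theorem nil_zero {k : Type*} [Field k] [IsAlgClosed k] [CharZero k] {n : Type*} [Fintype n] [DecidableEq n]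
    (A : Set (Matrix n n k)) (L : Submodule k (Matrix n n k)) (h : Setup A L) (g : Matrix n n k) (hg : g ∈ A)
    (hgs : Module.End.IsSemisimple (Matrix.toLin' g)) (hS : ∀ X ∈ L, Single g X) (ν : Matrix n n k) (hν : ν ∈ L)
    (hc : g * ν = ν * g) (hn : IsNilpotent ν) : ν = 0 := by
  sorry

/-- **T2.** (uses T1) The centralizer of `g` in `L` acts by scalars on the eigenspaces of `g`.
Proof (notation of T1).  By T1 `t` is abelian (`[T, T']` has the eigenvalue `0` on all `V_μ`, so it is nilpotent).  Let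
`T ∈ t`, `T_s = ∑ β_μ(T) e_μ`, `T_n = T - T_s` nilpotent; `T_n` commutes with all elements of `t`.
(1) `ad T_n` maps `L` to `L`: `L = ⊕ L_λ`, and `ad T_s` acts on all matrices `M` with `g M = λ M g` by one scalar
`α_λ`: for `M : V_μ → V_{λμ}` it is `β_{λμ} - β_μ`, which does not depend on `μ` by `Single` (there is a joint
eigenvector of rank one in `Hom(V_μ, V_{λμ})`: an eigenvector of `T` times an eigenvector of the transpose).
(2) Let `𝒩 = {M ∈ span A | [M, L] ⊆ L}`, a Lie algebra stable under conjugation by `A` (`Setup A 𝒩`), `T_n ∈ 𝒩` (`e_μ`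
and `T` are in `span A`, an algebra).  `tr(T_n M) = 0` for all `M ∈ 𝒩`: the component `M_1` commuting with `g` is in `𝒩`
(polynomial in `c`), the other components do not matter; for `T' ∈ t` the commutator `[M_1, T']` is in `t` and has trace
`0` on each `V_μ`, so it is nilpotent and zero by T1.  So `M_1` commutes with `T` and `e_μ`, hence with `T_n`, and
`T_n M_1` is nilpotent.  By `nilp_eq_zero` (C of H40ZL) for `𝒩`: `T_n = 0`. -/
theorem torus {k : Type*} [Field k] [IsAlgClosed k] [CharZero k] {n : Type*} [Fintype n] [DecidableEq n]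
    (A : Set (Matrix n n k)) (L : Submodule k (Matrix n n k)) (h : Setup A L) (g : Matrix n n k) (hg : g ∈ A)
    (hgs : Module.End.IsSemisimple (Matrix.toLin' g)) (hS : ∀ X ∈ L, Single g X) (T : Matrix n n k) (hT : T ∈ L)
    (hc : g * T = T * g) (μ : k) (v : n → k) (hv : g *ᵥ v = μ • v) : ∃ β : k, T *ᵥ v = β • v := by
  sorry

/-- **J0.** (Jacobson) If `C = [X, Z]` commutes with `X` then `C` is nilpotent (characteristic zero):
`tr (C^(j+1)) = tr (C^j (X Z - Z X)) = 0` as `C^j` commutes with `X`; all traces of powers zero imply nilpotent. -/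
theorem comm_nilp {k : Type*} [Field k] [CharZero k] {n : Type*} [Fintype n] [DecidableEq n] (X Z : Matrix n n k)
    (h : X * (X * Z - Z * X) = (X * Z - Z * X) * X) : IsNilpotent (X * Z - Z * X) := by
  sorry

/-- **J1.** (uses J0) If `X` is nilpotent and commutes with `C = [X, Z]` then `X Z` is nilpotent.
Proof over the algebraic closure: `X^i Z = Z X^i + i C X^(i-1)`.  Let `X Z v = λ v`, `λ ≠ 0`, `v ≠ 0`, and `i` minimal
with `X^i v = 0`; then `λ X^(i-1) v = X^i Z v = i C X^(i-1) v`, so `λ / i ≠ 0` is an eigenvalue of `C`, which is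
nilpotent by J0. -/
theorem mul_nilp {k : Type*} [Field k] [CharZero k] {n : Type*} [Fintype n] [DecidableEq n] (X Z : Matrix n n k)
    (hX : IsNilpotent X) (h : X * (X * Z - Z * X) = (X * Z - Z * X) * X) : IsNilpotent (X * Z) := by
  sorry

/-- **J2.** (uses J0, J1) Let `L` be a Lie algebra of matrices such that a nilpotent element of `L` orthogonal to `L`
for the trace form is zero, and `X ∈ L` nilpotent.  Then there is `Y ∈ L` with `[X, [X, Y]] = -2 X`.
Proof.  Let `𝔯 = {M ∈ L | tr (M M') = 0 for all M' ∈ L}`, an ideal.  By Cartan's criterion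
(`LieModule.isNilpotent_derivedSeries_of_traceForm_eq_zero`, used in `Pool/Agent/H40ZL/C.lean`) `[𝔯, 𝔯]` consists of
nilpotent matrices, so it is zero; for `M ∈ 𝔯`, `X' ∈ L` the commutator `[M, X'] ∈ 𝔯` commutes with `M`, so by J0 it is
nilpotent, so zero: `𝔯` is central in `L`.  Let `f(Y) = [X, [X, Y]]` on `L`; `tr (f(Y) Z) = tr (Y f(Z))`.  If `Z ∈ L` is
orthogonal to `f(L)` then `f(Z) ∈ 𝔯` commutes with `X` and is `[X, [X, Z]]`, so nilpotent by J0, so `f(Z) = 0`, so `X`
commutes with `[X, Z]` and `tr (X Z) = 0` by J1.  By duality for the trace form on `L` modulo `𝔯`: `X ∈ f(L) + 𝔯`,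
`X = f(Y) + z`, `z ∈ 𝔯`; `f(Y) = X - z` commutes with `X`, so it is nilpotent (J0), so `z = X - f(Y)` is nilpotent (the
two commute), so `z = 0`.  (Duality: the functional `tr (· Z)`, `Z ∈ L`: these are exactly the functionals on `L`
vanishing on `𝔯`; `f(L) + 𝔯` is the intersection of the kernels of those vanishing on it.) -/
theorem exists_ad {k : Type*} [Field k] [CharZero k] {n : Type*} [Fintype n] [DecidableEq n]
    (L : Submodule k (Matrix n n k)) (hL : ∀ X ∈ L, ∀ Y ∈ L, X * Y - Y * X ∈ L)
    (hC : ∀ ν ∈ L, IsNilpotent ν → (∀ X ∈ L, Matrix.trace (ν * X) = 0) → ν = 0) (X : Matrix n n k) (hX : X ∈ L)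
    (hn : IsNilpotent X) : ∃ Y ∈ L, X * (X * Y - Y * X) - (X * Y - Y * X) * X = -(2 : k) • X := by
  sorry

/-- **J3.** (Morozov) Let `X` be nilpotent, `H = [X, Y]`, `[H, X] = 2 X`.  If `[X, Z] = 0` and `[H, Z] = -2 Z` then `Z = 0`.
Proof.  `[ad Y, (ad X)^(i+1)] = -(i+1) (ad H - i) (ad X)^i` (induction, only `[X, Y] = H`, `[H, X] = 2X` are used).  So if
`M = (ad X)^i N` and `[X, M] = 0` then `(i+1) (ad H - i) M = (ad X)^(i+1) (ad Y N)`.  For `M = Z`: if `Z` is in the
image of `(ad X)^i` then `(-2 - i) Z`, so `Z`, is in the image of `(ad X)^(i+1)`; and `ad X` is nilpotent. -/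
theorem morozov {k : Type*} [Field k] [CharZero k] {n : Type*} [Fintype n] [DecidableEq n] (X Y H Z : Matrix n n k)
    (hX : IsNilpotent X) (h1 : X * Y - Y * X = H) (h2 : H * X - X * H = (2 : k) • X) (h3 : X * Z = Z * X)
    (h4 : H * Z - Z * H = -(2 : k) • Z) : Z = 0 := by
  sorry

/-- **J4.** (uses J2, J3 and `nilp_eq_zero` of H40ZL) Jacobson-Morozov, graded.
Proof.  J2 gives `Y₀ ∈ L` with `[X, [X, Y₀]] = -2 X`; replace `Y₀` by its component `Y₁` with `g Y₁ = λ⁻¹ Y₁ g`
(conjugation by `g` is diagonalizable on matrices, the components of an element of `L` are in `L`; compare components).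
`H = [X, Y₁] ∈ L` commutes with `g`, `[H, X] = 2 X`.  Let `K = {Z ∈ L | [X, Z] = 0, g Z = λ⁻¹ Z g}`; `Z ↦ [H, Z] + 2 Z`
maps `K` to `K` injectively (J3), hence onto; `[H, Y₁] + 2 Y₁ ∈ K`, so it is `[H, Z'] + 2 Z'`; `Y = Y₁ - Z'`. -/
theorem triple {k : Type*} [Field k] [IsAlgClosed k] [CharZero k] {n : Type*} [Fintype n] [DecidableEq n]
    (A : Set (Matrix n n k)) (L : Submodule k (Matrix n n k)) (h : Setup A L) (g : Matrix n n k) (hg : g ∈ A)
    (hgs : Module.End.IsSemisimple (Matrix.toLin' g)) (X : Matrix n n k) (hX : X ∈ L) (hn : IsNilpotent X)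
    (c : k) (hc : c ≠ 0) (hgX : g * X = c • (X * g)) :
    ∃ H ∈ L, ∃ Y ∈ L, g * H = H * g ∧ g * Y = c⁻¹ • (Y * g) ∧ X * Y - Y * X = H ∧ H * X - X * H = (2 : k) • X ∧
      H * Y - Y * H = -(2 : k) • Y := by
  sorry

/-- **S1.** (short) Representations of `sl₂` (Mathlib: `IsSl2Triple`, `IsSl2Triple.HasPrimitiveVectorWith`,
`exists_nat`, `pow_toEnd_f_eq_zero_of_eq_nat`).  (a) `w` is primitive of weight `0`.  (b) `u ≠ 0` would be primitive of
weight `-2` for the triple `(Y, X, -H)`. -/
theorem sl2 {k : Type*} [Field k] [CharZero k] {n : Type*} [Fintype n] [DecidableEq n] (X Y H : Matrix n n k)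
    (h1 : X * Y - Y * X = H) (h2 : H * X - X * H = (2 : k) • X) (h3 : H * Y - Y * H = -(2 : k) • Y) (w : n → k) :
    (X *ᵥ w = 0 → H *ᵥ w = 0 → Y *ᵥ w = 0) ∧ (Y *ᵥ w = 0 → H *ᵥ w = (2 : k) • w → w = 0) := by
  sorry

/-- **M1.** (uses T2, J4, S1) There is an element `X` of `L` such that a vector `w` with `g w = w`, `g (X w) = X w` is
killed by `L`.
Proof.  For every `λ ≠ 1` such that `L_λ = {Z ∈ L | g Z = λ Z g}` is not zero choose `X_λ ∈ L_λ`, not zero; let `X` be the
sum of these (finitely many `λ`).  `X_λ` is nilpotent, because `λ` is not a root of unity (`g X^i = λ^i X^i g`, finitely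
many eigenvalues).  Let `g w = w`, `g X w = X w`.  `X_λ w` is in the eigenspace of `g` for `λ`; `X w` in that for `1`; so
`X_λ w = 0` for all `λ`.  Fix `λ` and let `(X_λ, H, Y)` be the triple of J4.  By T2 and `Single` (compare with
`(a, v, M) = (1, 0, 0)`, `μ = 1`, `β = 0`) the elements `T ∈ L` commuting with `g` kill all vectors fixed by `g`; in
particular `H w = 0`, and `Y w = 0` by S1.  Let `Z ∈ L_λ`.  `[H, Z] = 2 Z`: by T2 `H` is a scalar on each eigenspace of
`g`, so `[H, ·]` is diagonalizable on the matrices `M` with `g M = λ M g`, and by `Single` it has one eigenvalue there,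
which is `2` (`M = X_λ`).  `u = Z w`: `H u = 2 u`, `Y u = [Y, Z] w = 0` (`[Y, Z] ∈ L` commutes with `g`), so `u = 0` by
S1.  So all `L_λ`, `λ ≠ 1`, and `L_1` kill `w`, and `L` is the sum of the `L_λ`. -/
theorem main_vec {k : Type*} [Field k] [IsAlgClosed k] [CharZero k] {n : Type*} [Fintype n] [DecidableEq n]
    (A : Set (Matrix n n k)) (L : Submodule k (Matrix n n k)) (h : Setup A L) (g : Matrix n n k) (hg : g ∈ A)
    (hgs : Module.End.IsSemisimple (Matrix.toLin' g)) (hS : ∀ X ∈ L, Single g X)
    (hroot : ∀ (c : k) (d : ℕ) (M : Matrix n n k), 0 < d → c ^ d = 1 → M ≠ 0 → g * M = c • (M * g) → c = 1) :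
    ∃ X ∈ L, ∀ w : n → k, g *ᵥ w = w → g *ᵥ (X *ᵥ w) = X *ᵥ w → ∀ Z ∈ L, Z *ᵥ w = 0 := by
  sorry

/-- **R1.** (uses E1) Ranks and tangent vectors.  Proof: all minors of size `r + 1` of `u x e` vanish on `S`, so those
of `u exp(sX) e = s (u X e + s (…))` vanish in `k[[s]]` (E1 at `y = 1`), so those of `u X e` vanish.  (A matrix over a
field has rank `≤ r` iff all its minors of size `r + 1` vanish; if the rank is `≥ r + 1` there is an invertible
submatrix of this size.) -/
theorem rank_tangent {k : Type*} [Field k] [CharZero k] {n : Type*} [Fintype n] [DecidableEq n]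
    (S : Set (Matrix n n k)) (h1 : (1 : Matrix n n k) ∈ S) (X : Matrix n n k) (hX : IsTangent S X)
    (u e : Matrix n n k) (hue : u * e = 0) (r : ℕ) (h : ∀ x ∈ S, (u * x * e).rank ≤ r) : (u * X * e).rank ≤ r := by
  sorry

/-- **X1.** The Lie algebra of the torus generated by `g` (as `tangent_unip`, H40ZL A2, but easier): if `g` is
invertible and diagonalizable, with the eigenprojectors `e_μ`, and `φ : kˣ → k` is a homomorphism, then
`X = ∑ φ(μ) e_μ` is tangent to every set `S` stable under right multiplication by `g`.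
Proof.  For `P` vanishing on `S` and `y ∈ S`: `P(y g^i) = ∑_c c^i P_c(y)`, the sum over finitely many products `c ∈ kˣ`
of eigenvalues, is zero for all `i`, so `P_c(y) = 0` for all `c` (`expPoly_indep`, A1, with constant `Q`), and
`(genD X P)(y) = ∑_c φ(c) P_c(y)` (both sides are derivations; compare on the variables in a basis of eigenvectors, or
use the grading of the polynomial ring over the group algebra `MonoidAlgebra k kˣ` as in A2). -/
theorem tangent_phi {k : Type*} [Field k] [IsAlgClosed k] [CharZero k] {n : Type*} [Fintype n] [DecidableEq n]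
    (S : Set (Matrix n n k)) (g : Matrix n n k) (hS : ∀ y ∈ S, ∀ i : ℕ, y * g ^ i ∈ S) (hu : IsUnit g)
    (hgs : Module.End.IsSemisimple (Matrix.toLin' g)) (φ : Additive kˣ →+ k) :
    ∃ X : Matrix n n k, IsTangent S X ∧
      ∀ (μ : kˣ) (v : n → k), g *ᵥ v = (μ : k) • v → X *ᵥ v = φ (Additive.ofMul μ) • v := by
  sorry

/-- **X2.** (short) If `μ` is not a root of unity there is a homomorphism `φ : kˣ → k` with `φ(μ) ≠ 0` (`k` is divisible,
hence an injective group: `Module.Baer` / `AddCommGroup` injectivity over `ℤ`, or Zorn; or: `kˣ ⊗ ℚ` is a `ℚ`-vector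
space, `μ ⊗ 1 ≠ 0`). -/
theorem exists_phi {k : Type*} [Field k] [CharZero k] (μ : kˣ) (hμ : ∀ d : ℕ, 0 < d → μ ^ d ≠ 1) :
    ∃ φ : Additive kˣ →+ k, φ (Additive.ofMul μ) ≠ 0 := by
  sorry

/-- **B1.** A direct sum of irreducible representations is semisimple.  (Standard: for a stable `U` choose a maximal set
`J` of indices such that `U` and the sum of the blocks in `J` meet in zero.) -/
theorem ssimple_blk {k Γ : Type*} [Field k] [Group Γ] {s : ℕ} {n : Fin s → ℕ}
    (ρ : ∀ j, Γ →* Matrix (Fin (n j)) (Fin (n j)) k)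
    (hirr : ∀ j, ∀ U : Submodule k (Fin (n j) → k), (∀ g, ∀ u ∈ U, ρ j g *ᵥ u ∈ U) → U = ⊥ ∨ U = ⊤) :
    SSimple (Set.range fun g : Γ => Matrix.blockDiagonal' fun j => ρ j g) := by
  sorry

end Pool.Agent.H40TG
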