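import Mathlib
import Pool.Agent.H40ZL.Defs
import Pool.Agent.H40TG.Defs
import Pool.Agent.H40GO.Fun
import Pool.Agent.H40LT.Unity

/-!
# Project TG: three more stubs
-/

set_option autoImplicit false

namespace Pool.Agent.H40TG

open Matrix Pool.Agent.H40ZL Pool.Agent.H40GO Pool.Agent.H40LT

/-- **P1.** The `N`-th power map of a connected algebraic group is dominant.
Proof.  Let `m = {r ∈ R | r 1 = 0}`, a proper ideal of the Noetherian domain `R`, so `⨅ m^l = ⊥`
(`Ideal.iInf_pow_eq_bot_of_isDomain`).  (1) For `r ∈ m` the function `r_N : x ↦ r (x^N)` is in `m` and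
`r_N - N r ∈ m^2`: `r (x y) = ∑ u_i x * w_i y` gives
`r (x y) = r x + r y + ∑ (u_i x - u_i 1) (w_i y - w_i 1)` (use `r x = ∑ u_i x * w_i 1`, `r y = ∑ u_i 1 * w_i y`,
`r 1 = 0`), put `y = x^N` and use induction on `N` (for all functions of `R` at once: `r ↦ r_N` is an algebra
endomorphism of `R`, first show that it maps `R` to `R`, by induction from `Comul`).
(2) So for `r ∈ m^l`: `r_N - N^l r ∈ m^(l+1)` (`Submodule.pow_induction_on_left'` or induction on `l`).
(3) If `f ≠ 0` let `l` be maximal with `f ∈ m^l` (`l = 0` if `f 1 ≠ 0`); `f_N = 0` gives `N^l f ∈ m^(l+1)`, so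
`f ∈ m^(l+1)`, a contradiction. -/
theorem pow_dominant {C Γ : Type*} [Field C] [CharZero C] [Group Γ] (R : Subalgebra C (Γ → C)) [IsNoetherianRing R]
    [IsDomain R] (hR : ∀ r ∈ R, Comul R r) (N : ℕ) (hN : 0 < N) (f : Γ → C) (hf : f ∈ R)
    (h0 : ∀ x, f (x ^ N) = 0) : f = 0 := by
  sorry

/-- **N2.** Let the number of the distinct eigenvalues of `psi (g^N)` be at least that of `psi g`.  Then no eigenvalue
other than `1` of `g` on `V` or on `End V` (conjugation) has the `N`-th power `1`.
Proof.  `psi` is multiplicative, so `psi (g^N) = (psi g)^N` and its eigenvalues are the `N`-th powers of those of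
`psi g`; so the `N`-th power map is injective on the set of the eigenvalues of `psi g`.  `det g` (the vector
`(1, 0, 0)`), `c det g` (the vector `(0, v, 0)` or `(0, 0, M)`) are eigenvalues of `psi g` with the same `N`-th power. -/
theorem pow_inj {k : Type*} [Field k] [IsAlgClosed k] [CharZero k] {n : Type*} [Fintype n] [DecidableEq n]
    (g : Matrix n n k) (hu : IsUnit g) (N : ℕ) (hN : 0 < N) (h : nd k (psi g) ≤ nd k (psi (g ^ N))) :
    (∀ (c : k) (M : Matrix n n k), M ≠ 0 → g * M = c • (M * g) → c ^ N = 1 → c = 1) ∧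
    (∀ (c : k) (v : n → k), v ≠ 0 → g *ᵥ v = c • v → c ^ N = 1 → c = 1) := by
  sorry

/-- **U1.** (short) Bounded orders of roots of unity.  `ℚ(x, y)` has degree at most `b²` over `ℚ`
(`IntermediateField.finrank_sup_le` or the tower law), so `x / y` is a root of a rational polynomial of degree at most
`b * b`; apply `pow_expo` of `Pool/Agent/H40LT/Unity.lean`. -/
theorem ratio_expo {C : Type*} [Field C] [CharZero C] (P : Polynomial ℚ) (hP : P ≠ 0) (b : ℕ) (hb : P.natDegree ≤ b)
    (x y : C) (hx : Polynomial.aeval x P = 0) (hy : Polynomial.aeval y P = 0) (d : ℕ) (hd : 0 < d) :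
    ((x / y) ^ d = 1 → (x / y) ^ expo (b * b) = 1) ∧ (x ^ d = 1 → x ^ expo (b * b) = 1) := by
  sorry

end Pool.Agent.H40TG
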