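import Pool.Agent.H40TG.T1
import Pool.Agent.H40TG.T2a

/-!
# Project TG, stub T2
-/

set_option autoImplicit false

namespace Pool.Agent.H40TG

open Matrix Pool.Agent.H40ZL

/-- **T2.** The centralizer of `g` in `L` acts by scalars on the eigenspaces of `g`. -/
theorem torus {k : Type*} [Field k] [IsAlgClosed k] [CharZero k] {n : Type*} [Fintype n] [DecidableEq n]
    (A : Set (Matrix n n k)) (L : Submodule k (Matrix n n k)) (h : Setup A L) (g : Matrix n n k) (hg : g ∈ A)
    (hgs : Module.End.IsSemisimple (Matrix.toLin' g)) (hS : ∀ X ∈ L, Single g X) (T : Matrix n n k) (hT : T ∈ L)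
    (hc : g * T = T * g) (μ : k) (v : n → k) (hv : g *ᵥ v = μ • v) : ∃ β : k, T *ᵥ v = β • v :=
  torus_of A L h g hg hgs hS (fun ν hν hc' hn => nil_zero A L h g hg hgs hS ν hν hc' hn) T hT hc μ v hv

end Pool.Agent.H40TG
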